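import Pool.Agent.Lib.MP_7d3fda_nt.R5.BDefs

open Finset
open scoped Classical NumberTheorySymbols

noncomputable section

namespace Pool.Agent.Lib.MP_7d3fda_nt.R5

open Pool.Agent.Lib.MP_4b8564_nt.GT Pool.Agent.Lib.MP_7d3fda_nt.R2
open Pool.Agent.Lib.MP_7d3fda_nt.R3 (sgn)

/-! Working definitions of the analytic part (none of them occurs in the final statement). -/

/-- `m` is a product of seven small primes and a large prime of the right kind -/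
def Eight (W₀ : ℕ) (u : Fin 8 → ℕ) (θ : Fin 8 → Fin 8 → ZMod 2) (R : ℕ) (m : ℤ) : Prop :=
  ∃ r : Fin 8 → ℕ, (∀ k, (r k).Prime ∧ r k ≡ u k [MOD W₀]) ∧ ∏ k, (r k : ℤ) = m ∧
    (∀ k : Fin 7, R < r k.castSucc ∧ r k.castSucc ≤ R ^ 2) ∧ R ^ 2 < r (Fin.last 7) ∧
    ∀ k l, k < l → J((r l : ℤ) | r k) = sgn (θ k l)

/-- the classes of the small primes are different -/
def Sep8 (W₀ : ℕ) (u : Fin 8 → ℕ) : Prop :=
  ∀ k l : Fin 7, u k.castSucc ≡ u l.castSucc [MOD W₀] → k = l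

section

variable {ι : Type} [Fintype ι] [DecidableEq ι]

/-- indices of the small primes of the blown-up system -/
def Adm8 (ι : Type) [Fintype ι] [DecidableEq ι] : Finset (Fin 7 × ι × Finset ι) := univ ×ˢ Adm ι

/-- one term of the box average -/
def term8 (c : ι → ℤ) (W : ℤ) (n : ι → ℤ) (s : ℤ) (G : Finset ((Fin 7 × ι) × Fin 7 × ι))
    (B : Finset (Fin 7 × ι)) (Q : Fin 7 × ι × Finset ι → ℕ) (x : ι ⊕ ι → ℤ) : ℝ :=
  (∏ S : Finset ι, Gam G B (Sf W s (vx S x)) fun v => Q (v.1, v.2, S.erase v.2)) *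
    ∏ t ∈ Adm8 ι, ind (Q t) (Lf c W n t.2.1 (vx t.2.2 x))

/-- no coincidence -/
def NC8 (Q : Fin 7 × ι × Finset ι → ℕ) : Prop :=
  ∀ t ∈ Adm8 ι, ∀ t' ∈ Adm8 ι, Q t = Q t' → t = t'

/-- the small primes of a value are different -/
def Dis8 (Q : Fin 7 × ι × Finset ι → ℕ) : Prop :=
  ∀ t ∈ Adm ι, ∀ k l, Q (k, t) = Q (l, t) → k = l

/-- the box average -/
def box8 (c : ι → ℤ) (W : ℤ) (n : ι → ℤ) (s : ℤ) (G : Finset ((Fin 7 × ι) × Fin 7 × ι))
    (B : Finset (Fin 7 × ι)) (P : Finset ℕ) (H : ℕ) : ℝ :=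
  av fun Q : Fin 7 × ι × Finset ι → P => if Dis8 (fun t => (Q t : ℕ)) then
    (P.card : ℝ) ^ (Adm8 ι).card * bav H (term8 c W n s G B fun t => (Q t : ℕ)) else 0

end

end Pool.Agent.Lib.MP_7d3fda_nt.R5
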