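import Pool.Agent.Lib.MP_7d3fda_nt.R5.BMany
import Pool.Agent.Lib.MP_7d3fda_nt.R2.Count

open Finset
open scoped Classical NumberTheorySymbols

noncomputable section

namespace Pool.Agent.Lib.MP_7d3fda_nt.R5

open Pool.Agent.Lib.MP_4b8564_nt.GT Pool.Agent.Lib.MP_7d3fda_nt.R2 Pool.Agent.Lib.MP_7d3fda_nt.R3

namespace BCountAux

variable {c : Fin 8 → ℕ} {W₀ : ℕ} {u : Fin 8 → ℕ}
  {qq : (Fin 8 → Fin 8 → ZMod 2) → Fin 7 × Fin 8 → Fin 7 × Fin 8 → ZMod 2}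
  {sg : Fin 7 × Fin 8 → ZMod 2}

/-- the product of the eight values has at most 64 prime factors -/
theorem primes (a s : ℤ) (h : Good8 c W₀ u qq sg a s) :
    ∃ S : Finset ℕ, S.card ≤ 64 ∧
      ∀ p : ℕ, p.Prime → (p : ℤ) ∣ ∏ j, (a + c j * s) → p ∈ S := by
  obtain ⟨θ, r, h1, -, h3, -⟩ := h
  refine ⟨univ.image fun v : Fin 8 × Fin 8 => r v.1 v.2, card_image_le.trans (by simp),
    fun p hr hd => ?_⟩
  have hp : Prime (p : ℤ) := Nat.prime_iff_prime_int.mp hr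
  obtain ⟨j, -, hj⟩ := (Prime.dvd_finsetProd_iff hp _).mp hd
  have key : ∀ k, (p : ℤ) ∣ (r j k : ℤ) → p ∈ univ.image fun v : Fin 8 × Fin 8 => r v.1 v.2 := by
    intro k hk
    have := (Nat.prime_dvd_prime_iff_eq hr (h1 j k).1).mp (Int.natCast_dvd_natCast.mp hk)
    exact mem_image.mpr ⟨(j, k), mem_univ _, this.symm⟩
  rw [← h3 j] at hj
  obtain ⟨k, -, hk⟩ := (Prime.dvd_finsetProd_iff hp _).mp hj
  exact key k hk

theorem fiber (hc : Pat8 c) (d₀ : ℤ) (hd₀ : d₀ ≠ 0) (T : Finset (ℤ × ℤ))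
    (hT : ∀ z ∈ T, Good8 c W₀ u qq sg z.1 z.2) :
    T.card ≤ 64 ^ 16 * (T.image fun z : ℤ × ℤ => d₀ * ∏ j, (z.1 + (c j : ℤ) * z.2)).card := by
  obtain ⟨j₀, hj₀⟩ := hc.zero
  obtain ⟨j₁, hj₁⟩ := exists_ne j₀
  have hc1 : (c j₁ : ℤ) ≠ 0 := by
    intro h
    have h' : c j₁ = 0 := by exact_mod_cast h
    exact hj₁ (hc.inj (h'.trans hj₀.symm))
  refine card_le_mul_card_image T _ fun d hd => ?_
  obtain ⟨z0, hz0, rfl⟩ := mem_image.mp hd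
  obtain ⟨S, hS, hS'⟩ := primes _ _ (hT z0 hz0)
  have sub : (T.filter fun z : ℤ × ℤ => d₀ * ∏ j, (z.1 + (c j : ℤ) * z.2) =
      d₀ * ∏ j, (z0.1 + (c j : ℤ) * z0.2)) ⊆
      ((Fintype.piFinset fun _ : Fin 8 => S) ×ˢ (Fintype.piFinset fun _ : Fin 8 => S)).image
        fun w : (Fin 8 → ℕ) × (Fin 8 → ℕ) =>
        ((∏ k, (w.1 k : ℤ), (∏ k, (w.2 k : ℤ) - ∏ k, (w.1 k : ℤ)) / c j₁) : ℤ × ℤ) := by
    intro z hz
    obtain ⟨hz1, hz2⟩ := mem_filter.mp hz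
    have hz3 := mul_left_cancel₀ hd₀ hz2
    obtain ⟨θ, r, h1, -, h3, -⟩ := hT z hz1
    have key : ∀ j, r j ∈ Fintype.piFinset fun _ : Fin 8 => S := by
      intro j
      have hdv : ∏ k, (r j k : ℤ) ∣ ∏ j, (z0.1 + c j * z0.2) := by
        rw [← hz3, h3 j]
        exact dvd_prod_of_mem (fun j => z.1 + c j * z.2) (mem_univ j)
      exact Fintype.mem_piFinset.2 fun k => hS' _ (h1 j k).1
        ((dvd_prod_of_mem (fun k => (r j k : ℤ)) (mem_univ k)).trans hdv)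
    refine mem_image.mpr ⟨(r j₀, r j₁), mem_product.2 ⟨key j₀, key j₁⟩, ?_⟩
    have e0 := h3 j₀
    have e1 := h3 j₁
    rw [hj₀, Nat.cast_zero, zero_mul, add_zero] at e0
    refine Prod.ext e0 ?_
    show (∏ k, (r j₁ k : ℤ) - ∏ k, (r j₀ k : ℤ)) / c j₁ = z.2
    rw [e0, e1, add_sub_cancel_left]
    exact Int.mul_ediv_cancel_left _ hc1
  refine (card_le_card sub).trans (card_image_le.trans ?_)
  rw [card_product, Fintype.card_piFinset_const]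
  calc S.card ^ 8 * S.card ^ 8 ≤ 64 ^ 8 * 64 ^ 8 := by gcongr
    _ = 64 ^ 16 := by norm_num

theorem prod_le {a s M : ℤ} (h : Good8 c W₀ u qq sg a s) (hM : ∀ j, a + c j * s ≤ M) :
    |∏ j, (a + c j * s)| ≤ M ^ 8 := by
  obtain ⟨θ, r, -, -, h3, -⟩ := h
  have hpos : ∀ j, 0 ≤ a + c j * s := fun j => by
    rw [← h3 j]
    positivity
  have h2 : ∏ j, (a + c j * s) ≤ M ^ 8 := by
    have := Finset.prod_le_prod (s := (univ : Finset (Fin 8))) (f := fun j => a + c j * s)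
      (g := fun _ => M) (fun j _ => hpos j) (fun j _ => hM j)
    simpa using this
  have h4 : 0 ≤ ∏ j, (a + c j * s) := Finset.prod_nonneg fun j _ => hpos j
  rwa [abs_of_nonneg h4]

end BCountAux

theorem exists8 : Exists8 := by
  intro c hc W₀ hW₀ u hu h01 qq sg
  obtain ⟨κ, hκ, W, -, N₀, hmany⟩ := many8 c hc W₀ hW₀ u hu h01 qq sg
  obtain ⟨N, hN, hNp⟩ := Nat.exists_infinite_primes N₀
  obtain ⟨T, hT, hcard⟩ := hmany N hNp hN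
  have hN2 : (2 : ℝ) ≤ N := by exact_mod_cast hNp.two_le
  have hlog : 0 < Real.log N := Real.log_pos (by linarith)
  have hpos : (0 : ℝ) < T.card := lt_of_lt_of_le (by positivity) hcard
  obtain ⟨z, hz⟩ := Finset.card_pos.1 (by exact_mod_cast hpos : 0 < T.card)
  exact ⟨z.1, z.2, (hT z hz).1⟩

theorem count8 : Count8 := by
  intro c hc W₀ hW₀ u hu h01 qq sg d₀ hd₀ p hp
  obtain ⟨κ, hκ, W, hW, N₀, hmany⟩ := many8 c hc W₀ hW₀ u hu h01 qq sg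
  have hWr : (1 : ℝ) ≤ W := by exact_mod_cast hW
  have hd1 : (1 : ℝ) ≤ |(d₀ : ℝ)| := by
    have := Int.one_le_abs hd₀
    exact_mod_cast this
  obtain ⟨V, hV⟩ : ∃ V : ℝ, V = |(d₀ : ℝ)| * W := ⟨_, rfl⟩
  have hV1 : 1 ≤ V := by rw [hV]; nlinarith
  have hV0 : 0 < V := by linarith
  refine ⟨κ / (16 * V ^ 2 * 64 ^ 16), by positivity, (4 * V * (N₀ + 1)) ^ 8, ?_⟩
  intro D hD
  have hN0 : (0 : ℝ) ≤ N₀ := Nat.cast_nonneg _
  have hM1 : (1 : ℝ) ≤ 4 * V * (N₀ + 1) := by nlinarith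
  have hD1 : (1 : ℝ) ≤ D := (one_le_pow₀ hM1).trans hD
  have hD0 : (0 : ℝ) ≤ D := by linarith
  obtain ⟨x, hx0, hx6, hx2⟩ : ∃ x : ℝ, 0 ≤ x ∧ x ^ 8 = D ∧ x ^ 2 = D ^ (1 / 4 : ℝ) := by
    refine ⟨D ^ (1 / 8 : ℝ), Real.rpow_nonneg hD0 _, ?_, ?_⟩
    · rw [← Real.rpow_natCast, ← Real.rpow_mul hD0]
      norm_num
    · rw [← Real.rpow_natCast, ← Real.rpow_mul hD0]
      norm_num
  have hxM : 4 * V * (N₀ + 1) ≤ x := by
    refine le_of_pow_le_pow_left₀ (n := 8) (by norm_num) hx0 ?_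
    rw [hx6]
    exact hD
  have hx1 : 1 ≤ x := hM1.trans hxM
  set Y : ℕ := ⌊x / (4 * V)⌋₊ with hY
  have hq0 : 0 ≤ x / (4 * V) := by positivity
  have hYle : (Y : ℝ) ≤ x / (4 * V) := Nat.floor_le hq0
  have hYlt : x / (4 * V) < Y + 1 := Nat.lt_floor_add_one _
  have hYge : N₀ + 1 ≤ Y := by
    refine Nat.le_floor ?_
    rw [le_div_iff₀ (by positivity)]
    push_cast
    linarith
  obtain ⟨N, hNp, hN1, hN2⟩ := Nat.exists_prime_lt_and_le_two_mul Y (by omega)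
  obtain ⟨T, hT, hcard⟩ := hmany N hNp (by omega)
  have hN1r : (Y : ℝ) + 1 ≤ N := by exact_mod_cast hN1
  have hN2r : (N : ℝ) ≤ 2 * Y := by exact_mod_cast hN2
  have hWN : V * N ≤ x / 2 := by
    have h1 : (Y : ℝ) * (4 * V) ≤ x := by rwa [le_div_iff₀ (by positivity)] at hYle
    nlinarith
  have hxN : x ≤ 4 * V * N := by
    have h1 : x < (Y + 1) * (4 * V) := by rwa [div_lt_iff₀ (by positivity)] at hYlt
    nlinarith
  have hN2' : (2 : ℝ) ≤ N := by exact_mod_cast hNp.two_le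
  have hxD : x ≤ D := by
    rw [← hx6]
    exact le_self_pow₀ hx1 (by norm_num)
  have hND : (N : ℝ) ≤ D := by nlinarith
  have hlogN : 0 < Real.log N := Real.log_pos (by linarith)
  have hlog : Real.log N ≤ Real.log D := Real.log_le_log (by linarith) hND
  have hsub : ((T.image fun z : ℤ × ℤ => d₀ * ∏ j, (z.1 + (c j : ℤ) * z.2) : Finset ℤ) : Set ℤ) ⊆
      {d : ℤ | |(d : ℝ)| ≤ D ∧ p d} := by
    intro d hd
    obtain ⟨z, hz, rfl⟩ := Finset.mem_image.1 (Finset.mem_coe.1 hd)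
    refine ⟨?_, hp _ _ (hT z hz).1⟩
    have h1 := BCountAux.prod_le (hT z hz).1 (hT z hz).2
    obtain ⟨m, hm⟩ : ∃ m : ℤ, m = ∏ j, (z.1 + c j * z.2) := ⟨_, rfl⟩
    rw [← hm] at h1 ⊢
    have h2 : |(m : ℝ)| ≤ ((W : ℝ) * N) ^ 8 := by exact_mod_cast h1
    have h3 : (V * N) ^ 8 ≤ (x / 2) ^ 8 := pow_le_pow_left₀ (by positivity) hWN 8
    have h4 : (x / 2) ^ 8 = D / 256 := by
      rw [div_pow, hx6]
      norm_num
    have h5 : |(d₀ : ℝ)| ≤ |(d₀ : ℝ)| ^ 8 := le_self_pow₀ hd1 (by norm_num)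
    have h6 : |(d₀ : ℝ)| * |(m : ℝ)| ≤ |(d₀ : ℝ)| ^ 8 * ((W : ℝ) * N) ^ 8 :=
      mul_le_mul h5 h2 (abs_nonneg _) (by positivity)
    have h7 : |(d₀ : ℝ)| ^ 8 * ((W : ℝ) * N) ^ 8 = (V * N) ^ 8 := by rw [hV]; ring
    rw [Int.cast_mul, abs_mul]
    linarith
  have hle : (T.image fun z : ℤ × ℤ => d₀ * ∏ j, (z.1 + (c j : ℤ) * z.2)).card ≤
      Set.ncard {d : ℤ | |(d : ℝ)| ≤ D ∧ p d} := by
    rw [← Set.ncard_coe_finset]
    exact Set.ncard_le_ncard hsub (CountAux.fin_set p D)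
  have hfib := BCountAux.fiber hc d₀ hd₀ T fun z hz => (hT z hz).1
  have hT' : (T.card : ℝ) ≤ 64 ^ 16 * (Set.ncard {d : ℤ | |(d : ℝ)| ≤ D ∧ p d} : ℝ) := by
    have := hfib.trans (Nat.mul_le_mul_left _ hle)
    exact_mod_cast this
  have hsq : D ^ (1 / 4 : ℝ) ≤ 16 * V ^ 2 * (N : ℝ) ^ 2 := by
    rw [← hx2]
    have := pow_le_pow_left₀ hx0 hxN 2
    nlinarith
  have hl6 : Real.log N ^ 8 ≤ Real.log D ^ 8 := pow_le_pow_left₀ hlogN.le hlog 8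
  have h5 : κ / (16 * V ^ 2 * 64 ^ 16) * D ^ (1 / 4 : ℝ) ≤ κ * (N : ℝ) ^ 2 / 64 ^ 16 := by
    have h6 : κ / (16 * V ^ 2 * 64 ^ 16) * (16 * V ^ 2 * (N : ℝ) ^ 2) =
        κ * (N : ℝ) ^ 2 / 64 ^ 16 := by
      field_simp
    rw [← h6]
    exact mul_le_mul_of_nonneg_left hsq (by positivity)
  calc κ / (16 * V ^ 2 * 64 ^ 16) * D ^ (1 / 4 : ℝ) / Real.log D ^ 8
      ≤ κ * (N : ℝ) ^ 2 / 64 ^ 16 / Real.log N ^ 8 :=
        div_le_div₀ (by positivity) h5 (by positivity) hl6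
    _ = κ * (N : ℝ) ^ 2 / Real.log N ^ 8 / 64 ^ 16 := by ring
    _ ≤ (T.card : ℝ) / 64 ^ 16 := div_le_div_of_nonneg_right hcard (by positivity)
    _ ≤ _ := by
        rw [div_le_iff₀ (by positivity)]
        linarith

end Pool.Agent.Lib.MP_7d3fda_nt.R5
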