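import Pool.Agent.Lib.MP_7d3fda_nt.R3.ADefs

open Finset
open scoped Classical NumberTheorySymbols

noncomputable section

namespace Pool.Agent.Lib.MP_7d3fda_nt.R5

open Pool.Agent.Lib.MP_7d3fda_nt.R3

/-- the eight values are products of eight primes with prescribed classes and symbols -/
def Good8 (c : Fin 8 → ℕ) (W₀ : ℕ) (u : Fin 8 → ℕ)
    (qq : (Fin 8 → Fin 8 → ZMod 2) → Fin 7 × Fin 8 → Fin 7 × Fin 8 → ZMod 2)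
    (sg : Fin 7 × Fin 8 → ZMod 2) (a s : ℤ) : Prop :=
  ∃ (θ : Fin 8 → Fin 8 → ZMod 2) (r : Fin 8 → Fin 8 → ℕ),
    (∀ j k, (r j k).Prime ∧ r j k ≡ u k [MOD W₀] ∧ ¬(r j k : ℤ) ∣ s) ∧
    (∀ i k j l, r i k = r j l → i = j ∧ k = l) ∧
    (∀ j, ∏ k, (r j k : ℤ) = a + c j * s) ∧
    (∀ j k l, k < l → J((r j l : ℤ) | r j k) = sgn (θ k l)) ∧
    (∀ v w : Fin 7 × Fin 8, v.2 < w.2 →
      J((r v.2 v.1.castSucc : ℤ) | r w.2 w.1.castSucc) = sgn (qq θ v w)) ∧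
    ∀ v : Fin 7 × Fin 8, J(s | r v.2 v.1.castSucc) = sgn (sg v)

/-- a normalised pattern -/
structure Pat8 (c : Fin 8 → ℕ) : Prop where
  inj : Function.Injective c
  zero : ∃ j, c j = 0
  bez : ∃ lam : Fin 8 → ℤ, ∑ j, lam j * c j = 1

/-- the analytic input: one good pair -/
def Exists8 : Prop :=
  ∀ (c : Fin 8 → ℕ), Pat8 c → ∀ (W₀ : ℕ), 0 < W₀ → ∀ (u : Fin 8 → ℕ), (∀ k, (u k).Coprime W₀) →
    (∀ k l : Fin 7, u k.castSucc ≡ u l.castSucc [MOD W₀] → k = l) → ∀ qq sg,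
      ∃ a s, Good8 c W₀ u qq sg a s

/-- the analytic input: many good pairs -/
def Count8 : Prop :=
  ∀ (c : Fin 8 → ℕ), Pat8 c → ∀ (W₀ : ℕ), 0 < W₀ → ∀ (u : Fin 8 → ℕ), (∀ k, (u k).Coprime W₀) →
    (∀ k l : Fin 7, u k.castSucc ≡ u l.castSucc [MOD W₀] → k = l) → ∀ qq sg,
      ∀ (d₀ : ℤ), d₀ ≠ 0 → ∀ p : ℤ → Prop,
        (∀ a s, Good8 c W₀ u qq sg a s → p (d₀ * ∏ j, (a + c j * s))) →
        ∃ κ : ℝ, 0 < κ ∧ ∃ D₀ : ℝ, ∀ D : ℝ, D₀ ≤ D →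
          κ * D ^ (1 / 4 : ℝ) / Real.log D ^ 8 ≤ (Set.ncard {d : ℤ | |(d : ℝ)| ≤ D ∧ p d} : ℝ)

end Pool.Agent.Lib.MP_7d3fda_nt.R5
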