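import Pool.Agent.Lib.MP_7d3fda_nt.R5.BAux
import Pool.Agent.Lib.MP_7d3fda_nt.R3.ADens

open Finset
open scoped Classical NumberTheorySymbols

noncomputable section

namespace Pool.Agent.Lib.MP_7d3fda_nt.R5

open Pool.Agent.Lib.MP_4b8564_nt.GT Pool.Agent.Lib.MP_7d3fda_nt.R2
open Pool.Agent.Lib.MP_7d3fda_nt.R3 (sgn)
open Pool.Agent.Lib.MP_7d3fda_nt.R3.ADensAux (Qs Ps bit sgn_bit jac_pm)

namespace BDensAux

/-- the tuples of small primes -/
def Qt (m : ℕ) (u : Fin 8 → ℕ) (R : ℕ) : Finset (Fin 7 → ℕ) :=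
  Fintype.piFinset fun k => Qs m (u k.castSucc) R

/-- the tuples -/
def Ss (m : ℕ) (u : Fin 8 → ℕ) (R Y : ℕ) : Finset (Σ _ : Fin 7 → ℕ, ℕ) :=
  (Qt m u R).sigma fun q => Ps m (u (Fin.last 7)) ((Y - 1) / ∏ k, q k)

/-- the eight primes -/
def rr (x : Σ _ : Fin 7 → ℕ, ℕ) : Fin 8 → ℕ := Fin.snoc (α := fun _ => ℕ) x.1 x.2

theorem rr_cast (x : Σ _ : Fin 7 → ℕ, ℕ) (k : Fin 7) : rr x k.castSucc = x.1 k := by
  simp [rr]

theorem rr_last (x : Σ _ : Fin 7 → ℕ, ℕ) : rr x (Fin.last 7) = x.2 :=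
  Fin.snoc_last (α := fun _ => ℕ) x.2 x.1

theorem rr_prod (x : Σ _ : Fin 7 → ℕ, ℕ) : ∏ k, rr x k = (∏ k, x.1 k) * x.2 := by
  rw [Fin.prod_univ_castSucc, rr_last]
  simp only [rr_cast]

variable {m : ℕ} {u : Fin 8 → ℕ}

theorem mem_Qt {R : ℕ} {q : Fin 7 → ℕ} (hq : q ∈ Qt m u R) (k : Fin 7) :
    (R < q k ∧ q k ≤ R ^ 2) ∧ (q k).Prime ∧ q k ≡ u k.castSucc [MOD m] := by
  have := Fintype.mem_piFinset.1 hq k
  rwa [Qs, mem_filter, mem_Ioc] at this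

theorem pos_Qt {R : ℕ} {q : Fin 7 → ℕ} (hq : q ∈ Qt m u R) : 0 < ∏ k, q k :=
  prod_pos fun k _ => (mem_Qt hq k).2.1.pos

theorem big {R Y : ℕ} {q : Fin 7 → ℕ} (hY : R ^ 18 ≤ Y - 1) (hq : q ∈ Qt m u R) :
    R ^ 4 ≤ (Y - 1) / ∏ k, q k := by
  rw [Nat.le_div_iff_mul_le (pos_Qt hq)]
  have h1 : ∏ k, q k ≤ (R ^ 2) ^ 7 := by
    simpa using prod_le_pow_card univ q (R ^ 2) fun k _ => (mem_Qt hq k).1.2
  calc R ^ 4 * ∏ k, q k ≤ R ^ 4 * (R ^ 2) ^ 7 := Nat.mul_le_mul_left _ h1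
    _ = R ^ 18 := by ring
    _ ≤ Y - 1 := hY

theorem mem_Ss {R Y : ℕ} (hY : R ^ 18 ≤ Y - 1) {x : Σ _ : Fin 7 → ℕ, ℕ} (hx : x ∈ Ss m u R Y) :
    (∀ k, (rr x k).Prime ∧ rr x k ≡ u k [MOD m]) ∧ ∏ k, rr x k ≤ Y - 1 ∧
      (∀ k : Fin 7, R < rr x k.castSucc ∧ rr x k.castSucc ≤ R ^ 2) ∧
      R ^ 2 < rr x (Fin.last 7) := by
  rw [Ss, mem_sigma] at hx
  obtain ⟨h1, h2⟩ := hx
  have hb := big hY h1
  rw [Ps, mem_filter, mem_Icc] at h2
  refine ⟨fun k => ?_, ?_, fun k => ?_, ?_⟩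
  · refine Fin.lastCases ?_ (fun k => ?_) k
    · rw [rr_last]
      exact ⟨h2.2.1, h2.2.2.2⟩
    · rw [rr_cast]
      exact (mem_Qt h1 k).2
  · rw [rr_prod, mul_comm]
    exact (Nat.le_div_iff_mul_le (pos_Qt h1)).1 h2.1.2
  · rw [rr_cast]
    exact (mem_Qt h1 k).1
  · rw [rr_last]
    refine lt_of_pow_lt_pow_left₀ 2 (Nat.zero_le _) ?_
    calc (R ^ 2) ^ 2 = R ^ 4 := by ring
      _ ≤ _ := hb
      _ < _ := h2.2.2.1

end BDensAux

/-- the position of a prime in a tuple is determined by its size and class -/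
theorem pos_eq {m R : ℕ} {u : Fin 8 → ℕ} (h01 : Sep8 m u) {r r' : Fin 8 → ℕ}
    (a1 : ∀ k, r k ≡ u k [MOD m]) (a2 : ∀ k : Fin 7, r k.castSucc ≤ R ^ 2)
    (a3 : R ^ 2 < r (Fin.last 7)) (b1 : ∀ k, r' k ≡ u k [MOD m])
    (b2 : ∀ k : Fin 7, r' k.castSucc ≤ R ^ 2) (b3 : R ^ 2 < r' (Fin.last 7)) (k l : Fin 8)
    (h : r k = r' l) : k = l := by
  revert h
  refine Fin.lastCases ?_ (fun k => ?_) k <;> refine Fin.lastCases ?_ (fun l => ?_) l <;> intro h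
  · rfl
  · have := b2 l
    omega
  · have := a2 k
    omega
  · rw [h01 k l ((a1 _).symm.trans (h ▸ b1 _))]

namespace BDensAux

variable {m : ℕ} {u : Fin 8 → ℕ}

theorem inj_Ss (h01 : Sep8 m u) {R Y : ℕ} (hY : R ^ 18 ≤ Y - 1)
    {x y : Σ _ : Fin 7 → ℕ, ℕ} (hx : x ∈ Ss m u R Y) (hy : y ∈ Ss m u R Y)
    (h : ∏ k, rr x k = ∏ k, rr y k) : x = y := by
  obtain ⟨a1, -, a2, a3⟩ := mem_Ss hY hx
  obtain ⟨b1, -, b2, b3⟩ := mem_Ss hY hy
  have key : ∀ k, rr x k = rr y k := fun k => by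
    have hd : rr x k ∣ ∏ l, rr y l := h ▸ dvd_prod_of_mem _ (mem_univ k)
    obtain ⟨l, -, hl⟩ := ((Nat.Prime.prime (a1 k).1).dvd_finsetProd_iff _).1 hd
    have e := (Nat.prime_dvd_prime_iff_eq (a1 k).1 (b1 l).1).1 hl
    rw [e, pos_eq h01 (fun k => (a1 k).2) (fun k => (a2 k).2) a3 (fun k => (b1 k).2)
      (fun k => (b2 k).2) b3 k l e]
  obtain ⟨x1, x2⟩ := x
  obtain ⟨y1, y2⟩ := y
  have e1 : x1 = y1 := funext fun k => by simpa only [rr_cast] using key k.castSucc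
  have e2 : x2 = y2 := by simpa only [rr_last] using key (Fin.last 7)
  subst e1 e2
  rfl

/-- many tuples -/
theorem count (hm : 0 < m) (hu : ∀ k, (u k).Coprime m) :
    ∃ c : ℝ, 0 < c ∧ ∃ R₀ : ℕ, ∀ R Y : ℕ, R₀ ≤ R → R ^ 18 ≤ Y - 1 →
      c * Y ≤ (Ss m u R Y).card * Real.log Y := by
  have hφ : (0 : ℝ) < Nat.totient m := by exact_mod_cast Nat.totient_pos.2 hm
  obtain ⟨X₀, hX₀⟩ := Filter.eventually_atTop.1
    (MP_458f0b_nt.Pois.pnt_unif m hm (u (Fin.last 7)) (hu _) (1 / (2 * Nat.totient m))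
      (by positivity))
  choose c₀ hc₀ R₀ hR₀ using fun k : Fin 7 => recip m (u k.castSucc) hm (hu _)
  set φ : ℝ := ((Nat.totient m : ℕ) : ℝ) with hφd
  have hc : 0 < ∏ k, c₀ k := prod_pos fun k _ => hc₀ k
  refine ⟨(∏ k, c₀ k) / (4 * φ), by positivity, ∑ k, R₀ k + X₀ + 1, fun R Y hR hY => ?_⟩
  have hR1 : 1 ≤ R := by omega
  have hR4 : R ≤ R ^ 4 := Nat.le_self_pow (by norm_num) R
  have hone : ∀ q ∈ Qt m u R, (Y : ℝ) / (4 * φ) * ∏ k, 1 / (q k : ℝ) ≤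
      (Ps m (u (Fin.last 7)) ((Y - 1) / ∏ k, q k)).card * Real.log Y := by
    intro q hq
    have hb := big hY hq
    have hq0 := pos_Qt hq
    have e0 : ∏ k, 1 / (q k : ℝ) = 1 / ((∏ k, q k : ℕ) : ℝ) := by
      rw [Nat.cast_prod, prod_div_distrib, prod_const_one]
    rw [e0]
    generalize ∏ k, q k = Q at hb hq0 ⊢
    set X := (Y - 1) / Q with hX
    have hX1 : 1 ≤ X := by omega
    have key := (abs_le.1 (hX₀ X (by omega) X le_rfl)).1
    have hXY : X ≤ Y := (Nat.div_le_self _ _).trans (Nat.sub_le _ _)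
    have hlt : Y - 1 < Q * (X + 1) := Nat.lt_mul_div_succ _ hq0
    have h2 : Y ≤ 2 * (Q * X) := by
      have : Q * (X + 1) ≤ 2 * (Q * X) := by nlinarith
      omega
    have h2' : (Y : ℝ) ≤ 2 * (Q * X) := by exact_mod_cast h2
    have hq' : (0 : ℝ) < Q := by exact_mod_cast hq0
    have hX' : (1 : ℝ) ≤ X := by exact_mod_cast hX1
    have hl : Real.log X ≤ Real.log Y :=
      Real.log_le_log (by linarith) (by exact_mod_cast hXY)
    have h3 : (X : ℝ) / (2 * φ) ≤ Real.log X * (Ps m (u (Fin.last 7)) X).card := by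
      have e : (X : ℝ) / (2 * φ) = X / φ - 1 / (2 * φ) * X := by field_simp; ring
      rw [e, Ps]
      linarith
    have h4 : (Y : ℝ) / (4 * φ) * (1 / (Q : ℝ)) ≤ X / (2 * φ) := by
      rw [div_mul_div_comm, div_le_div_iff₀ (by positivity) (by positivity)]
      nlinarith [mul_le_mul_of_nonneg_right h2' hφ.le]
    have h5 : Real.log X * (Ps m (u (Fin.last 7)) X).card ≤ Real.log Y * (Ps m (u (Fin.last 7)) X).card :=
      mul_le_mul_of_nonneg_right hl (Nat.cast_nonneg _)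
    linarith
  have hs := sum_le_sum hone
  rw [← mul_sum, ← sum_mul, Qt, ← prod_univ_sum (fun k : Fin 7 => Qs m (u k.castSucc) R)
    fun _ a => 1 / (a : ℝ)] at hs
  have hcard : ((Ss m u R Y).card : ℝ) = ∑ q ∈ Qt m u R,
      ((Ps m (u (Fin.last 7)) ((Y - 1) / ∏ k, q k)).card : ℝ) := by
    rw [Ss, card_sigma]
    push_cast
    rfl
  rw [hcard]
  refine le_trans ?_ hs
  have h6 : ∀ k : Fin 7, c₀ k ≤ ∑ q ∈ Qs m (u k.castSucc) R, 1 / (q : ℝ) := fun k =>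
    hR₀ k R (by
      have := single_le_sum (f := R₀) (fun _ _ => Nat.zero_le _) (mem_univ k)
      omega)
  calc (∏ k, c₀ k) / (4 * φ) * Y = Y / (4 * φ) * ∏ k, c₀ k := by ring
    _ ≤ _ := mul_le_mul_of_nonneg_left (prod_le_prod (fun k _ => (hc₀ k).le) fun k _ => h6 k)
      (div_nonneg (Nat.cast_nonneg _) (by linarith))

end BDensAux

open BDensAux in
theorem dens8 (W₀ : ℕ) (hW₀ : 0 < W₀) (u : Fin 8 → ℕ) (hu : ∀ k, (u k).Coprime W₀)
    (h01 : Sep8 W₀ u) (Λ : ℕ) (hΛ : 0 < Λ) :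
    ∃ C : ℝ, 0 < C ∧ ∀ W E : ℕ, 1 ≤ W → 19 ≤ E → ∃ N₀ : ℕ, ∀ N : ℕ, N₀ ≤ N →
      ∀ R : ℕ, R ^ E ≤ N → N ≤ R ^ (E + 1) → ∃ (θ : Fin 8 → Fin 8 → ZMod 2) (b : ℕ), b < W ∧
        b.Coprime W ∧ ∃ A : Finset ℕ, (∀ n ∈ A, Λ * n < N ∧ Eight W₀ u θ R ((W : ℤ) * n + b)) ∧
          (W : ℝ) * N ≤ C * Nat.totient W * A.card * Real.log N := by
  obtain ⟨c, hc, R₀, hR₀⟩ := count hW₀ hu
  obtain ⟨Z, hZ⟩ : ∃ Z : Finset (Fin 8 → Fin 8 → ZMod 2), ∀ θ, θ ∈ Z := ⟨univ, mem_univ⟩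
  obtain ⟨τ, hτ⟩ : ∃ τ, τ = Z.card := ⟨_, rfl⟩
  have hτ0 : 0 < τ := hτ ▸ card_pos.2 ⟨0, hZ 0⟩
  have hτ' : (0 : ℝ) < τ := by exact_mod_cast hτ0
  have hΛ' : (0 : ℝ) < Λ := by exact_mod_cast hΛ
  refine ⟨4 * τ * Λ / c, by positivity, fun W E hW hE => ⟨(R₀ + W + 2 * Λ) ^ (E + 1), ?_⟩⟩
  intro N hN R hRN hNR
  have hR : R₀ + W + 2 * Λ ≤ R :=
    le_of_pow_le_pow_left₀ (Nat.succ_ne_zero E) (Nat.zero_le _) (hN.trans hNR)
  have hR9 : R ^ 19 ≤ N := (Nat.pow_le_pow_right (by omega) hE).trans hRN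
  have hRR : R ≤ R ^ 19 := Nat.le_self_pow (by norm_num) R
  have hR2 : R ≤ R ^ 2 := Nat.le_self_pow (by norm_num) R
  have hR8 : 1 ≤ R ^ 18 := Nat.one_le_pow _ _ (by omega)
  set M := N / Λ with hM
  have hM8 : 2 * R ^ 18 ≤ M := by
    rw [hM, Nat.le_div_iff_mul_le hΛ]
    calc 2 * R ^ 18 * Λ = R ^ 18 * (2 * Λ) := by ring
      _ ≤ R ^ 18 * R := Nat.mul_le_mul_left _ (by omega)
      _ = R ^ 19 := by ring
      _ ≤ N := hR9
  have hMle : Λ * M ≤ N := Nat.mul_div_le N Λ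
  have hMlt : N < Λ * (M + 1) := Nat.lt_mul_div_succ N hΛ
  have hMN' : M ≤ N := Nat.div_le_self N Λ
  have hMY : M ≤ W * M := Nat.le_mul_of_pos_left M hW
  have hY : R ^ 18 ≤ W * M - 1 := by omega
  have hcnt := hR₀ R (W * M) (by omega) hY
  set S := Ss W₀ u R (W * M) with hS
  set T := Z ×ˢ (range W).filter (fun b => Nat.Coprime W b) with hT
  have hTc : T.card = τ * Nat.totient W := by
    rw [hT, card_product, Nat.totient_eq_card_coprime, ← hτ]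
  set f : (Σ _ : Fin 7 → ℕ, ℕ) → (Fin 8 → Fin 8 → ZMod 2) × ℕ := fun x =>
    (fun k l => bit J((rr x l : ℤ) | rr x k), (∏ k, rr x k) % W) with hf
  have hmaps : ∀ x ∈ S, f x ∈ T := by
    intro x hx
    obtain ⟨a1, -, a4, a8⟩ := mem_Ss hY hx
    rw [hT, mem_product, mem_filter, mem_range]
    refine ⟨hZ _, Nat.mod_lt _ hW, ?_⟩
    have hc' : Nat.Coprime (∏ k, rr x k) W := Nat.Coprime.prod_left fun k _ =>
      (Nat.Prime.coprime_iff_not_dvd (a1 k).1).2 fun h => by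
        have h1 := Nat.le_of_dvd hW h
        revert h1
        refine Fin.lastCases ?_ (fun k => ?_) k <;> intro h1
        · omega
        · have := (a4 k).1
          omega
    have : Nat.gcd ((∏ k, rr x k) % W) W = 1 := by
      rw [← Nat.gcd_rec, Nat.gcd_comm]
      exact hc'
    exact Nat.Coprime.symm this
  have hTne : T.Nonempty := by
    rw [← card_pos, hTc]
    exact Nat.mul_pos hτ0 (Nat.totient_pos.2 hW)
  obtain ⟨t, htT, htmax⟩ := exists_max_image T (fun t => (S.filter fun x => f x = t).card) hTne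
  have hSle : S.card ≤ τ * Nat.totient W * (S.filter fun x => f x = t).card := by
    rw [card_eq_sum_card_fiberwise (f := f) (t := T) (fun x hx => hmaps x hx), ← hTc]
    calc _ ≤ ∑ _c ∈ T, (S.filter fun x => f x = t).card := sum_le_sum fun u hu => htmax u hu
      _ = _ := by rw [sum_const, smul_eq_mul]
  have ht := htT
  rw [hT, mem_product, mem_filter, mem_range] at ht
  have hrec : ∀ x ∈ S.filter (fun x => f x = t),
      W * ((∏ k, rr x k) / W) + t.2 = ∏ k, rr x k := by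
    intro x hx
    rw [mem_filter] at hx
    rw [← hx.2]
    exact Nat.div_add_mod _ W
  refine ⟨t.1, t.2, ht.2.1, ht.2.2.symm,
    (S.filter fun x => f x = t).image (fun x => (∏ k, rr x k) / W), ?_, ?_⟩
  · intro n hn
    obtain ⟨x, hx, rfl⟩ := mem_image.1 hn
    have hr := hrec x hx
    obtain ⟨hx1, hx2⟩ := mem_filter.1 hx
    obtain ⟨a1, a0, a4, a8⟩ := mem_Ss hY hx1
    have hlt : (∏ k, rr x k) / W < M := Nat.div_lt_of_lt_mul (by omega)
    refine ⟨(Nat.mul_lt_mul_of_pos_left hlt hΛ).trans_le hMle, rr x, a1, ?_, a4, a8,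
      fun k l hkl => ?_⟩
    · exact_mod_cast hr.symm
    · rw [← hx2]
      exact sgn_bit (jac_pm (a1 l).1 (a1 k).1 fun e => hkl.ne' (pos_eq h01 (fun k => (a1 k).2)
        (fun k => (a4 k).2) a8 (fun k => (a1 k).2) (fun k => (a4 k).2) a8 l k e))
  · have hinj : ((S.filter fun x => f x = t).image (fun x => (∏ k, rr x k) / W)).card =
        (S.filter fun x => f x = t).card := by
      apply card_image_of_injOn
      intro x hx y hy h
      have h' : (∏ k, rr x k) / W = (∏ k, rr y k) / W := h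
      refine inj_Ss h01 hY (mem_filter.1 hx).1 (mem_filter.1 hy).1 ?_
      rw [← hrec x hx, ← hrec y hy, h']
    rw [hinj]
    have hW' : (1 : ℝ) ≤ W := by exact_mod_cast hW
    have hM1 : (1 : ℝ) ≤ M := by exact_mod_cast (by omega : 1 ≤ M)
    have hWN : (W : ℝ) ≤ N := by exact_mod_cast (by omega : W ≤ N)
    have hMN : (M : ℝ) ≤ N := by exact_mod_cast hMN'
    have hNM : (N : ℝ) ≤ 2 * Λ * M := by
      have h1 : (N : ℝ) ≤ Λ * (M + 1) := by exact_mod_cast hMlt.le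
      nlinarith
    have hlN : 0 ≤ Real.log N := Real.log_natCast_nonneg N
    have hl : Real.log ((W * M : ℕ) : ℝ) ≤ 2 * Real.log N := by
      rw [Nat.cast_mul, Real.log_mul (by linarith) (by linarith)]
      have h1 := Real.log_le_log (by linarith) hWN
      have h2 := Real.log_le_log (by linarith) hMN
      linarith
    have a2 : (S.card : ℝ) ≤ τ * Nat.totient W * ((S.filter fun x => f x = t).card : ℝ) := by
      exact_mod_cast hSle
    have h1 : (S.card : ℝ) * Real.log ((W * M : ℕ) : ℝ) ≤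
        τ * Nat.totient W * ((S.filter fun x => f x = t).card : ℝ) * (2 * Real.log N) :=
      mul_le_mul a2 hl (Real.log_natCast_nonneg _) (by positivity)
    have h2 : c * (W * M) ≤
        τ * Nat.totient W * ((S.filter fun x => f x = t).card : ℝ) * (2 * Real.log N) := by
      have := hcnt.trans h1
      rwa [Nat.cast_mul] at this
    have h3 : (W : ℝ) * N ≤ W * (2 * Λ * M) := mul_le_mul_of_nonneg_left hNM (by linarith)
    have h4 : (W : ℝ) * (2 * Λ * M) = 2 * Λ / c * (c * (W * M)) := by field_simp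
    have h5 := mul_le_mul_of_nonneg_left h2 (by positivity : (0 : ℝ) ≤ 2 * Λ / c)
    calc (W : ℝ) * N ≤ _ := h3
      _ = _ := h4
      _ ≤ _ := h5
      _ = _ := by ring

end Pool.Agent.Lib.MP_7d3fda_nt.R5
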