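import Pool.Agent.Lib.MP_7d3fda_nt.R5.BBox
import Pool.Agent.Lib.MP_7d3fda_nt.R5.BShift
import Pool.Agent.Lib.MP_7d3fda_nt.R2.Symb
import Pool.Agent.Lib.MP_7d3fda_nt.R5.BDefs

open Finset
open scoped Classical NumberTheorySymbols

noncomputable section

namespace Pool.Agent.Lib.MP_7d3fda_nt.R5

open Pool.Agent.Lib.MP_4b8564_nt.GT Pool.Agent.Lib.MP_7d3fda_nt.R2

namespace BSymbAux

theorem c_inj {c : Fin 8 → ℕ} (hc : Function.Injective c) :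
    Function.Injective fun j : Fin 8 => (c j : ℤ) := fun _ _ h => hc (Int.natCast_inj.1 h)

theorem c_abs {c : Fin 8 → ℕ} {C : ℕ} (hC : ∀ j, c j ≤ C) (j : Fin 8) : |(c j : ℤ)| ≤ (C : ℕ) := by
  rw [abs_of_nonneg (Int.natCast_nonneg _)]
  exact_mod_cast hC j

theorem c_sub {c : Fin 8 → ℕ} {C : ℕ} (hC : ∀ j, c j ≤ C) (i j : Fin 8) :
    |(c i : ℤ) - c j| ≤ C := by
  have h1 : (c i : ℤ) ≤ C := by exact_mod_cast hC i
  have h2 : (c j : ℤ) ≤ C := by exact_mod_cast hC j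
  have h3 : (0 : ℤ) ≤ c i := Int.natCast_nonneg _
  have h4 : (0 : ℤ) ≤ c j := Int.natCast_nonneg _
  rw [abs_le]; constructor <;> linarith

theorem adm8_le : (Adm8 (Fin 8)).card ≤ 14336 := by
  have h := card_le_univ (Adm (Fin 8))
  rw [Fintype.card_prod, Fintype.card_finset, Fintype.card_fin] at h
  unfold Adm8
  rw [card_product, card_univ, Fintype.card_fin]
  omega

theorem ok {c : Fin 8 → ℕ} (hc : Function.Injective c) {C : ℕ} (hC : ∀ j, c j ≤ C) (W R : ℕ)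
    (hW : 2 ≤ W) (hWR : W ≤ R) (hR : C ≤ R) (P : Finset ℕ)
    (hP : ∀ q ∈ P, q.Prime ∧ R < q ∧ q ≤ R ^ 2) :
    Ok (fun j : Fin 8 => (c j : ℤ)) (W : ℤ) R P := by
  intro q hq
  obtain ⟨h1, h2, h3⟩ := hP q hq
  refine ⟨h1, h2, h3, fun h => ?_, fun i j hij h => ?_⟩
  · have := Nat.le_of_dvd (by omega) (Int.natCast_dvd_natCast.1 h)
    omega
  · have hne : (c i : ℤ) - c j ≠ 0 := fun h0 => hij (c_inj hc (sub_eq_zero.1 h0))
    have h4 := Int.le_of_dvd (abs_pos.2 hne) ((dvd_abs _ _).2 h)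
    have h5 := c_sub hC i j
    have h6 : (C : ℤ) < q := by exact_mod_cast lt_of_le_of_lt hR h2
    linarith

theorem few {c : Fin 8 → ℕ} {C : ℕ} (hC : ∀ j, c j ≤ C) (M E W R N H b : ℕ) (hW : 2 ≤ W)
    (hbW : b < W) (hb : b.Coprime W) (hR : W * (M + C * M + 8 * C + 1) ≤ R) (hN1 : 1 ≤ N)
    (hN : N ≤ R ^ (E + 1)) (hH : H ≤ N) (P : Finset ℕ)
    (hP : ∀ q ∈ P, q.Prime ∧ R < q ∧ q ≤ R ^ 2) (u v : ℤ) (hu : |u| ≤ (M * N : ℕ))
    (hv : |v| ≤ (M * N : ℕ)) :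
    Few (fun j : Fin 8 => (c j : ℤ)) (W : ℤ)
      (fun j => (W : ℤ) * (u + (c j : ℤ) * v) + b) P H ((E : ℝ) + 2) := by
  intro j h hh
  have hR2 : 2 ≤ R := by
    have : W * 1 ≤ W * (M + C * M + 8 * C + 1) := Nat.mul_le_mul_left _ (by omega)
    omega
  set T : ℤ := u + (c j : ℤ) * v + ∑ i, ((c j : ℤ) - c i) * h i with hT
  have hL : Lf (fun j : Fin 8 => (c j : ℤ)) (W : ℤ)
      (fun j => (W : ℤ) * (u + (c j : ℤ) * v) + b) j h = W * T + b := by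
    simp only [Lf, hT]; ring
  rw [hL]
  have hne : (W : ℤ) * T + b ≠ 0 := by
    intro h0
    have hd : (W : ℤ) ∣ (b : ℤ) := ⟨-T, by linarith⟩
    have hd' : W ∣ b := Int.natCast_dvd_natCast.1 hd
    have := Nat.Coprime.eq_one_of_dvd hb.symm hd'
    omega
  have hNz : (1 : ℤ) ≤ N := by exact_mod_cast hN1
  have hHz : (H : ℤ) ≤ N := by exact_mod_cast hH
  have hC0 : (0 : ℤ) ≤ C := Int.natCast_nonneg _
  have hs : |∑ i, ((c j : ℤ) - c i) * h i| ≤ 8 * ((C : ℤ) * N) := by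
    refine (Finset.abs_sum_le_sum_abs _ _).trans ?_
    have : ∀ i ∈ (univ : Finset (Fin 8)), |((c j : ℤ) - c i) * h i| ≤ (C : ℤ) * N := by
      intro i _
      rw [abs_mul]
      refine mul_le_mul (c_sub hC j i) ?_ (abs_nonneg _) hC0
      rw [abs_of_nonneg (hh i).1]
      linarith [(hh i).2]
    refine (Finset.sum_le_card_nsmul _ _ _ this).trans ?_
    simp
  have hu' : |u| ≤ (M : ℤ) * N := by exact_mod_cast hu
  have hv' : |v| ≤ (M : ℤ) * N := by exact_mod_cast hv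
  have hcv : |(c j : ℤ) * v| ≤ (C : ℤ) * ((M : ℤ) * N) := by
    rw [abs_mul]
    exact mul_le_mul (c_abs hC j) hv' (abs_nonneg _) hC0
  have hTb : |T| ≤ ((M : ℤ) + C * M + 8 * C) * N := by
    have h1 := abs_add_le (u + (c j : ℤ) * v) (∑ i, ((c j : ℤ) - c i) * h i)
    have h2 := abs_add_le u ((c j : ℤ) * v)
    rw [hT]; linarith
  have hWz : (0 : ℤ) ≤ W := Int.natCast_nonneg _
  have hbz : (b : ℤ) ≤ W := by exact_mod_cast hbW.le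
  have hRz : (W : ℤ) * ((M : ℤ) + C * M + 8 * C + 1) ≤ R := by exact_mod_cast hR
  have hNR : (N : ℤ) ≤ (R : ℤ) ^ (E + 1) := by exact_mod_cast hN
  have hLb : |(W : ℤ) * T + b| ≤ (R : ℤ) ^ (E + 2) := by
    have h1 := abs_add_le ((W : ℤ) * T) b
    rw [abs_mul, abs_of_nonneg hWz, abs_of_nonneg (Int.natCast_nonneg b)] at h1
    have h2 : (W : ℤ) * |T| ≤ W * (((M : ℤ) + C * M + 8 * C) * N) :=
      mul_le_mul_of_nonneg_left hTb hWz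
    have h3 : (W : ℤ) * 1 ≤ W * N := mul_le_mul_of_nonneg_left hNz hWz
    have h4 : (W : ℤ) * ((M : ℤ) + C * M + 8 * C + 1) * N ≤ R * N :=
      mul_le_mul_of_nonneg_right hRz (by linarith)
    have h5 : (R : ℤ) * N ≤ R * (R : ℤ) ^ (E + 1) :=
      mul_le_mul_of_nonneg_left hNR (Int.natCast_nonneg _)
    have h6 : (R : ℤ) ^ (E + 2) = R * (R : ℤ) ^ (E + 1) := by ring
    rw [h6]; linarith
  have := SymbAux.few_primes _ hne R (E + 2) hR2 hLb P fun q hq => ⟨(hP q hq).1, (hP q hq).2.1⟩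
  exact_mod_cast this

end BSymbAux

theorem symb8 (c : Fin 8 → ℕ) (hc : Pat8 c) (E W : ℕ) (hE : 60000 ≤ E) (hW : 2 ≤ W) (ε : ℝ)
    (hε : 0 < ε) :
    ∃ N₀ : ℕ, ∀ N : ℕ, N₀ ≤ N → ∀ R : ℕ, R ^ E ≤ N → N ≤ R ^ (E + 1) → ∀ b : ℕ, b < W →
      b.Coprime W → ∀ P : Finset ℕ, (∀ q ∈ P, q.Prime ∧ R < q ∧ q ≤ R ^ 2) →
      ∀ (A : Finset ℤ) (qf : ℤ → Fin 7 → ℕ),
        (∀ n ∈ A, 0 ≤ n ∧ n < N ∧ (∀ k, qf n k ∈ P ∧ (qf n k : ℤ) ∣ W * n + b) ∧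
          ∀ k l, qf n k = qf n l → k = l) →
        ∀ (G : Finset ((Fin 7 × Fin 8) × Fin 7 × Fin 8)) (B : Finset (Fin 7 × Fin 8)),
          (∀ e ∈ G, e.1.2 < e.2.2) → G.Nonempty ∨ B.Nonempty →
          |∑ z ∈ PU (fun j => (c j : ℤ)) A N,
            Gam G B (W * z.2) fun v => qf (z.1 + c v.2 * z.2) v.1| ≤
            ε * (N : ℝ) ^ 2 / Real.log N ^ 8 := by
  obtain ⟨C, hC⟩ : ∃ C : ℕ, ∀ j, c j ≤ C :=
    ⟨∑ j, c j, fun j => Finset.single_le_sum (f := c) (fun _ _ => Nat.zero_le _) (mem_univ j)⟩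
  obtain ⟨j₀, hj₀⟩ := hc.zero
  obtain ⟨M, hM⟩ : ∃ M : ℕ, M = 1 + 8 * (C + 1) := ⟨_, rfl⟩
  obtain ⟨Z, hZ⟩ : ∃ Z : ℕ, Z = M + C * M + 8 * C + 1 := ⟨_, rfl⟩
  have hM1 : 1 ≤ M := by omega
  have hM1r : (1 : ℝ) ≤ M := by exact_mod_cast hM1
  obtain ⟨a, ha⟩ : ∃ a, a = (Adm8 (Fin 8)).card := ⟨_, rfl⟩
  obtain ⟨k4, hk4⟩ : ∃ k4, k4 = 4 ^ Fintype.card (Fin 8) := ⟨_, rfl⟩
  obtain ⟨k2, hk2⟩ : ∃ k2, k2 = 2 ^ Fintype.card (Fin 8) := ⟨_, rfl⟩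
  obtain ⟨K, hK⟩ : ∃ K : ℝ, K = (E : ℝ) + 2 := ⟨_, rfl⟩
  have hE0 : (0 : ℝ) ≤ E := Nat.cast_nonneg E
  have hK1 : 1 ≤ K := by rw [hK]; linarith
  have hK0 : 0 < K := by linarith
  obtain ⟨T, hT⟩ : ∃ T : ℝ, T = (K ^ 7) ^ k4 * K ^ a := ⟨_, rfl⟩
  have hT0 : 0 < T := by rw [hT]; positivity
  obtain ⟨α, hα⟩ : ∃ α : ℝ, α = ε / (3 * (M : ℝ)) ^ 2 := ⟨_, rfl⟩
  have hα0 : 0 < α := by rw [hα]; positivity
  obtain ⟨η, hη⟩ : ∃ η : ℝ, η = α ^ k2 / ((E : ℝ) + 1) ^ (8 * k2) / (2 * T) := ⟨_, rfl⟩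
  have hη0 : 0 < η := by rw [hη]; positivity
  obtain ⟨R₁, hR₁⟩ := bilin (8 * k2) η hη0
  obtain ⟨R₂, hR₂⟩ := SymbAux.inv_le_log (8 * k2)
    (4 * (a : ℝ) ^ 2 + 16 * (Fintype.card (Fin 8) : ℝ)) η (by positivity) hη0
  refine ⟨(R₁ + R₂ + W * Z) ^ (E + 1), ?_⟩
  intro N hN R hRN hNR b hbW hb P hP A qf hA G B hG hGB
  have hR0 : R₁ + R₂ + W * Z ≤ R :=
    (Nat.pow_le_pow_iff_left (by omega)).1 (hN.trans hNR)
  have hZ1 : W * 1 ≤ W * Z := Nat.mul_le_mul_left _ (by omega)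
  have hZ2 : 1 * Z ≤ W * Z := Nat.mul_le_mul_right _ (by omega)
  have hR2 : 2 ≤ R := by omega
  have hN2 : 2 ≤ N := by
    have h1 : R ^ 1 ≤ R ^ E := Nat.pow_le_pow_right (by omega) (by omega)
    rw [pow_one] at h1
    omega
  have hN2r : (2 : ℝ) ≤ N := by exact_mod_cast hN2
  have hR2r : (2 : ℝ) ≤ R := by exact_mod_cast hR2
  have hlN : 0 < Real.log N := Real.log_pos (by linarith)
  have hlR : 0 < Real.log R := Real.log_pos (by linarith)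
  rcases P.eq_empty_or_nonempty with hPe | hne
  · have hPU : PU (fun j => (c j : ℤ)) A N = ∅ := by
      refine Finset.eq_empty_of_forall_notMem fun z hz => ?_
      have h1 := SymbAux.mem_PU hz 0
      have h2 := ((hA _ h1).2.2.1 0).1
      rw [hPe] at h2
      exact Finset.notMem_empty _ h2
    rw [hPU, Finset.sum_empty, abs_zero]
    positivity
  have ha14336 : a ≤ 14336 := ha ▸ BSymbAux.adm8_le
  have hHN : R ^ (4 * a + 2) ≤ N :=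
    (Nat.pow_le_pow_right (by omega) (by omega)).trans hRN
  have hH0 : 0 < R ^ (4 * a + 2) := Nat.pow_pos (by omega)
  have hl : Real.log N ≤ ((E : ℝ) + 1) * Real.log R := by
    have h1 : (N : ℝ) ≤ (R : ℝ) ^ (E + 1) := by exact_mod_cast hNR
    have h2 := Real.log_le_log (by linarith) h1
    rw [Real.log_pow] at h2
    exact_mod_cast h2
  have hOk := BSymbAux.ok hc.inj hC W R hW (by omega) (by omega) P hP
  have hF : ∀ u v : ℤ, |u| ≤ (M * N : ℕ) → |v| ≤ (M * N : ℕ) →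
      Few (fun j : Fin 8 => (c j : ℤ)) (W : ℤ)
        (fun j => (W : ℤ) * (u + (c j : ℤ) * v) + b) P (R ^ (4 * a + 2)) K := by
    intro u v hu hv
    rw [hK]
    exact BSymbAux.few hC M E W R N _ b hW hbW hb (by rw [← hZ]; omega) (by omega) hNR hHN P hP
      u v hu hv
  have hG' : ∀ e ∈ G, e.1.2 ≠ e.2.2 ∧ (e.2, e.1) ∉ G := fun e he =>
    ⟨(hG e he).ne, fun h => lt_asymm (hG e he) (hG _ h)⟩
  have hmain := shift8 (fun j : Fin 8 => (c j : ℤ)) (BSymbAux.c_inj hc.inj) j₀ (by simp [hj₀]) C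
    (BSymbAux.c_abs hC) (W : ℤ) (b : ℤ) G B P hne N (R ^ (4 * a + 2)) hH0 hHN A qf hA K
    (α / Real.log N ^ 8) hK1 (by positivity) (M * N)
    (by rw [Fintype.card_fin, hM]) hF (by
      intro u v hu hv
      have h1 := box_le8 ((W : ℤ) * v) hOk hne hR2 (ha ▸ le_rfl) (hF u v hu hv) hK1
        (hR₁ R (by omega) P hP) hG' hGB
      rw [← ha] at h1
      rw [← hk4, ← hk2]
      refine (mul_le_mul_of_nonneg_left h1 (by positivity)).trans ?_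
      rw [← mul_assoc, ← hT]
      refine SymbAux.numer T α ((E : ℝ) + 1) _ _ _ _ 8 k2 hT0 hα0 (by linarith) hlN hlR hl ?_ ?_
      · rw [← hη]
      · rw [← hη]
        exact hR₂ R (by omega))
  refine hmain.trans ?_
  have h1 : (2 * ((M * N : ℕ) : ℝ) + 1) ≤ 3 * (M : ℝ) * N := by
    have h0 : (1 : ℝ) * 1 ≤ (M : ℝ) * N :=
      mul_le_mul hM1r (le_trans one_le_two hN2r) zero_le_one (Nat.cast_nonneg M)
    rw [Nat.cast_mul]
    linarith only [h0]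
  have h2 : (2 * ((M * N : ℕ) : ℝ) + 1) ^ 2 ≤ (3 * (M : ℝ) * (N : ℝ)) ^ 2 :=
    pow_le_pow_left₀ (by positivity) h1 2
  refine (mul_le_mul_of_nonneg_right h2 (by positivity)).trans (le_of_eq ?_)
  rw [hα]; field_simp

end Pool.Agent.Lib.MP_7d3fda_nt.R5
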