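import Pool.Agent.Lib.MP_7d3fda_nt.R5.BMajor
import Pool.Agent.Lib.MP_7d3fda_nt.R5.BSymb
import Pool.Agent.Lib.MP_7d3fda_nt.R3.AMany

open Finset
open scoped Classical NumberTheorySymbols

noncomputable section

namespace Pool.Agent.Lib.MP_7d3fda_nt.R5

open Pool.Agent.Lib.MP_4b8564_nt.GT Pool.Agent.Lib.MP_7d3fda_nt.R2 Pool.Agent.Lib.MP_7d3fda_nt.R3

namespace BManyAux

/-- the ordered pairs -/
theorem ex_G (κ ι : Type) [Fintype κ] [Fintype ι] [LT ι] :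
    ∃ G : Finset ((κ × ι) × κ × ι), ∀ e, e ∈ G ↔ e.1.2 < e.2.2 :=
  ⟨univ.filter fun e => e.1.2 < e.2.2, fun e => by simp⟩

theorem log_small (E : ℕ) (κ : ℝ) (hκ : 0 < κ) :
    ∃ R₀ : ℕ, ∀ R : ℕ, R₀ ≤ R → ((E + 1 : ℝ) * Real.log R) ^ 8 ≤ κ * R := by
  have hpos : 0 < κ / (E + 1 : ℝ) ^ 8 := by positivity
  have h := (Real.isLittleO_pow_log_id_atTop (n := 8)).def hpos
  have h' := tendsto_natCast_atTop_atTop (R := ℝ) |>.eventually h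
  obtain ⟨R₀, hR₀⟩ := Filter.eventually_atTop.1 h'
  refine ⟨R₀, fun R hR => ?_⟩
  have h1 := hR₀ R hR
  simp only [Real.norm_eq_abs, id] at h1
  rw [Nat.abs_cast] at h1
  have h2 : Real.log R ^ 8 ≤ κ / (E + 1 : ℝ) ^ 8 * R := (le_abs_self _).trans h1
  have h3 : (0 : ℝ) < (E + 1 : ℝ) ^ 8 := by positivity
  calc ((E + 1 : ℝ) * Real.log R) ^ 8 = (E + 1 : ℝ) ^ 8 * Real.log R ^ 8 := mul_pow _ _ _
    _ ≤ (E + 1 : ℝ) ^ 8 * (κ / (E + 1 : ℝ) ^ 8 * R) := mul_le_mul_of_nonneg_left h2 h3.le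
    _ = κ * R := by field_simp

/-- the eight primes of a value -/
theorem eight_facts {W₀ : ℕ} {u : Fin 8 → ℕ} (h01 : Sep8 W₀ u) {R N W b : ℕ} {n : ℤ}
    {r : Fin 8 → ℕ} (hp : ∀ k, (r k).Prime ∧ r k ≡ u k [MOD W₀])
    (hm : ∏ k, (r k : ℤ) = W * n + b) (h0 : ∀ k : Fin 7, R < r k.castSucc ∧ r k.castSucc ≤ R ^ 2)
    (h2 : R ^ 2 < r (Fin.last 7)) (hRN : R ^ 2 ≤ N) (hW : W ≤ R) (hb : b < W) (hn : n < N) :
    (∀ k, R < r k ∧ r k ≤ N ∧ (r k : ℤ) ∣ W * n + b) ∧ ∀ k l, r k = r l → k = l := by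
  have hR : R ≤ R ^ 2 := Nat.le_self_pow two_ne_zero R
  have h2N : r (Fin.last 7) ≤ N := by
    have e1 : (W : ℤ) * n + b ≤ W * N := by
      have a1 : (b : ℤ) < W := by exact_mod_cast hb
      have a2 : (W : ℤ) * (n + 1) ≤ W * N :=
        mul_le_mul_of_nonneg_left (by omega) (Int.natCast_nonneg W)
      linarith
    have e2 : (∏ k : Fin 7, r k.castSucc) * r (Fin.last 7) ≤ W * N := by
      rw [← hm, Fin.prod_univ_castSucc] at e1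
      exact_mod_cast e1
    have e3 : W ≤ ∏ k : Fin 7, r k.castSucc := by
      have a1 : r (0 : Fin 7).castSucc ≤ ∏ k : Fin 7, r k.castSucc :=
        Nat.le_of_dvd (prod_pos fun k _ => (hp _).1.pos)
          (dvd_prod_of_mem (fun k : Fin 7 => r k.castSucc) (mem_univ 0))
      have a2 := (h0 0).1
      omega
    have e4 : W * r (Fin.last 7) ≤ W * N := (Nat.mul_le_mul_right _ e3).trans e2
    exact Nat.le_of_mul_le_mul_left e4 (by omega)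
  refine ⟨fun k => ⟨?_, ?_, hm ▸ dvd_prod_of_mem (fun k => (r k : ℤ)) (mem_univ k)⟩,
    pos_eq h01 (fun k => (hp k).2) (fun k => (h0 k).2) h2 (fun k => (hp k).2)
      (fun k => (h0 k).2) h2⟩
  · exact Fin.lastCases (hR.trans_lt h2) (fun k => (h0 k).1) k
  · exact Fin.lastCases h2N (fun k => (h0 k).2.trans hRN) k

end BManyAux

open AManyAux BManyAux in
theorem many8 (c : Fin 8 → ℕ) (hc : Pat8 c) (W₀ : ℕ) (hW₀ : 0 < W₀) (u : Fin 8 → ℕ)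
    (hu : ∀ k, (u k).Coprime W₀) (h01 : Sep8 W₀ u)
    (qq : (Fin 8 → Fin 8 → ZMod 2) → Fin 7 × Fin 8 → Fin 7 × Fin 8 → ZMod 2)
    (sg : Fin 7 × Fin 8 → ZMod 2) :
    ∃ κ : ℝ, 0 < κ ∧ ∃ W : ℕ, 1 ≤ W ∧ ∃ N₀ : ℕ, ∀ N : ℕ, N.Prime → N₀ ≤ N →
      ∃ T : Finset (ℤ × ℤ),
        (∀ z ∈ T, Good8 c W₀ u qq sg z.1 z.2 ∧ ∀ j, z.1 + c j * z.2 ≤ (W : ℤ) * N) ∧
        κ * (N : ℝ) ^ 2 / Real.log N ^ 8 ≤ T.card := by
  obtain ⟨E, hE, κ, hκ, W, hW, N₀, hmaj⟩ := major8 c hc W₀ hW₀ u hu h01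
  obtain ⟨G8, mem_G8⟩ := ex_G (Fin 7) (Fin 8)
  obtain ⟨K, hKe⟩ : ∃ K : ℝ, K = AManyAux.K G8 := ⟨_, rfl⟩
  have hK : 0 < K := hKe ▸ K_pos G8
  obtain ⟨C, hC⟩ : ∃ C : ℕ, ∀ j, c j ≤ C :=
    ⟨∑ j, c j, fun j => Finset.single_le_sum (fun i _ => Nat.zero_le (c i)) (Finset.mem_univ j)⟩
  obtain ⟨N₁, hsymb⟩ := symb8 c hc E W hE hW (κ / (4 * K)) (by positivity)
  obtain ⟨R₀, hR₀⟩ := BManyAux.log_small E (κ / (64 * K)) (by positivity)
  refine ⟨κ / (2 * K), by positivity, W, by omega,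
    max (max N₀ N₁) ((max R₀ (max W C)) ^ (E + 1)), fun N hNp hN => ?_⟩
  obtain ⟨R, θ, b, A, hRN, hNR, hbW, hcop, hA, hcard⟩ :=
    hmaj N hNp ((le_max_left _ _).trans ((le_max_left _ _).trans hN))
  have hRbig : max R₀ (max W C) ≤ R :=
    (Nat.pow_le_pow_iff_left (Nat.succ_ne_zero E)).1 (((le_max_right _ _).trans hN).trans hNR)
  have hR0 : R₀ ≤ R := (le_max_left _ _).trans hRbig
  have hRW : W ≤ R := (le_max_left _ _).trans ((le_max_right _ _).trans hRbig)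
  have hR1 : C ≤ R := (le_max_right _ _).trans ((le_max_right _ _).trans hRbig)
  have hR2 : R ^ 2 ≤ N := (Nat.pow_le_pow_right (by omega) (by omega)).trans hRN
  obtain ⟨P, hPm⟩ : ∃ P : Finset ℕ, ∀ q, q ∈ P ↔ q.Prime ∧ R < q ∧ q ≤ R ^ 2 :=
    ⟨(Ioc R (R ^ 2)).filter Nat.Prime, fun q => by
      simp only [Finset.mem_filter, Finset.mem_Ioc]
      tauto⟩
  obtain ⟨P', hPm'⟩ : ∃ P' : Finset ℕ, ∀ q, q ∈ P' ↔ q.Prime ∧ R < q ∧ q ≤ N :=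
    ⟨(Ioc R N).filter Nat.Prime, fun q => by
      simp only [Finset.mem_filter, Finset.mem_Ioc]
      tauto⟩
  have hsmall : ∀ q : ℕ, R < q → ∀ a : ℤ, a ≠ 0 → |a| ≤ R → ¬(q : ℤ) ∣ a := by
    intro q hq a ha hle hd
    have h1 := Int.le_of_dvd (abs_pos.2 ha) ((dvd_abs _ _).2 hd)
    have h2 : (R : ℤ) < q := by exact_mod_cast hq
    omega
  have hPW : ∀ q : ℕ, R < q → ¬(q : ℤ) ∣ (W : ℤ) := fun q hq =>
    hsmall q hq W (by omega) (by rw [abs_of_nonneg (by omega)]; exact_mod_cast hRW)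
  have hex : ∀ n : ℤ, ∃ r : Fin 8 → ℕ, n ∈ A → (∀ k, (r k).Prime ∧ r k ≡ u k [MOD W₀]) ∧
      ∏ k, (r k : ℤ) = (W : ℤ) * n + b ∧
      (∀ k : Fin 7, R < r k.castSucc ∧ r k.castSucc ≤ R ^ 2) ∧ R ^ 2 < r (Fin.last 7) ∧
      ∀ k l, k < l → J((r l : ℤ) | r k) = sgn (θ k l) := by
    intro n
    by_cases hn : n ∈ A
    · obtain ⟨r, h⟩ := (hA n hn).2.2
      exact ⟨r, fun _ => h⟩
    · exact ⟨0, fun h => absurd h hn⟩
  choose rf hrf using hex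
  have hfacts : ∀ n ∈ A, (∀ k, R < rf n k ∧ rf n k ≤ N ∧ (rf n k : ℤ) ∣ W * n + b) ∧
      ∀ k l, rf n k = rf n l → k = l := fun n hn => by
    obtain ⟨h1, h2, h3, h4, -⟩ := hrf n hn
    exact eight_facts h01 h1 h2 h3 h4 hR2 hRW hbW (hA n hn).2.1
  have hprime : ∀ n ∈ A, ∀ k, (rf n k).Prime := fun n hn k => ((hrf n hn).1 k).1
  have hqP : ∀ n ∈ A, ∀ k : Fin 7, rf n k.castSucc ∈ P := fun n hn k => by
    obtain ⟨h1, -, h3, -⟩ := hrf n hn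
    exact (hPm _).2 ⟨(h1 _).1, h3 k⟩
  obtain ⟨U, hU⟩ : ∃ U, U = PU (fun j => (c j : ℤ)) A N := ⟨_, rfl⟩
  have hUm : ∀ z ∈ U, z ∈ Icc (-(N : ℤ)) N ×ˢ Icc (-(N : ℤ)) N ∧ ∀ j, z.1 + c j * z.2 ∈ A :=
    fun z hz => (@Finset.mem_filter _ _ (_) _ _).1 (hU ▸ hz : z ∈ PU (fun j => (c j : ℤ)) A N)
  have hN2 : (2 : ℝ) ≤ N := by exact_mod_cast hNp.two_le
  have hlog : 0 < Real.log N := Real.log_pos (by linarith)
  obtain ⟨M, hM⟩ : ∃ M : ℝ, M = (N : ℝ) ^ 2 / Real.log N ^ 8 := ⟨_, rfl⟩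
  have hMpos : 0 < M := by rw [hM]; positivity
  obtain ⟨wG, hwG⟩ : ∃ wG : (Fin 7 × Fin 8) × Fin 7 × Fin 8 → ℤ,
      ∀ e, wG e = sgn (qq θ e.1 e.2) := ⟨_, fun _ => rfl⟩
  obtain ⟨wB, hwB⟩ : ∃ wB : Fin 7 × Fin 8 → ℤ, ∀ v, wB v = sgn (sg v) := ⟨_, fun _ => rfl⟩
  have hG1 : ∀ e, wG e = 1 ∨ wG e = -1 := fun e => hwG e ▸ sgn_cases _
  have hB1 : ∀ v, wB v = 1 ∨ wB v = -1 := fun v => hwB v ▸ sgn_cases _
  obtain ⟨y, hy⟩ : ∃ y : ℤ × ℤ → Fin 7 × Fin 8 → ℕ,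
      y = fun z v => rf (z.1 + c v.2 * z.2) v.1.castSucc := ⟨_, rfl⟩
  have hlow := sum_lower G8 hG1 hB1 U (fun z => W * z.2) y (κ / (4 * K) * M)
    (by positivity) fun G B hG hne => by
      have := hsymb N ((le_max_right _ _).trans ((le_max_left _ _).trans hN)) R hRN hNR b hbW
        hcop P (fun q hq => (hPm q).1 hq) A (fun n k => rf n k.castSucc)
        (fun n hn => ⟨(hA n hn).1, (hA n hn).2.1,
          fun k => ⟨hqP n hn k, ((hfacts n hn).1 _).2.2⟩,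
          fun k l h => Fin.castSucc_injective _ ((hfacts n hn).2 _ _ h)⟩) G B
        (fun e he => (mem_G8 e).1 (hG he)) hne
      rw [mul_div_assoc, ← hM, ← hU] at this
      rw [hy]
      exact this
  rw [← hKe] at hlow
  obtain ⟨Bd, hBd⟩ : ∃ Bd, Bd = (Icc (-(N : ℤ)) N ×ˢ Icc (-(N : ℤ)) N).filter fun z : ℤ × ℤ =>
    ∃ q ∈ P', (q : ℤ) ∣ z.2 ∧ (q : ℤ) ∣ (W : ℤ) * z.1 + b := ⟨_, rfl⟩
  obtain ⟨Gd, hGd⟩ : ∃ Gd : Finset (ℤ × ℤ),
      ∀ z, z ∈ Gd ↔ z ∈ U ∧ Sy G8 wG wB (W * z.2) (y z) ∧ z ∉ Bd :=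
    ⟨U.filter fun z => Sy G8 wG wB (W * z.2) (y z) ∧ z ∉ Bd, fun z => Finset.mem_filter⟩
  have hbad : (Bd.card : ℝ) ≤ 16 * (N : ℝ) ^ 2 / R := by
    rw [hBd]
    exact badpat3 W b R N (by omega) P' fun q hq =>
      ⟨((hPm' q).1 hq).1, ((hPm' q).1 hq).2.1, ((hPm' q).1 hq).2.2, hPW q ((hPm' q).1 hq).2.1⟩
  have hnd : ∀ z ∈ U, z ∉ Bd → ∀ j k, ¬(rf (z.1 + c j * z.2) k : ℤ) ∣ z.2 := by
    intro z hz hn j k hd
    obtain ⟨hz1, hz2⟩ := hUm z hz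
    obtain ⟨a1, a2, a3⟩ := (hfacts _ (hz2 j)).1 k
    refine hn (hBd ▸ Finset.mem_filter.2
      ⟨hz1, _, (hPm' _).2 ⟨hprime _ (hz2 j) k, a1, a2⟩, hd, ?_⟩)
    have h2 : (W : ℤ) * z.1 + b = (W * (z.1 + c j * z.2) + b) - W * c j * z.2 := by ring
    rw [h2]
    exact dvd_sub a3 (Dvd.dvd.mul_left hd _)
  have hndW : ∀ z ∈ U, z ∉ Bd → ∀ j k, ¬(rf (z.1 + c j * z.2) k : ℤ) ∣ W * z.2 := by
    intro z hz hn j k hd
    have hz2 := (hUm z hz).2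
    rcases (Nat.prime_iff_prime_int.1 (hprime _ (hz2 j) k)).dvd_or_dvd hd with h | h
    · exact hPW _ ((hfacts _ (hz2 j)).1 k).1 h
    · exact hnd z hz hn j k h
  have hinj : ∀ z ∈ U, z ∉ Bd → ∀ i k j l,
      rf (z.1 + c i * z.2) k = rf (z.1 + c j * z.2) l → i = j ∧ k = l := by
    intro z hz hn i k j l h
    have hz2 := (hUm z hz).2
    have hij : i = j := by
      by_contra hij
      have a1 := ((hfacts _ (hz2 i)).1 k).2.2
      obtain ⟨a2, -, a3⟩ := (hfacts _ (hz2 j)).1 l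
      rw [h] at a1
      have hd2 := dvd_sub a1 a3
      have h2 : (W : ℤ) * (z.1 + c i * z.2) + b - (W * (z.1 + c j * z.2) + b) =
          ((c i : ℤ) - c j) * (W * z.2) := by ring
      rw [h2] at hd2
      rcases (Nat.prime_iff_prime_int.1 (hprime _ (hz2 j) l)).dvd_or_dvd hd2 with h3 | h3
      · have h4 : c i ≠ c j := fun h4 => hij (hc.inj h4)
        have h5 := hC i
        have h6 := hC j
        exact hsmall _ a2 _ (by omega) (abs_le.2 ⟨by omega, by omega⟩) h3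
      · exact hndW z hz hn j l h3
    subst hij
    exact ⟨rfl, (hfacts _ (hz2 i)).2 k l h⟩
  have hzero : ∀ z ∈ U, z ∉ Gd ∪ Bd → F G8 wG wB (W * z.2) (y z) = 0 := by
    intro z hz hn
    rw [Finset.mem_union, not_or] at hn
    have hz2 := (hUm z hz).2
    refine F_zero G8 hG1 hB1 _ _ (fun e he h0 => ?_) (fun v h0 => ?_)
      fun h => hn.1 ((hGd z).2 ⟨hz, h, hn.2⟩)
    · rw [hy] at h0
      have hd := ManyAux.dvd_of_jac (hprime _ (hz2 e.2.2) _) h0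
      have he' := (Nat.prime_dvd_prime_iff_eq (hprime _ (hz2 e.2.2) _)
        (hprime _ (hz2 e.1.2) _)).1 (Int.natCast_dvd_natCast.1 hd)
      exact ((mem_G8 e).1 he).ne' (hinj z hz hn.2 _ _ _ _ he').1
    · rw [hy] at h0
      exact hndW z hz hn.2 _ _ (ManyAux.dvd_of_jac (hprime _ (hz2 v.2) _) h0)
  have hup : ∑ z ∈ U, F G8 wG wB (W * z.2) (y z) ≤ K * ((Gd.card : ℝ) + Bd.card) := by
    rw [← Finset.sum_filter_of_ne (p := fun z => z ∈ Gd ∪ Bd)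
      fun z hz h => by_contra fun hn => h (hzero z hz hn)]
    have h1 : ((U.filter fun z => z ∈ Gd ∪ Bd).card : ℝ) ≤ (Gd.card : ℝ) + Bd.card := by
      have h2 : (U.filter fun z => z ∈ Gd ∪ Bd).card ≤ Gd.card + Bd.card :=
        (Finset.card_le_card fun z hz => (Finset.mem_filter.1 hz).2).trans
          (Finset.card_union_le _ _)
      exact_mod_cast h2
    calc _ ≤ ∑ _z ∈ U.filter fun z => z ∈ Gd ∪ Bd, K :=
          Finset.sum_le_sum fun z _ => hKe ▸ F_le G8 hG1 hB1 _ _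
      _ = K * ((U.filter fun z => z ∈ Gd ∪ Bd).card : ℝ) := by
          rw [Finset.sum_const, nsmul_eq_mul, mul_comm]
      _ ≤ _ := mul_le_mul_of_nonneg_left h1 hK.le
  have hRpos : (0 : ℝ) < R := by exact_mod_cast (by omega : 0 < R)
  have hlogN : Real.log N ^ 8 ≤ κ / (64 * K) * R := by
    refine le_trans (pow_le_pow_left₀ hlog.le ?_ 8) (hR₀ R hR0)
    have h1 : (N : ℝ) ≤ (R : ℝ) ^ (E + 1) := by exact_mod_cast hNR
    have h2 := Real.log_le_log (by linarith) h1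
    rw [Real.log_pow] at h2
    exact_mod_cast h2
  have hbad2 : K * (Bd.card : ℝ) ≤ κ / 4 * M := by
    have h1 : 16 * (N : ℝ) ^ 2 / R ≤ κ / (4 * K) * M := by
      rw [hM, ← mul_div_assoc, div_le_div_iff₀ hRpos (by positivity)]
      calc 16 * (N : ℝ) ^ 2 * Real.log N ^ 8 ≤ 16 * (N : ℝ) ^ 2 * (κ / (64 * K) * R) :=
            mul_le_mul_of_nonneg_left hlogN (by positivity)
        _ = κ / (4 * K) * (N : ℝ) ^ 2 * R := by field_simp; norm_num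
    calc K * (Bd.card : ℝ) ≤ K * (κ / (4 * K) * M) :=
          mul_le_mul_of_nonneg_left (hbad.trans h1) hK.le
      _ = κ / 4 * M := by field_simp
  have hgood : κ / (2 * K) * M ≤ Gd.card := by
    have h1 : K * (κ / (4 * K) * M) = κ / 4 * M := by field_simp
    have h2 : κ * M ≤ U.card := by rw [hM, ← mul_div_assoc, hU]; exact hcard
    have h3 : κ / 2 * M ≤ K * Gd.card := by
      rw [h1] at hlow
      rw [mul_add] at hup
      linarith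
    have h4 : κ / (2 * K) * M = κ / 2 * M / K := by field_simp
    rw [h4, div_le_iff₀ hK]
    linarith
  have hW0 : (W : ℤ) ≠ 0 := by omega
  refine ⟨Gd.image fun z => ((W : ℤ) * z.1 + b, (W : ℤ) * z.2), fun t ht => ?_, ?_⟩
  · obtain ⟨z, hz, rfl⟩ := Finset.mem_image.1 ht
    obtain ⟨hz1, ⟨hs1, hs2⟩, hnb⟩ := (hGd z).1 hz
    have hz2 := (hUm z hz1).2
    have he : ∀ j, (W : ℤ) * z.1 + b + c j * (W * z.2) = W * (z.1 + c j * z.2) + b :=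
      fun j => by ring
    rw [hy] at hs1 hs2
    refine ⟨⟨θ, fun j => rf (z.1 + c j * z.2), fun j k => ?_, hinj z hz1 hnb, fun j => ?_,
      fun j => (hrf _ (hz2 j)).2.2.2.2, fun v w hvw => ?_, fun v => ?_⟩, fun j => ?_⟩
    · exact ⟨hprime _ (hz2 j) k, ((hrf _ (hz2 j)).1 k).2, hndW z hz1 hnb j k⟩
    · exact (hrf _ (hz2 j)).2.1.trans (he j).symm
    · exact (hs1 (v, w) ((mem_G8 _).2 hvw)).trans (hwG _)
    · exact (hs2 v).trans (hwB _)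
    · show (W : ℤ) * z.1 + b + c j * (W * z.2) ≤ W * N
      rw [he j]
      have h1 := (hA _ (hz2 j)).2.1
      have h2 : (b : ℤ) < W := by exact_mod_cast hbW
      have h3 : (W : ℤ) * (z.1 + c j * z.2 + 1) ≤ W * N :=
        mul_le_mul_of_nonneg_left (by omega) (by omega)
      linarith
  · rw [Finset.card_image_of_injective, mul_div_assoc, ← hM]
    · exact hgood
    · intro z z' h
      obtain ⟨h1, h2⟩ := Prod.mk.inj h
      exact Prod.ext (mul_left_cancel₀ hW0 (add_right_cancel h1)) (mul_left_cancel₀ hW0 h2)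

end Pool.Agent.Lib.MP_7d3fda_nt.R5
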