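import Pool.Agent.Lib.MP_7d3fda_nt.R5.ZDefs
import Pool.Agent.Lib.MP_7d3fda_nt.R3.XBase

open Finset Module
open scoped NumberTheorySymbols

noncomputable section

namespace Pool.Agent.Lib.MP_7d3fda_nt.R5

open Pool.Agent.Lib.MP_788af2_nt Pool.Agent.Lib.MP_7d3fda_nt.R2 Pool.Agent.Lib.MP_7d3fda_nt.R3

namespace ZBaseAux

theorem inj_primes {ι : Type} [DecidableEq ι] (P : ι → ℕ → Prop) (h : ∀ i K, ∃ q, K < q ∧ P i q)
    (K : ℕ) (s : Finset ι) :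
    ∃ w : ι → ℕ, (∀ i ∈ s, ∀ j ∈ s, w i = w j → i = j) ∧ ∀ i ∈ s, K < w i ∧ P i (w i) := by
  induction s using Finset.induction_on with
  | empty => exact ⟨fun _ => 0, by simp, by simp⟩
  | insert a s ha ih =>
    obtain ⟨w, h1, h2⟩ := ih
    obtain ⟨q, q1, q2⟩ := h a (K + s.sup w)
    have hne : ∀ i ∈ s, i ≠ a := fun i hi e => ha (e ▸ hi)
    have hlt : ∀ i ∈ s, w i < q := fun i hi => by
      have := Finset.le_sup (f := w) hi
      omega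
    refine ⟨Function.update w a q, fun i hi j hj e => ?_, fun i hi => ?_⟩
    · rcases mem_insert.1 hi with hi | hi <;> rcases mem_insert.1 hj with hj | hj
      · rw [hi, hj]
      · rw [hi, Function.update_self, Function.update_of_ne (hne j hj)] at e
        exact absurd e (hlt j hj).ne'
      · rw [hj, Function.update_self, Function.update_of_ne (hne i hi)] at e
        exact absurd e (hlt i hi).ne
      · rw [Function.update_of_ne (hne i hi), Function.update_of_ne (hne j hj)] at e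
        exact h1 i hi j hj e
    · rcases mem_insert.1 hi with rfl | hi
      · rw [Function.update_self]
        exact ⟨by omega, q2⟩
      · rw [Function.update_of_ne (hne i hi)]
        exact h2 i hi

theorem crtP (S : Finset ℕ) (hS : ∀ p ∈ S, p.Prime) (C : ℕ → ℤ → Prop)
    (h : ∀ p ∈ S, ∃ (k : ℕ) (x : ℤ), ∀ V : ℤ, (p : ℤ) ^ k ∣ V - x → C p V) (K : ℤ) :
    ∃ V, K < V ∧ ∀ p ∈ S, C p V := by
  choose k x hx using h
  obtain ⟨V, h1, h2⟩ := XBaseAux.crtZ (ι := S) (fun p => ((p : ℕ) : ℤ) ^ k p p.2)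
    (fun p => pow_ne_zero _ (by exact_mod_cast (hS p p.2).ne_zero))
    (fun p q hpq => (Nat.isCoprime_iff_coprime.2 ((Nat.coprime_primes (hS p p.2) (hS q q.2)).2
      fun e => hpq (Subtype.ext e))).pow) (fun p => x p p.2) K
  exact ⟨V, h1, fun p hp => hx p hp V (h2 ⟨p, hp⟩)⟩

theorem solve {p b : ℤ} (hp : Prime p) (hb : ¬p ∣ b) (k : ℕ) (t : ℤ) :
    ∃ x, ∀ V, p ^ k ∣ V - x → p ^ k ∣ b * V - t := by
  obtain ⟨u, v, huv⟩ : IsCoprime (p ^ k) b := (hp.coprime_iff_not_dvd.2 hb).pow_left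
  refine ⟨v * t, fun V hV => ?_⟩
  have e : b * V - t = b * (V - v * t) + p ^ k * (-(u * t)) := by linear_combination t * huv
  rw [e]
  exact dvd_add (hV.mul_left _) (dvd_mul_right _ _)

theorem unit_of {p V : ℤ} (hp : Prime p) (h : p ^ 1 ∣ V - 1) : ¬p ∣ V := fun h2 => by
  rw [pow_one] at h
  have h3 := dvd_sub h2 h
  rw [sub_sub_cancel] at h3
  exact hp.not_dvd_one h3

theorem dv {p x y : ℤ} (h : p ∣ x) (e : x = y) : p ∣ y := e ▸ h

theorem unit_v {p c u v : ℤ} (h : p ∣ c * v - u) (hu : ¬p ∣ u) : ¬p ∣ v := fun h' =>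
  hu (dv (dvd_sub (h'.mul_left c) h) (by ring))

theorem be_dvd (r s : ℤ) {j : Fin 8} (hj : j ≠ 2) : be8 r s j ∣ H8 r s := by
  fin_cases j
  · simp [be8]
  · simp [be8]
  · exact absurd rfl hj
  · exact ⟨r * s * (r + s) * (r - s) * (r ^ 2 + s ^ 2), by simp [be8, H8]; ring⟩
  · exact ⟨r * (r + s) * (r - s) * (r ^ 2 + s ^ 2), by simp [be8, H8]; ring⟩
  · exact ⟨s * (r + s) * (r - s) * (r ^ 2 + s ^ 2), by simp [be8, H8]; ring⟩
  · exact ⟨-(2 * r * s * (r + s) * (r ^ 2 + s ^ 2)), by simp [be8, H8]; ring⟩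
  · exact ⟨2 * r * s * (r - s) * (r ^ 2 + s ^ 2), by simp [be8, H8]; ring⟩

theorem be_dvd' (r s : ℤ) {j : Fin 8} (hj : j ≠ 2) :
    be8 r s j ∣ 2 * (r * s * (r + s) * (r - s)) := by
  fin_cases j
  · simp [be8]
  · simp [be8]
  · exact absurd rfl hj
  · exact ⟨r * s * (r + s) * (r - s), by simp [be8]⟩
  · exact ⟨r * (r + s) * (r - s), by simp [be8]; ring⟩
  · exact ⟨s * (r + s) * (r - s), by simp [be8]; ring⟩
  · exact ⟨-(2 * r * s * (r + s)), by simp [be8]; ring⟩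
  · exact ⟨2 * r * s * (r - s), by simp [be8]; ring⟩

theorem al_le {r s : ℤ} (h1 : 0 < s) (h2 : s < r) (j : Fin 8) : |al8 r s j| ≤ r + s + 1 := by
  rw [abs_le]
  fin_cases j <;> simp [al8] <;> omega

/-- the signs -/
theorem signs {r s u v : ℤ} (h1 : 0 < s) (h2 : s < r) (hu : u < 0) (hv : (r + s + 1) * |u| < v)
    (j : Fin 8) : fm8 r s u v j ≠ 0 ∧ qS (fm8 r s u v j) = ![0, 0, 1, 0, 0, 0, 1, 0] j := by
  have k : ∀ j : Fin 8, be8 r s j ≠ 0 →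
      fm8 r s u v j ≠ 0 ∧ qS (fm8 r s u v j) = qS (be8 r s j) := fun j hj => by
    rw [fm8_eq]
    exact XBaseAux.sgn _ _ _ _ hj
      ((mul_le_mul_of_nonneg_right (al_le h1 h2 j) (abs_nonneg u)).trans_lt hv)
  have pos : ∀ j : Fin 8, 0 < be8 r s j → fm8 r s u v j ≠ 0 ∧ qS (fm8 r s u v j) = 0 :=
    fun j hj => ⟨(k j hj.ne').1, by rw [(k j hj.ne').2, qS, if_neg hj.le.not_gt]⟩
  fin_cases j
  · exact pos 0 (by simp [be8])
  · exact pos 1 (by simp [be8])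
  · exact ⟨hu.ne, if_pos hu⟩
  · exact pos 3 (by simp [be8])
  · exact pos 4 (by simp [be8]; omega)
  · exact pos 5 (by simp [be8]; omega)
  · have h : be8 r s 6 < 0 := by simp [be8]; omega
    exact ⟨(k 6 h.ne).1, (k 6 h.ne).2.trans (if_pos h)⟩
  · exact pos 7 (by simp [be8]; omega)

/-- the multipliers at two -/
def c2 (r s : ℤ) : Fin 8 → ℤ :=
  ![2 * 2 * r * s * (r + s) * (r - s), 1, -1 * (1 - 4 * (r * s * (r + s) * (r - s))),
    1 + 4 * (r * s * (r + s) * (r - s)), -1 * (r - s) * (1 - 4 * (r * s) * (r + s) ^ 2),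
    (r + s) * (1 + 4 * (r * s) * (r - s) ^ 2), -1 * r * (1 - 4 * s ^ 2 * ((r + s) * (r - s))),
    s * (1 + 4 * r ^ 2 * ((r + s) * (r - s)))]

theorem c2_eq (r s u v : ℤ) (j : Fin 8) :
    (4 * (r * s * (r + s) * (r - s)) - 1) * v - u ∣ fm8 r s u v j - c2 r s j * v := by
  refine ⟨-(![1, 0, 1, 1, r + s, r - s, s, r] j), ?_⟩
  fin_cases j <;> simp [fm8, c2] <;> ring

theorem at_two {r s : ℤ} (h1 : 0 < s) (h2 : s < r) (par : (r + s) % 2 = 1) {F : ℤ → ZMod 2}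
    (hF : IsQF F)
    (hn : ∀ x y : ℤ, y ≠ 0 → (2 : ℤ) ^ (padicValInt 2 y + 3) ∣ x - y → F x = F y) {u v : ℤ}
    (hv : ¬(2 : ℤ) ∣ v) (h : (2 : ℤ) ^ (∑ j, (padicValInt 2 (c2 r s j) + 3)) ∣
      (4 * (r * s * (r + s) * (r - s)) - 1) * v - u) :
    ∑ j, F (fm8 r s u v j) = F (-1) + F 5 ∧
      ka1 (fun t => F (cz8 r s t)) (fun j => F (fm8 r s u v j)) = F (-1) ∧
      ka2 (fun t => F (cz8 r s t)) (fun j => F (fm8 r s u v j)) = 0 := by
  have r0 : r ≠ 0 := by omega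
  have s0 : s ≠ 0 := by omega
  have a0 : r + s ≠ 0 := by omega
  have b0 : r - s ≠ 0 := by omega
  have v0 : v ≠ 0 := by omega
  have m0 : (-1 : ℤ) ≠ 0 := by norm_num
  have f1 : ∀ n : ℤ, 8 ∣ n - 1 → F n = 0 := fun n hn' => by
    rw [hn n 1 one_ne_zero (by simpa using hn'), hF.one]
  have f5 : ∀ n : ℤ, 8 ∣ n - 5 → F n = F 5 := fun n hn' =>
    hn n 5 (by norm_num) (by rw [XBaseAux.val_odd (by norm_num)]; simpa using hn')
  obtain ⟨t, ht⟩ : 2 ∣ r * s := by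
    rcases Int.emod_two_eq_zero_or_one r with h | h
    · exact Dvd.dvd.mul_right (by omega) _
    · exact Dvd.dvd.mul_left (by omega) _
  obtain ⟨z, hz⟩ : ∃ z, (r + s) * (r - s) = 2 * z + 1 := by
    obtain ⟨a, ha⟩ : ∃ a, r + s = 2 * a + 1 := ⟨(r + s) / 2, by omega⟩
    obtain ⟨b, hb⟩ : ∃ b, r - s = 2 * b + 1 := ⟨(r - s) / 2, by omega⟩
    exact ⟨2 * a * b + a + b, by rw [ha, hb]; ring⟩
  have d2 : (8 : ℤ) ∣ 1 - 4 * (r * s * (r + s) * (r - s)) - 1 :=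
    ⟨-(t * (r + s) * (r - s)), by rw [ht]; ring⟩
  have d3 : (8 : ℤ) ∣ 1 + 4 * (r * s * (r + s) * (r - s)) - 1 :=
    ⟨t * (r + s) * (r - s), by rw [ht]; ring⟩
  have d4 : (8 : ℤ) ∣ 1 - 4 * (r * s) * (r + s) ^ 2 - 1 := ⟨-(t * (r + s) ^ 2), by rw [ht]; ring⟩
  have d5 : (8 : ℤ) ∣ 1 + 4 * (r * s) * (r - s) ^ 2 - 1 := ⟨t * (r - s) ^ 2, by rw [ht]; ring⟩
  have n6 : 1 - 4 * s ^ 2 * ((r + s) * (r - s)) ≠ 0 := by
    have e : 4 * s ^ 2 * ((r + s) * (r - s)) = 4 * (s ^ 2 * ((r + s) * (r - s))) := by ring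
    omega
  have n7 : 1 + 4 * r ^ 2 * ((r + s) * (r - s)) ≠ 0 := by
    have e : 4 * r ^ 2 * ((r + s) * (r - s)) = 4 * (r ^ 2 * ((r + s) * (r - s))) := by ring
    omega
  have e67 : F (1 - 4 * s ^ 2 * ((r + s) * (r - s))) + F (1 + 4 * r ^ 2 * ((r + s) * (r - s)))
      = F 5 := by
    rw [hz]
    rcases Int.emod_two_eq_zero_or_one r with h | h
    · obtain ⟨a, rfl⟩ : ∃ a, r = 2 * a := ⟨r / 2, by omega⟩
      obtain ⟨b, rfl⟩ : ∃ b, s = 2 * b + 1 := ⟨s / 2, by omega⟩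
      rw [f5 _ ⟨-(2 * (b ^ 2 + b) * (2 * z + 1) + z + 1), by ring⟩,
        f1 (1 + 4 * (2 * a) ^ 2 * (2 * z + 1)) ⟨2 * a ^ 2 * (2 * z + 1), by ring⟩, add_zero]
    · obtain ⟨a, rfl⟩ : ∃ a, r = 2 * a + 1 := ⟨r / 2, by omega⟩
      obtain ⟨b, rfl⟩ : ∃ b, s = 2 * b := ⟨s / 2, by omega⟩
      rw [f1 _ ⟨-(2 * b ^ 2 * (2 * z + 1)), by ring⟩,
        f5 _ ⟨2 * (a ^ 2 + a) * (2 * z + 1) + z, by ring⟩, zero_add]
  have n2 : 1 - 4 * (r * s * (r + s) * (r - s)) ≠ 0 := by omega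
  have n3 : 1 + 4 * (r * s * (r + s) * (r - s)) ≠ 0 := by omega
  have n4 : 1 - 4 * (r * s) * (r + s) ^ 2 ≠ 0 := by omega
  have n5 : 1 + 4 * (r * s) * (r - s) ^ 2 ≠ 0 := by omega
  have c0 : ∀ j, c2 r s j ≠ 0 := fun j => by
    fin_cases j
    · exact mul_ne_zero (mul_ne_zero (mul_ne_zero (mul_ne_zero (by norm_num) r0) s0) a0) b0
    · exact one_ne_zero
    · exact mul_ne_zero m0 n2
    · exact n3
    · exact mul_ne_zero (mul_ne_zero m0 b0) n4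
    · exact mul_ne_zero a0 n5
    · exact mul_ne_zero (mul_ne_zero m0 r0) n6
    · exact mul_ne_zero s0 n7
  have k : ∀ j, F (fm8 r s u v j) = F (c2 r s j) + F v := fun j => by
    rw [← hF _ _ (c0 j) v0]
    refine hn _ _ (mul_ne_zero (c0 j) v0) (((pow_dvd_pow _ ?_).trans h).trans (c2_eq r s u v j))
    rw [padicValInt.mul (c0 j) v0, XBaseAux.val_odd hv, add_zero]
    exact single_le_sum (f := fun j => padicValInt 2 (c2 r s j) + 3)
      (fun _ _ => Nat.zero_le _) (mem_univ j)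
  have t0 : (2 * 2 : ℤ) ≠ 0 := by norm_num
  have g0 : F (c2 r s 0) = F r + F s + F (r + s) + F (r - s) := by
    show F (2 * 2 * r * s * (r + s) * (r - s)) = _
    rw [hF _ _ (mul_ne_zero (mul_ne_zero (mul_ne_zero t0 r0) s0) a0) b0,
      hF _ _ (mul_ne_zero (mul_ne_zero t0 r0) s0) a0, hF _ _ (mul_ne_zero t0 r0) s0,
      hF _ _ t0 r0, hF.sq two_ne_zero, zero_add]
  have g1 : F (c2 r s 1) = 0 := hF.one
  have g2 : F (c2 r s 2) = F (-1) := (hF _ _ m0 n2).trans (by rw [f1 _ d2, add_zero])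
  have g3 : F (c2 r s 3) = 0 := f1 _ d3
  have g4 : F (c2 r s 4) = F (-1) + F (r - s) :=
    (hF _ _ (mul_ne_zero m0 b0) n4).trans (by rw [f1 _ d4, add_zero, hF _ _ m0 b0])
  have g5 : F (c2 r s 5) = F (r + s) := (hF _ _ a0 n5).trans (by rw [f1 _ d5, add_zero])
  have g6 : F (c2 r s 6) = F (-1) + F r + F (1 - 4 * s ^ 2 * ((r + s) * (r - s))) :=
    (hF _ _ (mul_ne_zero m0 r0) n6).trans (by rw [hF _ _ m0 r0])
  have g7 : F (c2 r s 7) = F s + F (1 + 4 * r ^ 2 * ((r + s) * (r - s))) := hF _ _ s0 n7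
  have z2 : (2 : ZMod 2) = 0 := rfl
  simp only [ka1, ka2, k, Fin.sum_univ_eight, g0, g1, g2, g3, g4, g5, g6, g7, ← e67]
  refine ⟨?_, ?_, ?_⟩
  · linear_combination (F r + F s + F (r + s) + F (r - s) + F (-1) + 4 * F v) * z2
  · show F r + F s + _ + _ + _ + _ = _
    linear_combination (F r + F s + F (r + s) + F (r - s) + 2 * F v) * z2
  · show F (r + s) + F (r - s) + _ + _ + _ + _ = _
    linear_combination (F (r + s) + F (r - s) + F (-1) + 2 * F v) * z2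

theorem nunit {p : ℕ} (hp : p.Prime) {F : ℤ → ZMod 2}
    (hn : ∀ x y : ℤ, y ≠ 0 → (p : ℤ) ^ (padicValInt p y + 1) ∣ x - y → F x = F y) {x y : ℤ}
    (hy : ¬(p : ℤ) ∣ y) (h : (p : ℤ) ∣ x - y) : F x = F y := by
  have : Fact p.Prime := ⟨hp⟩
  refine hn x y (fun e => hy (e ▸ dvd_zero _)) ?_
  rw [padicValInt.eq_zero_of_not_dvd hy]
  simpa using h

/-- a prime dividing `r` -/
theorem at_P {p : ℕ} (hp : p.Prime) {F : ℤ → ZMod 2} (hF : IsQF F)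
    (hn : ∀ x y : ℤ, y ≠ 0 → (p : ℤ) ^ (padicValInt p y + 1) ∣ x - y → F x = F y) {r s u v : ℤ}
    (hs : ¬(p : ℤ) ∣ s) (h0 : u + v ≠ 0) (h1 : ¬(p : ℤ) ∣ v) (h2 : ¬(p : ℤ) ∣ u)
    (h3 : ¬(p : ℤ) ∣ u + 2 * v) (hr : (p : ℤ) ^ (padicValInt p (u + v) + 1) ∣ r) :
    ∑ j, F (fm8 r s u v j) = F (-1) ∧ F (fm8 r s u v 4) = F s + F (u + 2 * v) ∧
      F (fm8 r s u v 6) = F s + F (u + v) := by
  have : Fact p.Prime := ⟨hp⟩
  have pr : Prime (p : ℤ) := Nat.prime_iff_prime_int.1 hp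
  have ne : ∀ {x : ℤ}, ¬(p : ℤ) ∣ x → x ≠ 0 := fun h e => h (e ▸ dvd_zero _)
  have nm : ∀ {x y : ℤ}, ¬(p : ℤ) ∣ x → ¬(p : ℤ) ∣ y → ¬(p : ℤ) ∣ x * y := fun a b h =>
    (pr.dvd_or_dvd h).elim a b
  have hr1 : (p : ℤ) ∣ r := (dvd_pow_self _ (Nat.succ_ne_zero _)).trans hr
  have m0 : (-1 : ℤ) ≠ 0 := by norm_num
  have e4 : F (fm8 r s u v 4) = F s + F (u + 2 * v) := by
    rw [← hF _ _ (ne hs) (ne h3)]
    refine nunit hp hn (nm hs h3) (hr1.trans ⟨u, ?_⟩)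
    simp [fm8]; ring
  have e5 : F (fm8 r s u v 5) = F (-1) + (F s + F u) := by
    rw [← hF _ _ (ne hs) (ne h2), ← hF _ _ m0 (ne (nm hs h2))]
    refine nunit hp hn (by rw [neg_one_mul, dvd_neg]; exact nm hs h2) (hr1.trans ⟨u + 2 * v, ?_⟩)
    simp [fm8]; ring
  have e6 : F (fm8 r s u v 6) = F s + F (u + v) := by
    rw [← hF _ _ (ne hs) h0]
    refine hn _ _ (mul_ne_zero (ne hs) h0) ?_
    rw [padicValInt.mul (ne hs) h0, padicValInt.eq_zero_of_not_dvd hs, zero_add]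
    refine hr.trans ⟨-v, ?_⟩
    simp [fm8]; ring
  have e7 : F (fm8 r s u v 7) = F s + F v := by
    rw [← hF _ _ (ne hs) (ne h1)]
    refine nunit hp hn (nm hs h1) (hr1.trans ⟨u + v, ?_⟩)
    simp [fm8]; ring
  refine ⟨?_, e4, e6⟩
  have z2 : (2 : ZMod 2) = 0 := rfl
  rw [Fin.sum_univ_eight, e4, e5, e6, e7]
  show F (u + v) + F v + F u + F (u + 2 * v) + _ + _ + _ + _ = _
  linear_combination (F (u + v) + F v + F u + F (u + 2 * v) + 2 * F s) * z2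

/-- a prime dividing `r + s` -/
theorem at_Q {p : ℕ} (hp : p.Prime) {F : ℤ → ZMod 2} (hF : IsQF F)
    (hn : ∀ x y : ℤ, y ≠ 0 → (p : ℤ) ^ (padicValInt p y + 1) ∣ x - y → F x = F y) {r s u v : ℤ}
    (hs : ¬(p : ℤ) ∣ s) (hr : ¬(p : ℤ) ∣ r) (hb : ¬(p : ℤ) ∣ r - s) (h0 : u + v ≠ 0)
    (h1 : ¬(p : ℤ) ∣ v) (h2 : ¬(p : ℤ) ∣ u) (h3 : ¬(p : ℤ) ∣ u + 2 * v)
    (ha : (p : ℤ) ^ (padicValInt p (u + v) + 1) ∣ r + s) : ∑ j, F (fm8 r s u v j) = 0 := by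
  have : Fact p.Prime := ⟨hp⟩
  have pr : Prime (p : ℤ) := Nat.prime_iff_prime_int.1 hp
  have ne : ∀ {x : ℤ}, ¬(p : ℤ) ∣ x → x ≠ 0 := fun h e => h (e ▸ dvd_zero _)
  have nm : ∀ {x y : ℤ}, ¬(p : ℤ) ∣ x → ¬(p : ℤ) ∣ y → ¬(p : ℤ) ∣ x * y := fun a b h =>
    (pr.dvd_or_dvd h).elim a b
  have ha1 : (p : ℤ) ∣ r + s := (dvd_pow_self _ (Nat.succ_ne_zero _)).trans ha
  have m0 : (-1 : ℤ) ≠ 0 := by norm_num
  have e4 : F (fm8 r s u v 4) = F (-1) + (F (r - s) + F v) := by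
    rw [← hF _ _ (ne hb) (ne h1), ← hF _ _ m0 (ne (nm hb h1))]
    refine nunit hp hn (by rw [neg_one_mul, dvd_neg]; exact nm hb h1) (ha1.trans ⟨u + v, ?_⟩)
    simp [fm8]; ring
  have e5 : F (fm8 r s u v 5) = F (r - s) + F (u + v) := by
    rw [← hF _ _ (ne hb) h0]
    refine hn _ _ (mul_ne_zero (ne hb) h0) ?_
    rw [padicValInt.mul (ne hb) h0, padicValInt.eq_zero_of_not_dvd hb, zero_add]
    refine ha.trans ⟨v, ?_⟩
    simp [fm8]; ring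
  have e6 : F (fm8 r s u v 6) = F s + F (u + 2 * v) := by
    rw [← hF _ _ (ne hs) (ne h3)]
    refine nunit hp hn (nm hs h3) (ha1.trans ⟨-v, ?_⟩)
    simp [fm8]; ring
  have e7 : F (fm8 r s u v 7) = F r + F u := by
    rw [← hF _ _ (ne hr) (ne h2)]
    refine nunit hp hn (nm hr h2) (ha1.trans ⟨v, ?_⟩)
    simp [fm8]
  have e8 : F r = F (-1) + F s := by
    rw [← hF _ _ m0 (ne hs)]
    exact nunit hp hn (by rw [neg_one_mul, dvd_neg]; exact hs) (by simpa using ha1)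
  have z2 : (2 : ZMod 2) = 0 := rfl
  rw [Fin.sum_univ_eight, e4, e5, e6, e7, e8]
  show F (u + v) + F v + F u + F (u + 2 * v) + _ + _ + _ + _ = _
  linear_combination (F (u + v) + F v + F u + F (u + 2 * v) + F s + F (r - s) + F (-1)) * z2

theorem qV_pow {q : ℕ} (hq : q.Prime) (k : ℕ) : qV q ((q : ℤ) ^ k) = k := by
  have : Fact q.Prime := ⟨hq⟩
  rw [qV, ← Nat.cast_pow, padicValInt.of_nat, padicValNat.prime_pow]

theorem ex_fun (γ : X) : ∃ φ : X →ₗ[ZMod 2] ZMod 2, γ ≠ 0 → φ γ = 1 := by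
  by_cases h : γ = 0
  · exact ⟨0, fun h' => absurd h h'⟩
  · obtain ⟨i, hi⟩ := Finsupp.ne_iff.1 h
    refine ⟨Finsupp.lapply i, fun _ => ?_⟩
    have k : ∀ x : ZMod 2, x ≠ 0 → x = 1 := by decide
    exact k _ hi

/-- a witness for a form other than the third -/
theorem wit_ne {r s u v : ℤ} {p : ℕ} (hp : p.Prime) (hH : ¬(p : ℤ) ∣ H8 r s) (hu : ¬(p : ℤ) ∣ u)
    {j : Fin 8} (h : (p : ℤ) ^ 2 ∣ fm8 r s u v j - p) :
    (∀ i, i ≠ j → ¬(p : ℤ) ∣ fm8 r s u v i) ∧ qV p (fm8 r s u v j) = 1 := by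
  have : Fact p.Prime := ⟨hp⟩
  have pr : Prime (p : ℤ) := Nat.prime_iff_prime_int.1 hp
  refine ⟨fun i hij hd => ?_, ?_⟩
  · have d1 : (p : ℤ) ∣ fm8 r s u v j := by
      simpa using dvd_add ((dvd_pow_self _ two_ne_zero).trans h) (dvd_refl (p : ℤ))
    have e : dz8 r s i j * u = be8 r s i * fm8 r s u v j - be8 r s j * fm8 r s u v i := by
      rw [← minor8 r s hij, fm8_eq, fm8_eq]; ring
    have d2 : (p : ℤ) ∣ dz8 r s i j * u := e ▸ dvd_sub (d1.mul_left _) (hd.mul_left _)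
    exact (pr.dvd_or_dvd d2).elim (dz8_prime hp hH i j) hu
  · have h1 := near hp (x := fm8 r s u v j) pr.ne_zero (by rw [padicValInt_self]; exact h)
    rw [h1.2.2.1, XBaseAux.qV_self hp]

/-- a witness for the third form -/
theorem wit_two {r s u v : ℤ} {p : ℕ} (hp : p.Prime) (hH : ¬(p : ℤ) ∣ H8 r s) (hu : (p : ℤ) ∣ u)
    (hv : ¬(p : ℤ) ∣ v) (i : Fin 8) (hi : i ≠ 2) : ¬(p : ℤ) ∣ fm8 r s u v i := fun hd => by
  have pr : Prime (p : ℤ) := Nat.prime_iff_prime_int.1 hp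
  rw [fm8_eq] at hd
  exact (pr.dvd_or_dvd ((dvd_add_right (hu.mul_left _)).1 hd)).elim
    (fun h => hH (h.trans (be_dvd r s hi))) hv

/-- an ordinary bad prime -/
theorem at_T {r s u v : ℤ} (h1 : 0 < s) (h2 : s < r) {q : ℕ} (hq : q.Prime) (q2 : q ≠ 2)
    (hv : ¬(q : ℤ) ∣ v) (hd : (q : ℤ) ^ (padicValInt q (r * s * (r + s) * (r - s)) + 1) ∣ u)
    (hu : qV q u = qV q (r * s * (r + s) * (r - s)) + 1) : ∑ j, qV q (fm8 r s u v j) = 1 := by
  have : Fact q.Prime := ⟨hq⟩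
  have pr : Prime (q : ℤ) := Nat.prime_iff_prime_int.1 hq
  have r0 : r ≠ 0 := by omega
  have s0 : s ≠ 0 := by omega
  have a0 : r + s ≠ 0 := by omega
  have b0 : r - s ≠ 0 := by omega
  have H0 : r * s * (r + s) * (r - s) ≠ 0 := by positivity
  have n2 : ¬(q : ℤ) ∣ 2 := TableAux.not_dvd_prime hq Nat.prime_two q2
  have i := isQF_qV hq
  have k : ∀ j, j ≠ 2 → qV q (fm8 r s u v j) = qV q (be8 r s j) := fun j hj => by
    have hb := be_dvd' r s hj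
    have b0 := ne_zero_of_dvd_ne_zero (mul_ne_zero two_ne_zero H0) hb
    rw [fm8_eq]
    refine XBaseAux.odd_near hq _ _ _ _ b0 hv ((pow_dvd_pow _ ?_).trans hd)
    have d1 : (q : ℤ) ^ padicValInt q (be8 r s j) ∣ r * s * (r + s) * (r - s) :=
      (pr.coprime_iff_not_dvd.2 n2).pow_left.dvd_of_dvd_mul_left ((padicValInt_dvd _).trans hb)
    have d2 := (padicValInt_dvd_iff _ _).1 d1
    omega
  have v2 : qV q 2 = 0 := XBaseAux.qV_zero hq n2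
  have e0 : qV q (fm8 r s u v 0) = 0 := (k 0 (by decide)).trans (XBaseAux.qV_one q)
  have e1 : qV q (fm8 r s u v 1) = 0 := (k 1 (by decide)).trans (XBaseAux.qV_one q)
  have e2 : qV q (fm8 r s u v 2) = qV q r + qV q s + qV q (r + s) + qV q (r - s) + 1 := by
    rw [← i _ _ r0 s0, ← i _ _ (mul_ne_zero r0 s0) a0,
      ← i _ _ (mul_ne_zero (mul_ne_zero r0 s0) a0) b0]
    exact hu
  have e3 : qV q (fm8 r s u v 3) = 0 := (k 3 (by decide)).trans v2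
  have e4 : qV q (fm8 r s u v 4) = qV q s :=
    (k 4 (by decide)).trans ((i 2 s two_ne_zero s0).trans (by rw [v2, zero_add]))
  have e5 : qV q (fm8 r s u v 5) = qV q r :=
    (k 5 (by decide)).trans ((i 2 r two_ne_zero r0).trans (by rw [v2, zero_add]))
  have e6 : qV q (fm8 r s u v 6) = qV q (r - s) := (k 6 (by decide)).trans (XBaseAux.qV_neg q _)
  have e7 : qV q (fm8 r s u v 7) = qV q (r + s) := k 7 (by decide)
  have z2 : (2 : ZMod 2) = 0 := rfl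
  rw [Fin.sum_univ_eight, e0, e1, e2, e3, e4, e5, e6, e7]
  linear_combination (qV q r + qV q s + qV q (r + s) + qV q (r - s)) * z2

theorem lr_sum {r s u v : ℤ} (hne : ∀ j, fm8 r s u v j ≠ 0) {p : ℕ} (hp : p.Prime) :
    lr p (∑ j, kk8 r s u v j) = (∑ j, qV p (fm8 r s u v j), ∑ j, qL p (fm8 r s u v j)) := by
  rw [map_sum]
  simp only [kk8, lr_cl hp (hne _)]
  rw [← prod_mk_sum]

/-- the conditions at a prime of `P` -/
theorem fin_P {r s u v : ℤ} (hne : ∀ j, fm8 r s u v j ≠ 0) (cop : IsCoprime r s) (r0 : r ≠ 0)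
    {p : ℕ} (hp : p.Prime) (p5 : 5 ≤ p) (hr : (p : ℤ) ∣ r) (hu : ¬(p : ℤ) ∣ u)
    (h : (p : ℤ) ^ 2 ∣ (2 * (p : ℤ) ^ ((padicValInt p r + 1) % 2) - 1) * v - u) :
    lr p (ep + ∑ j, kk8 r s u v j) = 0 ∧ ka3 (cn r s) (kk8 r s u v) p = 1 := by
  have : Fact p.Prime := ⟨hp⟩
  have pr : Prime (p : ℤ) := Nat.prime_iff_prime_int.1 hp
  have hs : ¬(p : ℤ) ∣ s := fun h' => pr.not_isUnit (cop.isUnit_of_dvd' hr h')
  have n2 : ¬(p : ℤ) ∣ 2 := TableAux.not_dvd_prime hp Nat.prime_two (by omega : p ≠ 2)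
  have n3 : ¬(p : ℤ) ∣ 3 := TableAux.not_dvd_prime hp Nat.prime_three (by omega : p ≠ 3)
  have h1 : (p : ℤ) ∣ (2 * (p : ℤ) ^ ((padicValInt p r + 1) % 2) - 1) * v - u :=
    (dvd_pow_self _ two_ne_zero).trans h
  have hv : ¬(p : ℤ) ∣ v := unit_v h1 hu
  have v0 : v ≠ 0 := fun e => hv (e ▸ dvd_zero _)
  have hv1 : 1 ≤ padicValInt p r := by
    have := (padicValInt_dvd_iff 1 r).1 (by simpa using hr)
    omega
  have h0 : u + v ≠ 0 := hne 0
  have key : ¬(p : ℤ) ∣ u + 2 * v ∧ padicValInt p (u + v) = (padicValInt p r + 1) % 2 := by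
    rcases Nat.mod_two_eq_zero_or_one (padicValInt p r + 1) with e | e <;> rw [e] at h h1 ⊢
    · refine ⟨fun h' => ?_, padicValInt.eq_zero_of_not_dvd fun h' => ?_⟩
      · have h3 : (p : ℤ) ∣ 3 * v := dv (dvd_add h1 h') (by ring)
        exact (pr.dvd_or_dvd h3).elim n3 hv
      · have h3 : (p : ℤ) ∣ 2 * v := dv (dvd_add h1 h') (by ring)
        exact (pr.dvd_or_dvd h3).elim n2 hv
    · refine ⟨fun h' => hv ?_, ?_⟩
      · exact dv (dvd_sub (dvd_add h1 h') (dvd_mul_right (p : ℤ) (2 * v))) (by ring)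
      · have n4 : ¬(p : ℤ) ∣ 2 * v := fun h' => (pr.dvd_or_dvd h').elim n2 hv
        have e1 : padicValInt p ((p : ℤ) * (2 * v)) = 1 := by
          rw [padicValInt.mul pr.ne_zero (mul_ne_zero two_ne_zero v0), padicValInt_self,
            padicValInt.eq_zero_of_not_dvd n4]
        have k := near hp (x := u + v) (y := (p : ℤ) * (2 * v))
          (mul_ne_zero pr.ne_zero (mul_ne_zero two_ne_zero v0)) (by
            rw [e1]
            exact dv (dvd_neg.2 h) (by ring))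
        rw [k.2.1, e1]
  have hr2 : (p : ℤ) ^ (padicValInt p (u + v) + 1) ∣ r := by
    rw [padicValInt_dvd_iff, key.2]
    omega
  obtain ⟨a1, a2, a3⟩ := at_P hp (isQF_qV hp) (fun x y a b => (near hp a b).2.2.1) hs h0 hv hu
    key.1 hr2
  obtain ⟨b1, -, -⟩ := at_P hp (isQF_qL hp) (fun x y a b => (near hp a b).2.2.2) hs h0 hv hu
    key.1 hr2
  have m1 : qV p (-1) = 0 := (XBaseAux.qV_neg p 1).trans (XBaseAux.qV_one p)
  refine ⟨?_, ?_⟩
  · rw [map_add, lr_sum hne hp, a1, b1, ← cl_neg_one, lr_cl hp (by norm_num)]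
    exact Prod.ext (CharTwo.add_self_eq_zero _) (CharTwo.add_self_eq_zero _)
  · have ha : ¬(p : ℤ) ∣ r + s := fun h' => hs ((dvd_add_right hr).1 h')
    simp only [ka3, Finsupp.add_apply, cn, kk8, cl_prime_apply _ hp, a2, a3]
    show qV p (-1) + qV p r + qV p (r + s) + qV p v + qV p u + _ + _ = 1
    rw [m1, XBaseAux.qV_zero hp ha, XBaseAux.qV_zero hp hv, XBaseAux.qV_zero hp hu,
      XBaseAux.qV_zero hp hs, XBaseAux.qV_zero hp key.1, qV, qV, key.2]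
    have z2 : (2 : ZMod 2) = 0 := rfl
    have e : (((padicValInt p r + 1) % 2 : ℕ) : ZMod 2) = (padicValInt p r : ZMod 2) + 1 := by
      rw [ZMod.natCast_mod]; push_cast; rfl
    rw [e]
    linear_combination (padicValInt p r : ZMod 2) * z2

/-- the condition at a prime of `Q` -/
theorem fin_Q {r s u v : ℤ} (hne : ∀ j, fm8 r s u v j ≠ 0) (cop : IsCoprime r s)
    {p : ℕ} (hp : p.Prime) (p2 : p ≠ 2) (ha : (p : ℤ) ^ 2 ∣ r + s) (hu : ¬(p : ℤ) ∣ u)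
    (h : (p : ℤ) ^ 2 ∣ ((p : ℤ) - 1) * v - u) : lr p (∑ j, kk8 r s u v j) = 0 := by
  have : Fact p.Prime := ⟨hp⟩
  have pr : Prime (p : ℤ) := Nat.prime_iff_prime_int.1 hp
  have ha1 : (p : ℤ) ∣ r + s := (dvd_pow_self _ two_ne_zero).trans ha
  have hs : ¬(p : ℤ) ∣ s := fun h' =>
    pr.not_isUnit (cop.isUnit_of_dvd' ((dvd_add_left h').1 ha1) h')
  have hr : ¬(p : ℤ) ∣ r := fun h' => hs ((dvd_add_right h').1 ha1)
  have n2 : ¬(p : ℤ) ∣ 2 := TableAux.not_dvd_prime hp Nat.prime_two p2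
  have hb : ¬(p : ℤ) ∣ r - s := fun h' => by
    have h3 : (p : ℤ) ∣ 2 * r := dv (dvd_add ha1 h') (by ring)
    exact (pr.dvd_or_dvd h3).elim n2 hr
  have h1 : (p : ℤ) ∣ ((p : ℤ) - 1) * v - u := (dvd_pow_self _ two_ne_zero).trans h
  have hv : ¬(p : ℤ) ∣ v := unit_v h1 hu
  have v0 : v ≠ 0 := fun e => hv (e ▸ dvd_zero _)
  have h3 : ¬(p : ℤ) ∣ u + 2 * v := fun h' =>
    hv (dv (dvd_sub (dvd_add h1 h') (dvd_mul_right (p : ℤ) v)) (by ring))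
  have e1 : padicValInt p ((p : ℤ) * v) = 1 := by
    rw [padicValInt.mul pr.ne_zero v0, padicValInt_self, padicValInt.eq_zero_of_not_dvd hv]
  have k := near hp (x := u + v) (y := (p : ℤ) * v) (mul_ne_zero pr.ne_zero v0) (by
    rw [e1]
    exact dv (dvd_neg.2 h) (by ring))
  have hr2 : (p : ℤ) ^ (padicValInt p (u + v) + 1) ∣ r + s := by
    rw [k.2.1, e1]; exact ha
  rw [lr_sum hne hp,
    at_Q hp (isQF_qV hp) (fun x y a b => (near hp a b).2.2.1) hs hr hb k.1 hv hu h3 hr2,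
    at_Q hp (isQF_qL hp) (fun x y a b => (near hp a b).2.2.2) hs hr hb k.1 hv hu h3 hr2]
  rfl

/-- the classes at two and at infinity -/
theorem fin_star {r s u v : ℤ} {P Q : Finset ℕ} (hF : Fam8 r s P Q) (hu : u < 0)
    (hv : (r + s + 1) * |u| < v) (u2 : ¬(2 : ℤ) ∣ u)
    (h : (2 : ℤ) ^ (∑ j, (padicValInt 2 (c2 r s j) + 3)) ∣
      (4 * (r * s * (r + s) * (r - s)) - 1) * v - u) : Star8 (cn r s) (kk8 r s u v) := by
  have h1 := hF.s0
  have h2 := hF.sr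
  have sg := signs h1 h2 hu hv
  have v2 : ¬(2 : ℤ) ∣ v := 
    unit_v ((dvd_pow_self _ (by rw [Fin.sum_univ_eight]; omega)).trans h) u2
  obtain ⟨a1, a2, a3⟩ := at_two h1 h2 hF.par (isQF_qV Nat.prime_two)
    (fun x y a b => (near_two a b).2.1) v2 h
  obtain ⟨b1, b2, b3⟩ := at_two h1 h2 hF.par isQF_q4 (fun x y a b => (near_two a b).2.2.1) v2 h
  obtain ⟨c1, c2, c3⟩ := at_two h1 h2 hF.par isQF_q8 (fun x y a b => (near_two a b).2.2.2) v2 h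
  have o1 : ¬(2 : ℤ) ∣ -1 := by norm_num
  have o5 : ¬(2 : ℤ) ∣ 5 := by norm_num
  rw [XBaseAux.qV_odd o1] at a1 a2
  rw [XBaseAux.qV_odd o5] at a1
  have x1 : q4 (-1) = 1 := by rw [q4, XBaseAux.upart_odd o1]; rfl
  have x5 : q4 5 = 0 := by rw [q4, XBaseAux.upart_odd o5]; rfl
  have y1 : q8 (-1) = 0 := by rw [q8, XBaseAux.upart_odd o1]; rfl
  have y5 : q8 5 = 1 := by rw [q8, XBaseAux.upart_odd o5]; rfl
  rw [x1] at b1 b2
  rw [x5] at b1
  rw [y1] at c1 c2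
  rw [y5] at c1
  have sc : ∀ t : Fin 7, t ≠ 0 → qS (cz8 r s t) = 0 := fun t ht => by
    refine if_neg (not_lt.2 ?_)
    fin_cases t
    · exact absurd rfl ht
    all_goals simp [cz8]
    all_goals first | omega | positivity
  have k : ∀ j, st (kk8 r s u v j) = (![0, 0, 1, 0, 0, 0, 1, 0] j, qV 2 (fm8 r s u v j),
      q4 (fm8 r s u v j), q8 (fm8 r s u v j)) := fun j => by
    rw [kk8, st_cl (sg j).1, (sg j).2]
  have c : ∀ t : Fin 7, t ≠ 0 → st (cn r s t) = (0, qV 2 (cz8 r s t), q4 (cz8 r s t),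
      q8 (cz8 r s t)) := fun t ht => by
    rw [cn, st_cl (cz8_ne hF t), sc t ht]
  refine ⟨?_, ?_, ?_⟩
  · rw [map_sum]
    simp only [k]
    rw [← prod_mk_sum, ← prod_mk_sum, ← prod_mk_sum, a1, b1, c1]
    decide
  · simp only [ka1, map_add, k, c 2 (by decide), c 3 (by decide), Prod.mk_add_mk] at a2 b2 c2 ⊢
    rw [a2, b2, c2]
    decide
  · simp only [ka2, map_add, k, c 4 (by decide), c 5 (by decide), Prod.mk_add_mk] at a3 b3 c3 ⊢
    rw [a3, b3, c3]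
    decide

end ZBaseAux

/-- a starting point -/
theorem base8 {r s : ℤ} {P Q : Finset ℕ} (hF : Fam8 r s P Q) :
    ∃ u v, Inv8 r s P Q u v ∧ Wit8 r s u v := by
  classical
  have h1 := hF.s0
  have h2 := hF.sr
  have r0 : r ≠ 0 := by omega
  have b0 : r - s ≠ 0 := by omega
  have a0 : r + s ≠ 0 := by omega
  have m0 : r ^ 2 + s ^ 2 ≠ 0 := by positivity
  set H : ℤ := r * s * (r + s) * (r - s) with hH
  have H0 : H ≠ 0 := by rw [hH]; positivity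
  have H80 : H8 r s ≠ 0 := by unfold H8; positivity
  have hH8 : H ∣ H8 r s := ⟨2 * (r ^ 2 + s ^ 2), by rw [hH, H8]; ring⟩
  have h28 : (2 : ℤ) ∣ H8 r s := cz8_dvd r s 1
  have hP : ∀ p ∈ P, p.Prime ∧ 5 ≤ p ∧ (p : ℤ) ∣ r ∧ p ∉ Q := by
    rcases hF.cas with ⟨e, -⟩ | ⟨p, q, e1, e2, hp, hq, p5, d1, d2, -⟩
    · simp [e]
    · intro p' hp'
      rw [e1, mem_singleton] at hp'
      rw [hp', e2, mem_singleton]
      refine ⟨hp, p5, d1, fun e => ?_⟩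
      rw [← e] at d2
      exact (Nat.prime_iff_prime_int.1 hp).not_isUnit
        (hF.cop.isUnit_of_dvd' d1 ((dvd_add_right d1).1 d2))
  have hQ : ∀ q ∈ Q, q.Prime ∧ q ≠ 2 ∧ (q : ℤ) ^ 2 ∣ r + s := by
    rcases hF.cas with ⟨-, e, -⟩ | ⟨p, q, e1, e2, hp, hq, p5, d1, d2, ⟨t, ht⟩, -⟩
    · simp [e]
    · intro q' hq'
      rw [e2, mem_singleton] at hq'
      rw [hq']
      refine ⟨hq, fun e => ?_, ?_⟩
      · have := hF.par
        rw [e] at d2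
        push_cast at d2
        omega
      · rw [ht] at d2 ⊢
        have d3 := ((Nat.prime_iff_prime_int.1 hq).dvd_or_dvd d2).elim id id
        rw [sq]
        exact mul_dvd_mul d3 d3
  have hPH : ∀ p ∈ P, (p : ℤ) ∣ H := fun p hp =>
    (hP p hp).2.2.1.trans ⟨s * (r + s) * (r - s), by rw [hH]; ring⟩
  have hQH : ∀ q ∈ Q, (q : ℤ) ∣ H := fun q hq =>
    ((dvd_pow_self _ two_ne_zero).trans (hQ q hq).2.2).trans ⟨r * s * (r - s), by rw [hH]; ring⟩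
  set T := H.natAbs.primeFactors.filter fun q => q ≠ 2 ∧ q ∉ P ∧ q ∉ Q with hT
  have hTm : ∀ q : ℕ, q ∈ T ↔ q.Prime ∧ (q : ℤ) ∣ H ∧ q ≠ 2 ∧ q ∉ P ∧ q ∉ Q := by
    intro q
    rw [hT, mem_filter, Nat.mem_primeFactors, Int.natCast_dvd]
    exact ⟨fun h => ⟨h.1.1, h.1.2.1, h.2⟩,
      fun h => ⟨⟨h.1, h.2.1, Int.natAbs_ne_zero.2 H0⟩, h.2.2⟩⟩
  choose φ hφ using ZBaseAux.ex_fun
  obtain ⟨W, hWi, hW⟩ := ZBaseAux.inj_primes (ι := Fin 8 × (Fin 7 → ZMod 2))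
    (fun i q => q.Prime ∧ ∀ z ∈ Sup ((H8 r s).natAbs.primeFactors.erase 2),
      lin (qL q) z = φ (∑ t, i.2 t • cn r s t) z)
    (fun i K => by
      obtain ⟨q, k1, k2, k3⟩ := prime_ex (H8 r s).natAbs (Int.natAbs_pos.2 H80)
        (φ (∑ t, i.2 t • cn r s t)) K
      exact ⟨q, k2, k1, k3⟩) (H8 r s).natAbs univ
  have hWj : ∀ i j, W i = W j → i = j := fun i j => hWi i (mem_univ _) j (mem_univ _)
  have hWp : ∀ i, (W i).Prime := fun i => (hW i (mem_univ _)).2.1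
  have hWH : ∀ i, ¬(W i : ℤ) ∣ H8 r s := fun i hd =>
    (Nat.le_of_dvd (Int.natAbs_pos.2 H80) (Int.natCast_dvd.1 hd)).not_gt (hW i (mem_univ _)).1
  have hWn : ∀ i (q : ℕ), (q : ℤ) ∣ H → W i ≠ q := fun i q hq e => hWH i (e ▸ hq.trans hH8)
  have hW2 : ∀ i, W i ≠ 2 := fun i e => hWH i (by rw [e]; exact h28)
  set U₀ : ℤ := ∏ q ∈ T, (q : ℤ) ^ (padicValInt q H + 1) with hU₀
  set U₁ : ℤ := ∏ w : Fin 7 → ZMod 2, (W (2, w) : ℤ) with hU₁
  have p0 : 0 < U₀ := prod_pos fun q hq => pow_pos (by exact_mod_cast ((hTm q).1 hq).1.pos) _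
  have p1 : 0 < U₁ := prod_pos fun w _ => by exact_mod_cast (hWp _).pos
  have d0 : ∀ q : ℕ, q.Prime → (q : ℤ) ∣ U₀ → q ∈ T := fun q hq hd => by
    have pr := Nat.prime_iff_prime_int.1 hq
    obtain ⟨p, hp, hd⟩ := (Prime.dvd_finsetProd_iff pr _).1 hd
    rwa [(Nat.prime_dvd_prime_iff_eq hq ((hTm p).1 hp).1).1
      (Int.natCast_dvd_natCast.1 (pr.dvd_of_dvd_pow hd))]
  have d1 : ∀ q : ℕ, q.Prime → (q : ℤ) ∣ U₁ → ∃ w, W (2, w) = q := fun q hq hd => by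
    obtain ⟨w, -, hd⟩ := (Prime.dvd_finsetProd_iff (Nat.prime_iff_prime_int.1 hq) _).1 hd
    exact ⟨w, ((Nat.prime_dvd_prime_iff_eq hq (hWp _)).1 (Int.natCast_dvd_natCast.1 hd)).symm⟩
  set u : ℤ := -(U₀ * U₁) with hu
  have u0 : u < 0 := neg_neg_of_pos (mul_pos p0 p1)
  have du : ∀ q : ℕ, q.Prime → q ∉ T → (∀ w, W (2, w) ≠ q) → ¬(q : ℤ) ∣ u := fun q hq k1 k2 hd =>
    ((Nat.prime_iff_prime_int.1 hq).dvd_or_dvd (dvd_neg.1 hd)).elim (fun h => k1 (d0 q hq h))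
      fun h => (d1 q hq h).elim k2
  have u2 : ¬(2 : ℤ) ∣ u :=
    du 2 Nat.prime_two (fun h => ((hTm 2).1 h).2.2.1 rfl) fun w => hW2 _
  have uP : ∀ p ∈ P, ¬(p : ℤ) ∣ u := fun p hp =>
    du p (hP p hp).1 (fun h => ((hTm p).1 h).2.2.2.1 hp) fun w => hWn _ p (hPH p hp)
  have uQ : ∀ q ∈ Q, ¬(q : ℤ) ∣ u := fun q hq =>
    du q (hQ q hq).1 (fun h => ((hTm q).1 h).2.2.2.2 hq) fun w => hWn _ q (hQH q hq)
  have hWT : ∀ i, W i ∉ T := fun i h => hWn i _ ((hTm _).1 h).2.1 rfl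
  have uW : ∀ j w, j ≠ 2 → ¬(W (j, w) : ℤ) ∣ u := fun j w hj =>
    du _ (hWp _) (hWT _) fun w' e => hj (congrArg Prod.fst (hWj _ _ e)).symm
  have uW1 : ∀ w, (W (2, w) : ℤ) ∣ u := fun w =>
    dvd_neg.2 ((dvd_prod_of_mem (fun w => (W (2, w) : ℤ)) (mem_univ w)).mul_left _)
  have uW2 : ∀ w, qV (W (2, w)) u = 1 := fun w => by
    have hp := hWp (2, w)
    rw [hu, XBaseAux.qV_neg, isQF_qV hp _ _ p0.ne' p1.ne',
      XBaseAux.qV_zero hp fun h => hWT _ (d0 _ hp h), zero_add, hU₁,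
      (isQF_qV hp).prod _ _ fun w' _ => by exact_mod_cast (hWp _).ne_zero,
      sum_eq_single w, XBaseAux.qV_self hp]
    · intro w' _ hw
      exact XBaseAux.qV_zero hp (TableAux.not_dvd_prime hp (hWp _) fun e =>
        hw (congrArg Prod.snd (hWj _ _ e)).symm)
    · intro h; exact absurd (mem_univ w) h
  have uT1 : ∀ q ∈ T, (q : ℤ) ^ (padicValInt q H + 1) ∣ u := fun q hq =>
    dvd_neg.2 ((dvd_prod_of_mem (fun q : ℕ => (q : ℤ) ^ (padicValInt q H + 1)) hq).mul_right _)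
  have uT2 : ∀ q ∈ T, qV q u = qV q H + 1 := fun q hq => by
    obtain ⟨hp, hd, -⟩ := (hTm q).1 hq
    rw [hu, XBaseAux.qV_neg, isQF_qV hp _ _ p0.ne' p1.ne',
      XBaseAux.qV_zero hp (n := U₁) fun h => (d1 q hp h).elim fun w => hWn _ q hd, add_zero, hU₀,
      (isQF_qV hp).prod _ _ fun p hp' => pow_ne_zero _
        (by exact_mod_cast ((hTm p).1 hp').1.ne_zero),
      sum_eq_single q, ZBaseAux.qV_pow hp, qV]
    · push_cast; rfl
    · intro p hp' hne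
      exact XBaseAux.qV_zero hp fun h => TableAux.not_dvd_prime hp ((hTm p).1 hp').1 hne.symm
        ((Nat.prime_iff_prime_int.1 hp).dvd_of_dvd_pow h)
    · intro h; exact absurd hq h
  obtain ⟨v, hv, hC⟩ := ZBaseAux.crtP (insert 2 (T ∪ P ∪ Q ∪ univ.image W))
    (fun p hp => by
      simp only [mem_insert, mem_union, mem_image, mem_univ, true_and] at hp
      rcases hp with rfl | ((h | h) | h) | ⟨i, rfl⟩
      exacts [Nat.prime_two, ((hTm p).1 h).1, (hP p h).1, (hQ p h).1, hWp i])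
    (fun p V => (p = 2 → (2 : ℤ) ^ (∑ j, (padicValInt 2 (ZBaseAux.c2 r s j) + 3)) ∣
        (4 * H - 1) * V - u) ∧ (p ∈ T → ¬(p : ℤ) ∣ V) ∧
      (p ∈ P → (p : ℤ) ^ 2 ∣ (2 * (p : ℤ) ^ ((padicValInt p r + 1) % 2) - 1) * V - u) ∧
      (p ∈ Q → (p : ℤ) ^ 2 ∣ ((p : ℤ) - 1) * V - u) ∧
      ∀ j w, W (j, w) = p → (j = 2 → ¬(p : ℤ) ∣ V) ∧
        (j ≠ 2 → (p : ℤ) ^ 2 ∣ fm8 r s u V j - p))
    (fun p hp => by
      simp only [mem_insert, mem_union, mem_image, mem_univ, true_and] at hp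
      rcases hp with rfl | ((h | h) | h) | ⟨⟨j, w⟩, rfl⟩
      · obtain ⟨x, hx⟩ := ZBaseAux.solve (b := 4 * H - 1) Int.prime_two (by omega) _ u
        exact ⟨_, x, fun V hV => ⟨fun _ => hx V hV, fun h => absurd rfl ((hTm 2).1 h).2.2.1,
          fun h => absurd (hP 2 h).2.1 (by norm_num), fun h => absurd rfl (hQ 2 h).2.1,
          fun j w e => absurd e (hW2 _)⟩⟩
      · obtain ⟨k1, k2, k3, k4, k5⟩ := (hTm p).1 h
        exact ⟨1, 1, fun V hV => ⟨fun e => absurd e k3,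
          fun _ => ZBaseAux.unit_of (Nat.prime_iff_prime_int.1 k1) hV, fun h' => absurd h' k4,
          fun h' => absurd h' k5, fun j w e => absurd e (hWn _ p k2)⟩⟩
      · obtain ⟨k1, k2, k3, k4⟩ := hP p h
        have pr := Nat.prime_iff_prime_int.1 k1
        obtain ⟨x, hx⟩ := ZBaseAux.solve (b := 2 * (p : ℤ) ^ ((padicValInt p r + 1) % 2) - 1) pr
          (fun hd => pr.not_dvd_one (by
            rcases Nat.mod_two_eq_zero_or_one (padicValInt p r + 1) with e | e <;> rw [e] at hd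
            · exact ZBaseAux.dv hd (by ring)
            · exact ZBaseAux.dv (dvd_sub (dvd_mul_left (p : ℤ) 2) hd) (by ring))) 2 u
        exact ⟨2, x, fun V hV => ⟨fun e => absurd e (by omega),
          fun h' => absurd h ((hTm p).1 h').2.2.2.1, fun _ => hx V hV, fun h' => absurd h' k4,
          fun j w e => absurd e (hWn _ p (hPH p h))⟩⟩
      · obtain ⟨k1, k2, k3⟩ := hQ p h
        have pr := Nat.prime_iff_prime_int.1 k1
        obtain ⟨x, hx⟩ := ZBaseAux.solve (b := (p : ℤ) - 1) pr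
          (fun hd => pr.not_dvd_one (ZBaseAux.dv (dvd_sub (dvd_refl (p : ℤ)) hd) (by ring))) 2 u
        exact ⟨2, x, fun V hV => ⟨fun e => absurd e k2,
          fun h' => absurd h ((hTm p).1 h').2.2.2.2, fun h' => absurd h (hP p h').2.2.2,
          fun _ => hx V hV, fun j w e => absurd e (hWn _ p (hQH p h))⟩⟩
      · have pr := Nat.prime_iff_prime_int.1 (hWp (j, w))
        have k : ∃ (k : ℕ) (x : ℤ), ∀ V : ℤ, (W (j, w) : ℤ) ^ k ∣ V - x →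
            (j = 2 → ¬(W (j, w) : ℤ) ∣ V) ∧
              (j ≠ 2 → (W (j, w) : ℤ) ^ 2 ∣ fm8 r s u V j - W (j, w)) := by
          by_cases hj : j = 2
          · exact ⟨1, 1, fun V hV => ⟨fun _ => ZBaseAux.unit_of pr hV, fun h => absurd hj h⟩⟩
          · obtain ⟨x, hx⟩ := ZBaseAux.solve (b := be8 r s j) pr
              (fun hd => hWH _ (hd.trans (ZBaseAux.be_dvd r s hj))) 2 (W (j, w) - al8 r s j * u)
            exact ⟨2, x, fun V hV => ⟨fun h => absurd h hj,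
              fun _ => ZBaseAux.dv (hx V hV) (by rw [fm8_eq]; ring)⟩⟩
        obtain ⟨k, x, hx⟩ := k
        refine ⟨k, x, fun V hV => ⟨fun e => absurd e (hW2 _), fun h => absurd h (hWT _),
          fun h => absurd rfl (hWn _ _ (hPH _ h)), fun h => absurd rfl (hWn _ _ (hQH _ h)),
          fun j' w' e => ?_⟩⟩
        obtain rfl : j' = j := congrArg Prod.fst (hWj _ _ e)
        exact hx V hV) ((r + s + 1) * |u|)
  have hne : ∀ j, fm8 r s u v j ≠ 0 := fun j => (ZBaseAux.signs h1 h2 u0 hv j).1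
  have hwit : ∀ j w, (∀ i, i ≠ j → ¬(W (j, w) : ℤ) ∣ fm8 r s u v i) ∧
      qV (W (j, w)) (fm8 r s u v j) = 1 := fun j w => by
    obtain ⟨k1, k2⟩ := (hC (W (j, w)) (by simp)).2.2.2.2 j w rfl
    by_cases hj : j = 2
    · subst hj
      exact ⟨ZBaseAux.wit_two (hWp _) (hWH _) (uW1 w) (k1 rfl), uW2 w⟩
    · exact ZBaseAux.wit_ne (hWp _) (hWH _) (uW j w hj) (k2 hj)
  refine ⟨u, v, ⟨hne, fun q hq q2 hd => ?_, fun p hp => ?_, fun q hq => ?_,
    ZBaseAux.fin_star hF u0 hv u2 ((hC 2 (mem_insert_self _ _)).1 rfl),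
    ⟨fun j => W (j, 0), fun j => ⟨hWp _, hWH _, fun i => ?_⟩⟩⟩, fun j γ hγ γ0 => ?_⟩
  · by_cases k1 : q ∈ P
    · exact Or.inl k1
    by_cases k2 : q ∈ Q
    · exact Or.inr (Or.inl k2)
    have hqT : q ∈ T := (hTm q).2 ⟨hq, hd, q2, k1, k2⟩
    refine Or.inr (Or.inr ?_)
    rw [Finsupp.finsetSum_apply]
    simp only [kk8, cl_prime_apply _ hq]
    exact ZBaseAux.at_T h1 h2 hq q2 ((hC q (by simp [hqT])).2.1 hqT) (uT1 q hqT) (uT2 q hqT)
  · obtain ⟨k1, k2, k3, -⟩ := hP p hp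
    exact ZBaseAux.fin_P hne hF.cop r0 k1 k2 k3 (uP p hp) ((hC p (by simp [hp])).2.2.1 hp)
  · obtain ⟨k1, k2, k3⟩ := hQ q hq
    exact ZBaseAux.fin_Q hne hF.cop k1 k2 k3 (uQ q hq) ((hC q (by simp [hq])).2.2.2.1 hq)
  · rw [kk8, cl_prime_apply _ (hWp _)]
    split_ifs with hij
    · rw [hij]; exact (hwit j 0).2
    · exact XBaseAux.qV_zero (hWp _) ((hwit j 0).1 i hij)
  · obtain ⟨w, rfl⟩ := (Submodule.mem_span_range_iff_exists_fun _).1 hγ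
    refine ⟨W (j, w), hWp _, hWH _, (hwit j w).1, (hwit j w).2, ?_⟩
    rw [(hW (j, w) (mem_univ _)).2.2 _ (Submodule.sum_mem _ fun t _ => Submodule.smul_mem _ _ ?_)]
    · exact hφ _ γ0
    · refine cl_mem_Sup (cz8_ne hF t) fun q k1 k2 k3 => ?_
      rw [mem_erase, Nat.mem_primeFactors, ← Int.natCast_dvd]
      exact ⟨k2, k1, k3.trans (cz8_dvd r s t), Int.natAbs_ne_zero.2 H80⟩

end Pool.Agent.Lib.MP_7d3fda_nt.R5
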