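import Pool.Agent.Lib.MP_7d3fda_nt.R5.ZDefs

open Finset Module
open scoped NumberTheorySymbols

noncomputable section

namespace Pool.Agent.Lib.MP_7d3fda_nt.R5

open Pool.Agent.Lib.MP_788af2_nt Pool.Agent.Lib.MP_7d3fda_nt.R2 Pool.Agent.Lib.MP_7d3fda_nt.R3

namespace ZDualAux

variable {γ : X} {P Q : Finset ℕ}

theorem djP (h : Ok8 γ P Q) : Disjoint (Sg γ) P := disjoint_left.2 fun q hq hp => by
  have h1 := (mem_Sg.1 hq).2.2
  rw [h.dP q hp] at h1
  exact zero_ne_one h1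

theorem djQ (h : Ok8 γ P Q) : Disjoint (Sg γ) Q := disjoint_left.2 fun q hq hp => by
  have h1 := (mem_Sg.1 hq).2.2
  rw [h.dQ q hp] at h1
  exact zero_ne_one h1

theorem odd_union {S T : Finset ℕ} (hS : OddP S) (hT : OddP T) : OddP (S ∪ T) := fun r hr =>
  (mem_union.1 hr).elim (hS r) (hT r)

theorem Sup_mono {S T : Finset ℕ} (h : S ⊆ T) {x : X} (hx : x ∈ Sup S) : x ∈ Sup T :=
  mem_Sup.2 fun i h0 h2 hi => mem_Sup.1 hx i h0 h2 fun hs => hi (h hs)

/-- the product formula in terms of the local conditions -/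
theorem pair (h : Ok8 γ P Q) {y z : X} (hy : y ∈ Sup (Sg γ ∪ P)) (hz : z ∈ Sup (Sg γ ∪ Q)) :
    (∑ q ∈ Sg γ, y q * Lq (ep + γ) q z + ∑ p ∈ P, y p * lin (qL p) z) +
      (∑ q ∈ Sg γ, z q * Lq γ q y + ∑ q ∈ Q, z q * lin (qL q) y + hH (st y) (st z)) = 0 := by
  have h1 := prodf (odd_union (odd_union h.odd h.oP) h.oQ) (Sup_mono subset_union_left hy)
    (Sup_mono (union_subset_union subset_union_left Subset.rfl) hz)
  rw [sum_union (disjoint_union_left.2 ⟨djQ h, h.dPQ⟩), sum_union (djP h)] at h1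
  have e1 : ∑ r ∈ Sg γ, hL (qL r (-1)) (lr r y) (lr r z) =
      ∑ q ∈ Sg γ, y q * Lq (ep + γ) q z + ∑ q ∈ Sg γ, z q * Lq γ q y := by
    rw [← sum_add_distrib]
    refine sum_congr rfl fun r _ => ?_
    rw [Lq_apply, Lq_apply, map_add, lin_ep]
    change y r * lin (qL r) z + z r * lin (qL r) y + y r * z r * qL r (-1) = _
    generalize y r = a, z r = b, lin (qL r) z = c, lin (qL r) y = d, qL r (-1) = e,
      lin (qL r) γ = g
    revert a b c d e g
    decide
  have e2 : ∑ r ∈ P, hL (qL r (-1)) (lr r y) (lr r z) = ∑ p ∈ P, y p * lin (qL p) z := by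
    refine sum_congr rfl fun r hr => ?_
    have h0 : z r = 0 := mem_Sup.1 hz r (h.oP r hr).1.ne_zero (h.oP r hr).2 fun hm =>
      (mem_union.1 hm).elim (fun hm => disjoint_left.1 (djP h) hm hr) (disjoint_left.1 h.dPQ hr)
    change y r * lin (qL r) z + z r * lin (qL r) y + y r * z r * qL r (-1) = _
    rw [h0]
    ring
  have e3 : ∑ r ∈ Q, hL (qL r (-1)) (lr r y) (lr r z) = ∑ q ∈ Q, z q * lin (qL q) y := by
    refine sum_congr rfl fun r hr => ?_
    have h0 : y r = 0 := mem_Sup.1 hy r (h.oQ r hr).1.ne_zero (h.oQ r hr).2 fun hm =>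
      (mem_union.1 hm).elim (fun hm => disjoint_left.1 (djQ h) hm hr)
        fun hm => disjoint_left.1 h.dPQ hm hr
    change y r * lin (qL r) z + z r * lin (qL r) y + y r * z r * qL r (-1) = _
    rw [h0]
    ring
  rw [e1, e2, e3] at h1
  linear_combination h1

/-- the local conditions of the second system as one map -/
def Phi (γ : X) (P : Finset ℕ) : X →ₗ[ZMod 2] (↥(Sg γ ∪ P) → ZMod 2) :=
  LinearMap.pi fun q => if q.1 ∈ Sg γ then Lq (ep + γ) q.1 else lin (qL q.1)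

theorem Phi_apply (z : X) (q : ↥(Sg γ ∪ P)) :
    Phi γ P z q = if q.1 ∈ Sg γ then Lq (ep + γ) q.1 z else lin (qL q.1) z := by
  rw [Phi, LinearMap.pi_apply]
  split_ifs <;> rfl

theorem sum_Phi (h : Ok8 γ P Q) {y z : X} (hy : y ∈ Sup (Sg γ ∪ P)) (hz : z ∈ Sup (Sg γ ∪ Q)) :
    ∑ q : ↥(Sg γ ∪ P), y q * Phi γ P z q =
      ∑ q ∈ Sg γ, z q * Lq γ q y + ∑ q ∈ Q, z q * lin (qL q) y + hH (st y) (st z) := by
  have h1 := pair h hy hz
  have h2 : ∑ q : ↥(Sg γ ∪ P), y q * Phi γ P z q =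
      ∑ q ∈ Sg γ, y q * Lq (ep + γ) q z + ∑ p ∈ P, y p * lin (qL p) z := by
    simp only [Phi_apply]
    rw [sum_coe_sort (Sg γ ∪ P)
      fun q => y q * if q ∈ Sg γ then Lq (ep + γ) q z else lin (qL q) z, sum_union (djP h)]
    congr 1
    · exact sum_congr rfl fun q hq => by rw [if_pos hq]
    · exact sum_congr rfl fun q hq => by rw [if_neg (disjoint_right.1 (djP h) hq)]
  rw [h2]
  exact (CharTwo.add_eq_zero.1 h1)

theorem Rd_eq (h : Ok8 γ P Q) : Rd (ep + γ) Q P = Sup (Sg γ ∪ Q) ⊓ LinearMap.ker (Phi γ P) := by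
  ext z
  rw [mem_Rd, Sg_ep, Submodule.mem_inf, LinearMap.mem_ker, funext_iff]
  refine and_congr_right fun _ => ⟨fun ⟨h1, h2⟩ q => ?_, fun h1 => ⟨fun q hq => ?_, fun q hq => ?_⟩⟩
  · rw [Phi_apply]
    split_ifs with hq
    exacts [h1 _ hq, h2 _ ((mem_union.1 q.2).resolve_left hq)]
  · have := h1 ⟨q, mem_union_left _ hq⟩
    rwa [Phi_apply, if_pos hq] at this
  · have := h1 ⟨q, mem_union_right _ hq⟩
    rwa [Phi_apply, if_neg (disjoint_right.1 (djP h) hq)] at this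

theorem finrank_Sup {T : Finset ℕ} (hT : OddP T) : finrank (ZMod 2) (Sup T) = T.card + 2 := by
  have h0 : 0 ∉ T := fun h => Nat.not_prime_zero (hT 0 h).1
  have h2 : 2 ∉ T := fun h => (hT 2 h).2 rfl
  have e : (insert 0 (insert 2 (T : Set ℕ)) : Set ℕ) = (insert 0 (insert 2 T) : Finset ℕ) := by
    simp
  rw [Sup, e, (Finsupp.supportedEquivFinsupp _).finrank_eq, finrank_finsupp_self]
  simp only [coe_sort_coe, Fintype.card_coe]
  rw [card_insert_of_notMem (by simp [h0]), card_insert_of_notMem h2]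

theorem rank_null (h : Ok8 γ P Q) :
    finrank (ZMod 2) (LinearMap.range ((Phi γ P).domRestrict (Sup (Sg γ ∪ Q)))) +
      finrank (ZMod 2) (Rd (ep + γ) Q P) = finrank (ZMod 2) (↥(Sg γ ∪ P) → ZMod 2) + 2 := by
  have h1 := LinearMap.finrank_range_add_finrank_ker (K := ZMod 2) (V := Sup (Sg γ ∪ Q))
    (V₂ := ↥(Sg γ ∪ P) → ZMod 2) ((Phi γ P).domRestrict (Sup (Sg γ ∪ Q)))
  rw [LinearMap.ker_domRestrict, ← Submodule.finrank_map_subtype_eq, Submodule.map_comap_subtype,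
    ← Rd_eq h, finrank_Sup (odd_union h.odd h.oQ)] at h1
  rw [h1, finrank_fintype_fun_eq_card, Fintype.card_coe, card_union_of_disjoint (djP h),
    card_union_of_disjoint (djQ h), h.card]

theorem top_iff (h : Ok8 γ P Q) :
    LinearMap.range ((Phi γ P).domRestrict (Sup (Sg γ ∪ Q))) = ⊤ ↔ Sd γ P Q = ⊥ := by
  have oT := odd_union h.odd h.oP
  constructor
  · intro ht
    refine (Submodule.eq_bot_iff _).2 fun y hy => ?_
    obtain ⟨hy, h0⟩ := mem_Sd.1 hy
    obtain ⟨h1, h2, h3⟩ := mem_Rd.1 hy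
    ext i
    by_cases hi : i ∈ Sg γ ∪ P
    · obtain ⟨z, hz⟩ := LinearMap.range_eq_top.1 ht (Pi.single ⟨i, hi⟩ 1)
      have h4 := sum_Phi h h1 z.2
      rw [show Phi γ P z = _ from hz,
        sum_eq_zero (s := Sg γ) fun q hq => by rw [h2 q hq, mul_zero],
        sum_eq_zero (s := Q) fun q hq => by rw [h3 q hq, mul_zero], h0] at h4
      simpa [Pi.single_apply, hH] using h4
    · by_cases i0 : i = 0
      · rw [i0]
        exact congrArg Prod.fst h0
      by_cases i2 : i = 2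
      · rw [i2]
        exact congrArg (fun x : B4 => x.2.1) h0
      exact mem_Sup.1 h1 i i0 i2 hi
  · intro hS
    by_contra ht
    obtain ⟨f, hf, hk⟩ := Submodule.exists_le_ker_of_lt_top _ (lt_top_iff_ne_top.2 ht)
    obtain ⟨y, hy⟩ : ∃ y : X, ∀ i, y i = if hi : i ∈ Sg γ ∪ P then f (Pi.single ⟨i, hi⟩ 1) else 0 :=
      ⟨Finsupp.onFinset (Sg γ ∪ P) _ fun i hi => by_contra fun hn => hi (dif_neg hn), fun _ => rfl⟩
    have h1 : y ∈ Sup (Sg γ ∪ P) := mem_Sup.2 fun i _ _ hi => by rw [hy, dif_neg hi]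
    have hv : ∀ v, f v = ∑ q : ↥(Sg γ ∪ P), y q * v q := fun v => by
      rw [LinearMap.pi_apply_eq_sum_univ]
      refine sum_congr rfl fun q _ => ?_
      rw [hy, dif_pos q.2, smul_eq_mul, mul_comm]
      congr 2
      funext j
      rw [Pi.single_apply]
      exact if_congr eq_comm rfl rfl
    have hz : ∀ z ∈ Sup (Sg γ ∪ Q),
        ∑ q ∈ Sg γ, z q * Lq γ q y + ∑ q ∈ Q, z q * lin (qL q) y + hH (st y) (st z) = 0 :=
      fun z hz => by
        rw [← sum_Phi h h1 hz, ← hv]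
        exact hk ⟨⟨z, hz⟩, rfl⟩
    have hs : ∀ i, i = 0 ∨ i = 2 ∨ i ∈ Sg γ ∪ Q → (if i ∈ Sg γ then Lq γ i y else 0) +
        (if i ∈ Q then lin (qL i) y else 0) + hH (st y) (st (Finsupp.single i 1)) = 0 :=
      fun i hi => by
        have := hz (Finsupp.single i 1) (mem_Sup.2 fun j j0 j2 hj => Finsupp.single_eq_of_ne (by
          rintro rfl
          tauto))
        simpa only [Finsupp.single_apply, ite_mul, one_mul, zero_mul, sum_ite_eq] using this
    have h0 : st y = 0 := by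
      have a0 := hs 0 (Or.inl rfl)
      have a2 := hs 2 (Or.inr (Or.inl rfl))
      rw [if_neg fun hm => (h.odd 0 hm).1.ne_zero rfl, if_neg fun hm => (h.oQ 0 hm).1.ne_zero rfl,
        show st (Finsupp.single 0 1) = epH from st_ep] at a0
      rw [if_neg fun hm => (h.odd 2 hm).2 rfl, if_neg fun hm => (h.oQ 2 hm).2 rfl, st_two] at a2
      have b0 : (st y).1 = 0 := (hy 0).trans (dif_neg fun hm => (oT 0 hm).1.ne_zero rfl)
      have b2 : (st y).2.1 = 0 := (hy 2).trans (dif_neg fun hm => (oT 2 hm).2 rfl)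
      generalize st y = x at a0 a2 b0 b2
      revert x
      decide
    have e0 : ∀ x : B4, hH 0 x = 0 := by decide
    have h2 : y ∈ Sd γ P Q := mem_Sd.2 ⟨mem_Rd.2 ⟨h1, fun q hq => by
      have := hs q (Or.inr (Or.inr (mem_union_left _ hq)))
      rwa [if_pos hq, if_neg (disjoint_left.1 (djQ h) hq), h0, e0, add_zero, add_zero] at this,
      fun q hq => by
      have := hs q (Or.inr (Or.inr (mem_union_right _ hq)))
      rwa [if_pos hq, if_neg (disjoint_right.1 (djQ h) hq), h0, e0, add_zero, zero_add] at this⟩, h0⟩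
    rw [hS, Submodule.mem_bot] at h2
    refine hf (LinearMap.ext fun v => ?_)
    rw [hv, h2]
    simp

end ZDualAux

open ZDualAux

/-- the two systems are orthogonal at two and infinity -/
theorem iso8 {γ : X} {P Q : Finset ℕ} (h : Ok8 γ P Q) {y z : X} (hy : y ∈ Rd γ P Q)
    (hz : z ∈ Rd (ep + γ) Q P) : hH (st y) (st z) = 0 := by
  obtain ⟨y1, y2, y3⟩ := mem_Rd.1 hy
  obtain ⟨z1, z2, z3⟩ := mem_Rd.1 hz
  rw [Sg_ep] at z1 z2
  have h1 := pair h y1 z1
  rw [sum_eq_zero fun q hq => by rw [z2 q hq, mul_zero],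
    sum_eq_zero fun q hq => by rw [z3 q hq, mul_zero],
    sum_eq_zero fun q hq => by rw [y2 q hq, mul_zero],
    sum_eq_zero fun q hq => by rw [y3 q hq, mul_zero]] at h1
  simpa only [zero_add] using h1

theorem dual_ne {γ : X} {P Q : Finset ℕ} (h : Ok8 γ P Q) (hS : Sd γ P Q ≠ ⊥) :
    3 ≤ finrank (ZMod 2) (Rd (ep + γ) Q P) := by
  have h1 := rank_null h
  have h2 := Submodule.finrank_lt (mt (top_iff h).1 hS)
  omega

theorem dual_bot {γ : X} {P Q : Finset ℕ} (h : Ok8 γ P Q) (hS : Sd γ P Q = ⊥) :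
    finrank (ZMod 2) (Rd (ep + γ) Q P) ≤ 2 := by
  have h1 := rank_null h
  rw [(top_iff h).2 hS, finrank_top] at h1
  omega

theorem ex_out {γ : X} {P Q : Finset ℕ} (h : Ok8 γ P Q) (hS : Sd γ P Q ≠ ⊥) (k₀ k₁ : X) :
    ∃ z ∈ Rd (ep + γ) Q P, z ∉ K2 k₀ k₁ := by
  classical
  by_contra hn
  have h1 : Rd (ep + γ) Q P ≤ K2 k₀ k₁ := fun z hz => by_contra fun hz' => hn ⟨z, hz, hz'⟩
  have : FiniteDimensional (ZMod 2) (K2 k₀ k₁) :=
    FiniteDimensional.span_of_finite _ (Set.toFinite _)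
  have h2 := Submodule.finrank_mono h1
  have h3 : finrank (ZMod 2) (K2 k₀ k₁) ≤ 2 :=
    (finrank_span_le_card ({k₀, k₁} : Set X)).trans (by simpa using card_le_two)
  have h4 := dual_ne h hS
  omega

theorem span_of_bot {c : Fin 7 → X} {k : Fin 8 → X} {P Q : Finset ℕ} (h : Ok8 (∑ j, k j) P Q)
    (hK : Kn c k P Q) (hs : Star8 c k) (hS : Sd (∑ j, k j) P Q = ⊥) :
    (∀ y ∈ Rd (∑ j, k j) P Q, y ∈ K2 (∑ j, k j) (ka1 c k)) ∧
      ∀ z ∈ Rd (ep + ∑ j, k j) Q P, z ∈ K2 (ep + ∑ j, k j) (ka2 c k) := by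
  obtain ⟨s0, s1, s2⟩ := hs
  have s3 : st (ep + ∑ j, k j) = (1, 0, 0, 1) := by
    rw [map_add, st_ep, s0]
    decide
  refine ⟨fun y hy => ?_, fun z hz => ?_⟩
  · have a1 := iso8 h hy hK.h2
    have a2 := iso8 h hy hK.h3
    rw [s3] at a1
    rw [s2] at a2
    obtain ⟨w, w', e⟩ : ∃ w w' : ZMod 2, w • ((0, 0, 1, 1) : B4) + w' • (0, 0, 1, 0) = st y := by
      generalize st y = x at a1 a2
      revert x
      decide
    have h2 : w • ∑ j, k j + w' • ka1 c k - y ∈ Sd (∑ j, k j) P Q := mem_Sd.2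
      ⟨sub_mem (add_mem (Submodule.smul_mem _ _ hK.h0) (Submodule.smul_mem _ _ hK.h1)) hy, by
        rw [map_sub, map_add, map_smul, map_smul, s0, s1, e, sub_self]⟩
    rw [hS, Submodule.mem_bot, sub_eq_zero] at h2
    exact mem_K2.2 ⟨w, w', h2⟩
  · have li : LinearIndependent (ZMod 2) ![ep + ∑ j, k j, ka2 c k] :=
      LinearIndependent.pair_iff.2 fun s t e => by
        have := congrArg st e
        rw [map_add, map_smul, map_smul, s3, s2, map_zero] at this
        clear e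
        revert s t
        decide
    have h1 := finrank_span_eq_card li
    rw [Matrix.range_cons_cons_empty, Fintype.card_fin] at h1
    have h2 : K2 (ep + ∑ j, k j) (ka2 c k) ≤ Rd (ep + ∑ j, k j) Q P :=
      Submodule.span_le.2 (Set.pair_subset hK.h2 hK.h3)
    rw [Submodule.eq_of_le_of_finrank_le h2 ((dual_bot h hS).trans h1.ge)]
    exact hz

end Pool.Agent.Lib.MP_7d3fda_nt.R5
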