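import Pool.Agent.Lib.MP_7d3fda_nt.R5.ZDefs
import Pool.Agent.Lib.MP_7d3fda_nt.R3.XKum

open Finset Module
open scoped NumberTheorySymbols

noncomputable section

namespace Pool.Agent.Lib.MP_7d3fda_nt.R5

open Pool.Agent.Lib.MP_788af2_nt Pool.Agent.Lib.MP_7d3fda_nt.R2 Pool.Agent.Lib.MP_7d3fda_nt.R3

namespace ZInjAux

/-- the coefficients of the constants seen by the witnesses of the form `j` -/
def vc (e : ZMod 2) (t : Fin 8 → ZMod 2) (j : Fin 8) (i : Fin 7) : ZMod 2 :=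
  (if i = 0 then e * t j else 0) + ∑ l, (t l + t j) * (if (mn l j).testBit i then 1 else 0)

/-- the relation given by the forms `j` and `0` -/
def wc (e : ZMod 2) (t : Fin 8 → ZMod 2) (j : Fin 8) (i : Fin 7) : ZMod 2 :=
  vc e t j i + vc e t 0 i

theorem dec1 : ∀ a b c d e f g h : ZMod 2, ∑ j, ![a, b, c, d, e, f, g, h] j = 0 →
    (∃ α β : ZMod 2, ∀ j, ![a, b, c, d, e, f, g, h] j = α + β * ![1, 1, 0, 0, 1, 1, 0, 0] j) ∨
    (∃ j, wc 0 ![a, b, c, d, e, f, g, h] j 0 = 1) ∨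
    ∃ j, ∀ i, wc 0 ![a, b, c, d, e, f, g, h] j i = ![0, 0, 1, 1, 0, 0, 0] i := by
  decide +kernel

theorem dec2 : ∀ a b c d e f g h : ZMod 2, ∑ j, ![a, b, c, d, e, f, g, h] j = 0 →
    (∃ α β : ZMod 2, ∀ j, ![a, b, c, d, e, f, g, h] j = α + β * ![0, 0, 1, 1, 1, 1, 0, 0] j) ∨
    (∃ j, wc 1 ![a, b, c, d, e, f, g, h] j 0 = 1) ∨
    (∃ j, ∀ i, wc 1 ![a, b, c, d, e, f, g, h] j i = ![0, 0, 0, 0, 1, 1, 0] i) ∧
      ((∃ α β : ZMod 2, ∀ j, ![a, b, c, d, e, f, g, h] j =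
        α + β * ![0, 0, 1, 1, 1, 1, 0, 0] j + ![0, 1, 1, 0, 1, 0, 1, 0] j) ∨
      ∃ j, ∀ i, wc 1 ![a, b, c, d, e, f, g, h] j i = ![0, 0, 0, 0, 0, 0, 1] i) := by
  decide +kernel

theorem eta8 (t : Fin 8 → ZMod 2) : ![t 0, t 1, t 2, t 3, t 4, t 5, t 6, t 7] = t := by
  funext j
  fin_cases j <;> rfl

theorem vc_sum (e : ZMod 2) (t : Fin 8 → ZMod 2) (j : Fin 8) (c : Fin 7 → X) :
    ∑ i, vc e t j i • c i = (e * t j) • c 0 + ∑ l, (t l + t j) • dl8 c l j := by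
  have h : ∀ (a : ZMod 2) (b : Bool) (x : X),
      (a * if b then 1 else 0) • x = a • if b then x else 0 := fun a b x => by
    cases b <;> simp
  simp only [vc, dl8, smul_sum, ← h]
  rw [sum_comm, sum_congr rfl fun i _ => add_smul _ _ _, sum_add_distrib]
  simp only [ite_smul, zero_smul, sum_ite_eq', mem_univ, if_true, Finset.sum_smul]

theorem ga1 {c : Fin 7 → X} {k : Fin 8 → X} {y : X} (hy : y ∈ Ga1 c k) :
    ∃ γ ∈ Ga0 c, ∃ t : Fin 8 → ZMod 2, ∑ j, t j = 0 ∧ y = γ + ∑ j, t j • k j := by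
  obtain ⟨γ, hγ, w, hw, rfl⟩ := Submodule.mem_sup.1 hy
  suffices h : ∃ t : Fin 8 → ZMod 2, ∑ j, t j = 0 ∧ w = ∑ j, t j • k j by
    obtain ⟨t, h1, h2⟩ := h
    exact ⟨γ, hγ, t, h1, by rw [h2]⟩
  clear hy
  induction hw using Submodule.span_induction with
  | mem x hx =>
    obtain ⟨⟨a, b⟩, rfl⟩ := hx
    refine ⟨fun j => (if j = a then 1 else 0) + (if j = b then 1 else 0), ?_, ?_⟩
    · simp only [sum_add_distrib, sum_ite_eq', mem_univ, if_true]
      decide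
    · simp only [add_smul, sum_add_distrib, ite_smul, one_smul, zero_smul, sum_ite_eq', mem_univ,
        if_true]
  | zero => exact ⟨0, by simp, by simp⟩
  | add x y _ _ h1 h2 =>
    obtain ⟨t, a1, rfl⟩ := h1
    obtain ⟨t', a2, rfl⟩ := h2
    exact ⟨fun j => t j + t' j, by rw [sum_add_distrib, a1, a2, add_zero],
      by simp only [add_smul, sum_add_distrib]⟩
  | smul a x _ h1 =>
    obtain ⟨t, a1, rfl⟩ := h1
    exact ⟨fun j => a * t j, by rw [← mul_sum, a1, mul_zero], by simp only [smul_sum, mul_smul]⟩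

theorem c_mem (c : Fin 7 → X) (i : Fin 7) : c i ∈ Ga0 c := Submodule.subset_span ⟨i, rfl⟩

theorem sq_of_cl {n : ℤ} (hn : 0 < n) (h : cl n = 0) : IsSquare n :=
  isSquare_of_even_val hn fun p hp => qV_eq_zero.1 (by rw [← cl_prime_apply _ hp, h]; rfl)

variable {r s u v : ℤ} {P Q : Finset ℕ}

theorem ga0_val {p : ℕ} (hp : p.Prime) (hH : ¬(p : ℤ) ∣ H8 r s) {γ : X}
    (hγ : γ ∈ Ga0 (cn r s)) : γ p = 0 := by
  have h : Ga0 (cn r s) ≤ LinearMap.ker (Finsupp.lapply p) := by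
    rw [Ga0, Submodule.span_le]
    rintro _ ⟨i, rfl⟩
    change cl (cz8 r s i) p = 0
    rw [cl_prime_apply _ hp]
    exact TwistAux.qV_zero fun hd => hH (hd.trans (cz8_dvd r s i))
  exact h hγ

theorem kappa (hF : Fam8 r s P Q) {p : ℕ} (hp : p.Prime) (hH : ¬(p : ℤ) ∣ H8 r s) {j : Fin 8}
    (h1 : ∀ i, i ≠ j → ¬(p : ℤ) ∣ fm8 r s u v i) (h2 : (p : ℤ) ∣ fm8 r s u v j) :
    ∃ κ : ZMod 2, ∀ l, l ≠ j → qL p (fm8 r s u v l) = qL p (dz8 r s l j) + κ := by
  have hP := Nat.prime_iff_prime_int.1 hp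
  have n0 : ∀ i, i ≠ j → fm8 r s u v i ≠ 0 := fun i hi h => h1 i hi (h ▸ dvd_zero _)
  obtain ⟨m, hm⟩ := exists_ne j
  refine ⟨qL p (fm8 r s u v m) + qL p (dz8 r s m j), fun l hl => ?_⟩
  have h3 : qL p (dz8 r s m j * fm8 r s u v l) = qL p (dz8 r s l j * fm8 r s u v m) := by
    refine TableAux.qL_congr hp (fun hd => (hP.dvd_or_dvd hd).elim (dz8_prime hp hH m j) (h1 l hl))
      (Dvd.dvd.trans h2 ⟨be8 r s m * al8 r s l - be8 r s l * al8 r s m, ?_⟩)
    rw [← minor8 r s hm, ← minor8 r s hl, fm8_eq, fm8_eq, fm8_eq]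
    ring
  rw [isQF_qL hp _ _ (dz8_ne hF _ _) (n0 l hl), isQF_qL hp _ _ (dz8_ne hF _ _) (n0 m hm)] at h3
  have h4 : ∀ a b c d : ZMod 2, a + b = c + d → b = c + (d + a) := by decide
  exact h4 _ _ _ _ h3

theorem zero_wit (hF : Fam8 r s P Q) (hne : ∀ j, fm8 r s u v j ≠ 0) (hW : Wit8 r s u v)
    (e : ZMod 2) {γ : X} (hγ : γ ∈ Ga0 (cn r s)) {t : Fin 8 → ZMod 2} (ht : ∑ j, t j = 0)
    (h : ∀ q ∈ Sg (∑ j, kk8 r s u v j), Lq (e • ep + ∑ j, kk8 r s u v j) q
      (γ + ∑ j, t j • kk8 r s u v j) = 0) (j : Fin 8) :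
    γ + ∑ i, vc e t j i • cn r s i = 0 := by
  by_contra hne0
  obtain ⟨p, hp, hH, h1, h2, h3⟩ := hW j _ (add_mem hγ (Submodule.sum_mem _ fun i _ =>
    Submodule.smul_mem _ _ (c_mem _ i))) hne0
  have k1 : ∀ i, kk8 r s u v i p = if i = j then 1 else 0 := fun i => by
    rw [kk8, cl_prime_apply _ hp]
    split_ifs with hi
    · rw [hi, h2]
    · exact TwistAux.qV_zero (h1 i hi)
  have k2 : p ∈ Sg (∑ j, kk8 r s u v j) := by
    refine mem_Sg.2 ⟨hp.ne_zero, ?_, ?_⟩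
    · rintro rfl
      exact hH (cz8_dvd r s 1)
    · simp only [Finsupp.finsetSum_apply, k1, sum_ite_eq', mem_univ, if_true]
  obtain ⟨κ, hκ⟩ := kappa hF hp hH h1 (XKumAux.dvd_of_qV h2)
  have k3 := h p k2
  have k4 : (γ + ∑ j, t j • kk8 r s u v j) p = t j := by
    simp only [Finsupp.add_apply, Finsupp.finsetSum_apply, Finsupp.smul_apply, k1, smul_eq_mul,
      mul_ite, mul_one, mul_zero, sum_ite_eq', mem_univ, if_true, ga0_val hp hH hγ, zero_add]
  have k5 : ∀ l, lin (qL p) (kk8 r s u v l) = qL p (fm8 r s u v l) := fun l =>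
    lin_cl (isQF_qL hp) (hne l)
  have k6 : ∀ l, lin (qL p) (dl8 (cn r s) l j) = qL p (dz8 r s l j) := fun l => by
    rw [← cl_dz8 hF, lin_cl (isQF_qL hp) (dz8_ne hF _ _)]
  have k7 : ∑ l, (t l + t j) * qL p (fm8 r s u v l) = ∑ l, (t l + t j) * qL p (dz8 r s l j) := by
    have e1 : ∀ l, (t l + t j) * qL p (fm8 r s u v l) =
        (t l + t j) * qL p (dz8 r s l j) + (t l + t j) * κ := fun l => by
      by_cases hl : l = j
      · rw [hl, CharTwo.add_self_eq_zero, zero_mul, zero_mul, zero_mul, add_zero]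
      · rw [hκ l hl, mul_add]
    have e2 : ∀ x : ZMod 2, (8 : ℕ) • x = 0 := by decide
    simp only [e1, sum_add_distrib]
    rw [← sum_mul, sum_add_distrib, ht, sum_const, card_univ, Fintype.card_fin, e2, add_zero,
      zero_mul, add_zero]
  rw [Lq_apply, k4] at k3
  rw [vc_sum, cn_zero] at h3
  simp only [map_add, map_sum, map_smul, smul_eq_mul, k5, k6] at k3 h3
  rw [← k7] at h3
  simp only [add_mul, sum_add_distrib, ← mul_sum] at k3 h3
  have k8 : (1 : ZMod 2) = 0 := by linear_combination k3 - h3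
  exact one_ne_zero k8

theorem rel (hF : Fam8 r s P Q) (hne : ∀ j, fm8 r s u v j ≠ 0) (hW : Wit8 r s u v)
    (e : ZMod 2) {γ : X} (hγ : γ ∈ Ga0 (cn r s)) {t : Fin 8 → ZMod 2} (ht : ∑ j, t j = 0)
    (h : ∀ q ∈ Sg (∑ j, kk8 r s u v j), Lq (e • ep + ∑ j, kk8 r s u v j) q
      (γ + ∑ j, t j • kk8 r s u v j) = 0) (j : Fin 8) :
    ∑ i, wc e t j i • cn r s i = 0 ∧ wc e t j 0 ≠ 1 := by
  have h1 : ∑ i, wc e t j i • cn r s i = 0 := by
    have a := zero_wit hF hne hW e hγ ht h j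
    have b := zero_wit hF hne hW e hγ ht h 0
    have c := add_self γ
    simp only [wc, add_smul, sum_add_distrib]
    linear_combination (norm := module) a + b - c
  refine ⟨h1, fun h2 => ?_⟩
  have h3 := hF.s0
  have h4 := hF.sr
  have h5 : ∀ i, cn r s i 0 = if i = 0 then 1 else 0 := fun i => by
    rw [cn, cl_zero_apply, qS]
    have : 0 < r ^ 2 + s ^ 2 := by positivity
    fin_cases i <;> simp [cz8] <;> omega
  have h6 := congrArg (fun x : X => x 0) h1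
  simp only [Finsupp.finsetSum_apply, Finsupp.smul_apply, h5, smul_eq_mul, mul_ite, mul_one,
    mul_zero, sum_ite_eq', mem_univ, if_true, h2, Finsupp.zero_apply] at h6
  exact one_ne_zero h6

theorem zero_ga0 (hF : Fam8 r s P Q) (hne : ∀ j, fm8 r s u v j ≠ 0) (hW : Wit8 r s u v)
    (e : ZMod 2) {γ : X} (hγ : γ ∈ Ga0 (cn r s))
    (h : ∀ q ∈ Sg (∑ j, kk8 r s u v j), Lq (e • ep + ∑ j, kk8 r s u v j) q γ = 0) : γ = 0 := by
  have h1 := zero_wit hF hne hW e hγ (t := 0) (by simp) (by simpa using h) 0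
  simpa [vc] using h1

end ZInjAux

open ZInjAux in
theorem inj8 {r s u v : ℤ} {P Q : Finset ℕ} (hF : Fam8 r s P Q) (hI : Inv8 r s P Q u v)
    (hW : Wit8 r s u v) (hO : Ok8 (∑ j, kk8 r s u v j) P Q) (hK : Kn (cn r s) (kk8 r s u v) P Q)
    (h3 : P ≠ ∅ → ∀ q ∈ Sg (∑ j, kk8 r s u v j),
      Lq (ep + ∑ j, kk8 r s u v j) q (ka3 (cn r s) (kk8 r s u v)) = 0) :
    Inj8 (cn r s) (kk8 r s u v) P Q := by
  have s0 := hF.s0
  have sr := hF.sr
  have ne := cz8_ne hF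
  have ce : ep ∈ Ga0 (cn r s) := cn_zero r s ▸ c_mem _ 0
  constructor
  · intro y hy hG
    obtain ⟨γ, hγ, t, ht, rfl⟩ := ga1 hG
    obtain ⟨hR, hst⟩ := mem_Sd.1 hy
    have hr := rel hF hI.ne hW 0 hγ ht (by
      rw [zero_smul, zero_add]
      exact (mem_Rd.1 hR).2.1)
    have hd := dec1 (t 0) (t 1) (t 2) (t 3) (t 4) (t 5) (t 6) (t 7)
    rw [eta8] at hd
    rcases hd ht with ⟨α, β, hd⟩ | ⟨j, hd⟩ | ⟨j, hd⟩
    · have e1 : γ + ∑ j, t j • kk8 r s u v j - α • ∑ j, kk8 r s u v j -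
          β • ka1 (cn r s) (kk8 r s u v) = γ - β • (cn r s 2 + cn r s 3) := by
        simp only [hd, Fin.sum_univ_eight, ka1]
        simp only [Matrix.cons_val_zero, Matrix.cons_val_one, Matrix.cons_val]
        module
      have e2 := sub_mem (sub_mem hR (Submodule.smul_mem _ α hK.h0)) (Submodule.smul_mem _ β hK.h1)
      have e3 := e1.trans (zero_ga0 hF hI.ne hW 0 (sub_mem hγ (Submodule.smul_mem _ β
        (add_mem (c_mem _ 2) (c_mem _ 3)))) (by
          rw [← e1, zero_smul, zero_add]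
          exact (mem_Rd.1 e2).2.1))
      have e4 : γ + ∑ j, t j • kk8 r s u v j =
          α • ∑ j, kk8 r s u v j + β • ka1 (cn r s) (kk8 r s u v) := by
        linear_combination (norm := module) e3
      rw [e4, map_add, map_smul, map_smul, hI.star.1, hI.star.2.1] at hst
      have e5 : ∀ α β : ZMod 2, α • ((0, 0, 1, 1) : B4) + β • ((0, 0, 1, 0) : B4) = 0 →
          α = 0 ∧ β = 0 := by decide
      rw [e4, (e5 α β hst).1, (e5 α β hst).2, zero_smul, zero_smul, add_zero]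
    · exact absurd hd (hr j).2
    · have e1 := (hr j).1
      simp only [hd, Fin.sum_univ_seven, Matrix.cons_val_zero, Matrix.cons_val_one, Matrix.cons_val,
        zero_smul, one_smul, zero_add, add_zero] at e1
      exact absurd (sq_of_cl (mul_pos (s0.trans sr) s0) ((cl_mul (ne 2) (ne 3)).trans e1)) hF.nsq
  · intro z hz hG
    obtain ⟨γ, hγ, t, ht, rfl⟩ := ga1 hG
    have hS : ∀ {z}, z ∈ Rd (ep + ∑ j, kk8 r s u v j) Q P → ∀ q ∈ Sg (∑ j, kk8 r s u v j),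
        Lq ((1 : ZMod 2) • ep + ∑ j, kk8 r s u v j) q z = 0 := fun h q hq => by
      rw [one_smul]
      exact (mem_Rd.1 h).2.1 q (by rwa [Sg_ep])
    have hr := rel hF hI.ne hW 1 hγ ht (hS hz)
    have hd := dec2 (t 0) (t 1) (t 2) (t 3) (t 4) (t 5) (t 6) (t 7)
    rw [eta8] at hd
    have e2 : ∀ α β : ZMod 2, γ + ∑ j, t j • kk8 r s u v j - α • (ep + ∑ j, kk8 r s u v j) -
        β • ka2 (cn r s) (kk8 r s u v) ∈ Rd (ep + ∑ j, kk8 r s u v j) Q P := fun α β =>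
      sub_mem (sub_mem hz (Submodule.smul_mem _ α hK.h2)) (Submodule.smul_mem _ β hK.h3)
    have e0 : ∀ α β : ZMod 2, γ - α • ep - β • (cn r s 4 + cn r s 5) ∈ Ga0 (cn r s) := fun α β =>
      sub_mem (sub_mem hγ (Submodule.smul_mem _ α ce))
        (Submodule.smul_mem _ β (add_mem (c_mem _ 4) (c_mem _ 5)))
    rcases hd ht with ⟨α, β, hd⟩ | ⟨j, hd⟩ | ⟨⟨j, hd⟩, hd'⟩
    · have e1 : γ + ∑ j, t j • kk8 r s u v j - α • (ep + ∑ j, kk8 r s u v j) -
          β • ka2 (cn r s) (kk8 r s u v) = γ - α • ep - β • (cn r s 4 + cn r s 5) := by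
        simp only [hd, Fin.sum_univ_eight, ka2]
        simp only [Matrix.cons_val_zero, Matrix.cons_val_one, Matrix.cons_val]
        module
      have e3 := zero_ga0 hF hI.ne hW 1 (by rw [e1]; exact e0 α β) (hS (e2 α β))
      exact mem_K2.2 ⟨α, β, by linear_combination (norm := module) -e3⟩
    · exact absurd hd (hr j).2
    rcases hF.cas with ⟨-, -, hc⟩ | ⟨p, q, rfl, rfl, hp, -, p5, -, -, -, -, hc⟩
    · have e1 := (hr j).1
      simp only [hd, Fin.sum_univ_seven, Matrix.cons_val_zero, Matrix.cons_val_one, Matrix.cons_val,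
        zero_smul, one_smul, zero_add, add_zero] at e1
      exact absurd (sq_of_cl (n := (r + s) * (r - s)) (mul_pos (by omega) (by omega))
        ((cl_mul (ne 4) (ne 5)).trans e1)) hc
    rcases hd' with ⟨α, β, hd'⟩ | ⟨j, hd'⟩
    · have e1 : γ + ∑ j, t j • kk8 r s u v j - α • (ep + ∑ j, kk8 r s u v j) -
          β • ka2 (cn r s) (kk8 r s u v) - ka3 (cn r s) (kk8 r s u v) =
          γ - α • ep - β • (cn r s 4 + cn r s 5) - (cn r s 0 + cn r s 2 + cn r s 4) := by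
        simp only [hd', Fin.sum_univ_eight, ka2, ka3]
        simp only [Matrix.cons_val_zero, Matrix.cons_val_one, Matrix.cons_val]
        module
      have e3 := e1.trans (zero_ga0 hF hI.ne hW 1 (sub_mem (e0 α β)
        (add_mem (add_mem (c_mem _ 0) (c_mem _ 2)) (c_mem _ 4))) fun q' hq' => by
          rw [← e1, map_sub, hS (e2 α β) q' hq', one_smul, h3 (singleton_ne_empty p) q' hq',
            sub_zero])
      have e4 := (mem_Rd.1 (e2 α β)).1
      rw [sub_eq_zero.1 e3, Sg_ep] at e4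
      have e5 := mem_Sup.1 e4 p hp.ne_zero (by omega) fun hm => by
        rcases mem_union.1 hm with hm | hm
        · exact zero_ne_one ((hO.dP p (mem_singleton_self p)).symm.trans (mem_Sg.1 hm).2.2)
        · exact disjoint_left.1 hO.dPQ (mem_singleton_self p) hm
      exact absurd (e5.symm.trans (hI.hP p (mem_singleton_self p)).2) zero_ne_one
    · have e1 := (hr j).1
      simp only [hd', Fin.sum_univ_seven, Matrix.cons_val_zero, Matrix.cons_val_one,
        Matrix.cons_val, zero_smul, one_smul, zero_add, add_zero] at e1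
      exact absurd (sq_of_cl (n := r ^ 2 + s ^ 2) (by positivity) e1) hc

end Pool.Agent.Lib.MP_7d3fda_nt.R5
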