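import Pool.Agent.Lib.MP_7d3fda_nt.R5.ZGeo
import Pool.Agent.Lib.MP_7d3fda_nt.R5.ZDual
import Pool.Agent.Lib.MP_7d3fda_nt.R5.ZBase
import Pool.Agent.Lib.MP_7d3fda_nt.R5.ZInj
import Pool.Agent.Lib.MP_7d3fda_nt.R5.BCount

open Finset Module

noncomputable section

namespace Pool.Agent.Lib.MP_7d3fda_nt.R5

open Pool.Agent.Lib.MP_788af2_nt Pool.Agent.Lib.MP_7d3fda_nt.R2 Pool.Agent.Lib.MP_7d3fda_nt.R3

namespace ZCoreAux

theorem ex_eta {Γ : Submodule (ZMod 2) X} {y z : X} (hy : y ∉ Γ) (hz : z ∉ Γ) :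
    ∃ η : X →ₗ[ZMod 2] ZMod 2, (∀ γ ∈ Γ, η γ = 0) ∧ η y ≠ 0 ∧ η z ≠ 0 := by
  obtain ⟨f, hf, hk⟩ := Submodule.exists_le_ker_of_notMem hy
  obtain ⟨g, hg, hl⟩ := Submodule.exists_le_ker_of_notMem hz
  by_cases h1 : f z = 0
  · by_cases h2 : g y = 0
    · refine ⟨f + g, fun γ hγ => ?_, ?_, ?_⟩
      · rw [LinearMap.add_apply, LinearMap.mem_ker.1 (hk hγ), LinearMap.mem_ker.1 (hl hγ), add_zero]
      · rwa [LinearMap.add_apply, h2, add_zero]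
      · rwa [LinearMap.add_apply, h1, zero_add]
    · exact ⟨g, fun γ hγ => hl hγ, h2, hg⟩
  · exact ⟨f, fun γ hγ => hk hγ, hf, h1⟩

theorem step_lt {S R S' : Submodule (ZMod 2) X} [FiniteDimensional (ZMod 2) S]
    {η : X →ₗ[ZMod 2] ZMod 2} (h : Step8 S R S' η) {y z : X} (hy : y ∈ S) (hz : z ∈ R)
    (h1 : η y ≠ 0) (h2 : η z ≠ 0) : finrank (ZMod 2) S' < finrank (ZMod 2) S := by
  obtain ⟨ρ, cf, a, b⟩ := h
  have c : ∀ x ∈ S', ρ x ∈ S ∧ η (ρ x) = 0 ∧ (ρ x = 0 → x = 0) :=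
    fun x hx => b x hx ((mul_eq_zero.1 (a x hx z hz)).resolve_right h2)
  have lt : S ⊓ LinearMap.ker η < S := lt_of_le_of_ne inf_le_left fun e => h1 (e.ge hy).2
  have : FiniteDimensional (ZMod 2) (S ⊓ LinearMap.ker η : Submodule (ZMod 2) X) :=
    Submodule.finiteDimensional_of_le lt.le
  refine lt_of_le_of_lt (LinearMap.finrank_le_finrank_of_injective
    (f := ρ.restrict (p := S') (q := S ⊓ LinearMap.ker η) fun x hx => ⟨(c x hx).1, (c x hx).2.1⟩)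
    ((injective_iff_map_eq_zero _).2 fun x hx => Subtype.ext ?_))
    (Submodule.finrank_lt_finrank_of_lt lt)
  exact (c x.1 x.2).2.2 (congrArg Subtype.val hx)

/-- a position all of whose moves end at a trivial group -/
theorem last {r s : ℤ} {P Q : Finset ℕ} (hF : Fam8 r s P Q) :
    ∃ u v, Inv8 r s P Q u v ∧ Inj8 (cn r s) (kk8 r s u v) P Q ∧
      ∃ η : X →ₗ[ZMod 2] ZMod 2, (∀ γ ∈ Ga1 (cn r s) (kk8 r s u v), η γ = 0) ∧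
        ∀ u' v', Inv8 r s P Q u' v' → Inj8 (cn r s) (kk8 r s u' v') P Q →
          Step8 (Sd (∑ j, kk8 r s u v j) P Q) (Rd (ep + ∑ j, kk8 r s u v j) Q P)
            (Sd (∑ j, kk8 r s u' v' j) P Q) η → Sd (∑ j, kk8 r s u' v' j) P Q = ⊥ := by
  by_cases h : ∃ n u v, Inv8 r s P Q u v ∧ Inj8 (cn r s) (kk8 r s u v) P Q ∧
      Sd (∑ j, kk8 r s u v j) P Q ≠ ⊥ ∧ finrank (ZMod 2) (Sd (∑ j, kk8 r s u v j) P Q) = n
  · obtain ⟨n, ⟨u, v, hI, hJ, hS, hn⟩, hmin⟩ := wellFounded_lt.has_min (α := ℕ) _ h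
    obtain ⟨y, hy, y0⟩ := (Submodule.ne_bot_iff _).1 hS
    obtain ⟨z, hz, z0⟩ := ex_out (ok8 hF hI) hS (ep + ∑ j, kk8 r s u v j)
      (ka2 (cn r s) (kk8 r s u v))
    obtain ⟨η, h0, h1, h2⟩ := ex_eta (fun e => y0 (hJ.i1 y hy e)) fun e => z0 (hJ.i2 z hz e)
    refine ⟨u, v, hI, hJ, η, h0, fun u' v' hI' hJ' hs => by_contra fun hS' => ?_⟩
    exact hmin _ ⟨u', v', hI', hJ', hS', rfl⟩ (hn ▸ step_lt hs hy hz h1 h2)
  · obtain ⟨u, v, hI, hW⟩ := base8 hF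
    exact ⟨u, v, hI, inj8 hF hI hW (ok8 hF hI) (kn8 hF hI).1 (kn8 hF hI).2, 0, fun _ _ => rfl,
      fun u' v' hI' hJ' _ => by_contra fun hS' => h ⟨_, u', v', hI', hJ', hS', rfl⟩⟩

end ZCoreAux

theorem core8 : Core8 := by
  intro r s N P Q hF N0
  obtain ⟨u, v, hI, hJ, η, hη, hl⟩ := ZCoreAux.last hF
  obtain ⟨c, W₀, w, qq, sg, h1, h2, h3, h4, h5⟩ := move8 hF hI hJ N0 η hη
  obtain ⟨d, t, hd, t0, e⟩ := exists_sqfree (prod_ne_zero_iff.2 fun j (_ : j ∈ univ) => hI.ne j)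
  refine ⟨d, hd.ne_zero, fun d₁ d1 p hp =>
    count8 c h1 W₀ h2 w h3 h4 qq sg d₁ d1 p fun a b h6 => ?_⟩
  obtain ⟨u', v', h7, h8, h9, h10, h11, h12⟩ := h5 a b h6
  have dv : d ∣ ∏ j, fm8 r s u v j := e ▸ Dvd.intro_left _ rfl
  have e' : ∏ j, fm8 r s u' v' j = t ^ 2 * (d * ∏ j, (a + c j * b)) := by
    simp only [h10, prod_mul_distrib, e]
    ring
  obtain ⟨k1, k2⟩ := span_of_bot (ok8 hF h7) (kn8 hF h7).1 h7.star (hl u' v' h7 h8 h9)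
  exact hp _ h11 (fun d' k1 k2 => h12 d' k1 (k2.trans (mul_dvd_mul_left _ dv)))
    (rank8 hF h7 (h12 _ hd (dv.mul_left _)) e' k1 k2)

end Pool.Agent.Lib.MP_7d3fda_nt.R5
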