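import Pool.Agent.Lib.MP_7d3fda_nt.R3.XHil

open Finset

noncomputable section

namespace Pool.Agent.Lib.MP_7d3fda_nt.R5

open Pool.Agent.Lib.MP_788af2_nt Pool.Agent.Lib.MP_7d3fda_nt.R3

/-! Working definitions for the curves `y^2 = x (x - d r^2) (x - d s^2)` (none of them occurs in
the final statement). -/

/-- the local condition at a prime of the twisting parameter -/
def Lq (γ : X) (q : ℕ) : X →ₗ[ZMod 2] ZMod 2 :=
  lin (qL q) + lin (qL q) γ • Finsupp.lapply q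

/-- multiples of `γ` at the primes of `γ`, free at `P`, at two and at infinity, trivial at `Q` -/
def Rd (γ : X) (P Q : Finset ℕ) : Submodule (ZMod 2) X :=
  (Sup (Sg γ ∪ P) ⊓ ⨅ q ∈ Sg γ, LinearMap.ker (Lq γ q)) ⊓ ⨅ q ∈ Q, LinearMap.ker (lin (qL q))

/-- the same, trivial at two and at infinity -/
def Sd (γ : X) (P Q : Finset ℕ) : Submodule (ZMod 2) X := Rd γ P Q ⊓ LinearMap.ker st

/-- admissible data -/
structure Ok8 (γ : X) (P Q : Finset ℕ) : Prop where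
  odd : OddP (Sg γ)
  oP : OddP P
  oQ : OddP Q
  dP : ∀ p ∈ P, γ p = 0
  dQ : ∀ q ∈ Q, γ q = 0
  dPQ : Disjoint P Q
  card : P.card = Q.card

/-- the first known class -/
def ka1 {V : Type} [Add V] (c : Fin 7 → V) (k : Fin 8 → V) : V := c 2 + c 3 + k 0 + k 1 + k 4 + k 5

/-- the second known class -/
def ka2 {V : Type} [Add V] (c : Fin 7 → V) (k : Fin 8 → V) : V := c 4 + c 5 + k 2 + k 3 + k 4 + k 5

/-- the exceptional class -/
def ka3 {V : Type} [Add V] (c : Fin 7 → V) (k : Fin 8 → V) : V :=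
  c 0 + c 2 + c 4 + k 1 + k 2 + k 4 + k 6

/-- the known classes satisfy the local conditions -/
structure Kn (c : Fin 7 → X) (k : Fin 8 → X) (P Q : Finset ℕ) : Prop where
  h0 : ∑ j, k j ∈ Rd (∑ j, k j) P Q
  h1 : ka1 c k ∈ Rd (∑ j, k j) P Q
  h2 : ep + ∑ j, k j ∈ Rd (ep + ∑ j, k j) Q P
  h3 : ka2 c k ∈ Rd (ep + ∑ j, k j) Q P

/-- the classes at two and at infinity -/
def Star8 (c : Fin 7 → X) (k : Fin 8 → X) : Prop :=
  st (∑ j, k j) = (0, 0, 1, 1) ∧ st (ka1 c k) = (0, 0, 1, 0) ∧ st (ka2 c k) = (1, 0, 0, 0)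

/-- the span of the constants -/
def Ga0 (c : Fin 7 → X) : Submodule (ZMod 2) X := Submodule.span (ZMod 2) (Set.range c)

/-- the span of the constants and the products of two values -/
def Ga1 (c : Fin 7 → X) (k : Fin 8 → X) : Submodule (ZMod 2) X :=
  Ga0 c ⊔ Submodule.span (ZMod 2) (Set.range fun t : Fin 8 × Fin 8 => k t.1 + k t.2)

/-- the span of the two known classes of the second system -/
def K2 (k₀ k₁ : X) : Submodule (ZMod 2) X := Submodule.span (ZMod 2) {k₀, k₁}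

/-- no unexpected class is a combination of constants and values -/
structure Inj8 (c : Fin 7 → X) (k : Fin 8 → X) (P Q : Finset ℕ) : Prop where
  i1 : ∀ y ∈ Sd (∑ j, k j) P Q, y ∈ Ga1 c k → y = 0
  i2 : ∀ z ∈ Rd (ep + ∑ j, k j) Q P, z ∈ Ga1 c k → z ∈ K2 (ep + ∑ j, k j) (ka2 c k)

/-- the family of curves, normalised -/
structure Fam8 (r s : ℤ) (P Q : Finset ℕ) : Prop where
  s0 : 0 < s
  sr : s < r
  cop : IsCoprime r s
  par : (r + s) % 2 = 1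
  nsq : ¬IsSquare (r * s)
  cas : (P = ∅ ∧ Q = ∅ ∧ ¬IsSquare ((r + s) * (r - s))) ∨
    ∃ p q : ℕ, P = {p} ∧ Q = {q} ∧ p.Prime ∧ q.Prime ∧ 5 ≤ p ∧ (p : ℤ) ∣ r ∧ (q : ℤ) ∣ r + s ∧
      IsSquare (r + s) ∧ IsSquare (r - s) ∧ ¬IsSquare (r ^ 2 + s ^ 2)

/-- the eight linear forms -/
def fm8 (r s u v : ℤ) : Fin 8 → ℤ :=
  ![u + v, v, u, u + 2 * v, (r + s) * u + 2 * s * v, (r - s) * u + 2 * r * v, s * u - (r - s) * v,
    r * u + (r + s) * v]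

/-- the bad number -/
def H8 (r s : ℤ) : ℤ := 2 * r * s * (r + s) * (r - s) * (r ^ 2 + s ^ 2)

/-- the constants -/
def cz8 (r s : ℤ) : Fin 7 → ℤ := ![-1, 2, r, s, r + s, r - s, r ^ 2 + s ^ 2]

/-- the classes of the constants -/
def cn (r s : ℤ) (i : Fin 7) : X := cl (cz8 r s i)

/-- the classes of the eight values -/
def kk8 (r s u v : ℤ) (j : Fin 8) : X := cl (fm8 r s u v j)

/-- the invariant of a position -/
structure Inv8 (r s : ℤ) (P Q : Finset ℕ) (u v : ℤ) : Prop where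
  ne : ∀ j, fm8 r s u v j ≠ 0
  sig : ∀ q : ℕ, q.Prime → q ≠ 2 → (q : ℤ) ∣ r * s * (r + s) * (r - s) →
    q ∈ P ∨ q ∈ Q ∨ (∑ j, kk8 r s u v j) q = 1
  hP : ∀ p ∈ P, lr p (ep + ∑ j, kk8 r s u v j) = 0 ∧ ka3 (cn r s) (kk8 r s u v) p = 1
  hQ : ∀ q ∈ Q, lr q (∑ j, kk8 r s u v j) = 0
  star : Star8 (cn r s) (kk8 r s u v)
  wit : ∃ w : Fin 8 → ℕ, ∀ j, (w j).Prime ∧ ¬(w j : ℤ) ∣ H8 r s ∧
    ∀ i, kk8 r s u v i (w j) = if i = j then 1 else 0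

/-- witnesses that separate the constants on every form -/
def Wit8 (r s u v : ℤ) : Prop :=
  ∀ j, ∀ γ ∈ Ga0 (cn r s), γ ≠ 0 → ∃ p : ℕ, p.Prime ∧ ¬(p : ℤ) ∣ H8 r s ∧
    (∀ i, i ≠ j → ¬(p : ℤ) ∣ fm8 r s u v i) ∧ qV p (fm8 r s u v j) = 1 ∧ lin (qL p) γ = 1

/-- what one move does -/
def Step8 (S R S' : Submodule (ZMod 2) X) (η : X →ₗ[ZMod 2] ZMod 2) : Prop :=
  ∃ (ρ : X →ₗ[ZMod 2] X) (cf : X →ₗ[ZMod 2] ZMod 2),
    (∀ y ∈ S', ∀ z ∈ R, cf y * η z = 0) ∧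
    ∀ y ∈ S', cf y = 0 → ρ y ∈ S ∧ η (ρ y) = 0 ∧ (ρ y = 0 → y = 0)

/-- the coefficients of `u` -/
def al8 (r s : ℤ) : Fin 8 → ℤ := ![1, 0, 1, 1, r + s, r - s, s, r]

/-- the coefficients of `v` -/
def be8 (r s : ℤ) : Fin 8 → ℤ := ![1, 1, 0, 2, 2 * s, 2 * r, -(r - s), r + s]

/-- the minors of the eight forms, as sets of constants -/
def mn : Fin 8 → Fin 8 → ℕ :=
  ![![0, 1, 0, 1, 32, 17, 4, 9], ![0, 0, 0, 0, 16, 32, 8, 4], ![1, 1, 0, 3, 11, 7, 32, 17],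
    ![0, 1, 2, 0, 6, 11, 16, 32], ![33, 17, 10, 7, 0, 67, 64, 65], ![16, 33, 6, 10, 66, 0, 64, 64],
    ![5, 9, 33, 17, 65, 65, 0, 65], ![8, 5, 16, 33, 64, 65, 64, 0]]

/-- the class of a minor -/
def dl8 {V : Type} [AddCommMonoid V] (a : Fin 7 → V) (i j : Fin 8) : V :=
  ∑ t : Fin 7, if (mn i j).testBit t then a t else 0

/-- the value of a minor -/
def dz8 (r s : ℤ) (i j : Fin 8) : ℤ := ∏ t : Fin 7, if (mn i j).testBit t then cz8 r s t else 1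

/-- what the arithmetic part proves -/
def Core8 : Prop :=
  ∀ (r s N : ℤ) (P Q : Finset ℕ), Fam8 r s P Q → N ≠ 0 →
    ∃ d₀ : ℤ, d₀ ≠ 0 ∧ ∀ d₁ : ℤ, d₁ ≠ 0 → ∀ p : ℤ → Prop,
      (∀ g, g % 4 = 1 → (∀ d, Squarefree d → d ∣ N * d₀ → Squarefree (d * g)) →
        Module.rank ℤ (cvE ![0, d₀ * g * r ^ 2, d₀ * g * s ^ 2]).Point = 2 → p (d₁ * g)) →
      ∃ κ : ℝ, 0 < κ ∧ ∃ D₀ : ℝ, ∀ D : ℝ, D₀ ≤ D →
        κ * D ^ (1 / 4 : ℝ) / Real.log D ^ 8 ≤ (Set.ncard {d : ℤ | |(d : ℝ)| ≤ D ∧ p d} : ℝ)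

theorem Lq_apply (γ : X) (q : ℕ) (y : X) : Lq γ q y = lin (qL q) y + lin (qL q) γ * y q := rfl

theorem mem_Rd {γ y : X} {P Q : Finset ℕ} : y ∈ Rd γ P Q ↔
    y ∈ Sup (Sg γ ∪ P) ∧ (∀ q ∈ Sg γ, Lq γ q y = 0) ∧ ∀ q ∈ Q, lin (qL q) y = 0 := by
  simp only [Rd, Submodule.mem_inf, Submodule.mem_iInf, LinearMap.mem_ker, and_assoc]

theorem mem_Sd {γ y : X} {P Q : Finset ℕ} : y ∈ Sd γ P Q ↔ y ∈ Rd γ P Q ∧ st y = 0 := by
  rw [Sd, Submodule.mem_inf, LinearMap.mem_ker]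

theorem mem_K2 {k₀ k₁ z : X} : z ∈ K2 k₀ k₁ ↔ ∃ w w' : ZMod 2, w • k₀ + w' • k₁ = z :=
  Submodule.mem_span_pair

theorem Sg_ep (γ : X) : Sg (ep + γ) = Sg γ := by
  ext q
  rw [mem_Sg, mem_Sg]
  refine and_congr_right fun h0 => and_congr_right fun _ => ?_
  rw [Finsupp.add_apply, ep, Finsupp.single_eq_of_ne h0, zero_add]

instance (γ : X) (P Q : Finset ℕ) : FiniteDimensional (ZMod 2) (Rd γ P Q) :=
  Submodule.finiteDimensional_of_le (S₂ := Sup (Sg γ ∪ P)) (inf_le_left.trans inf_le_left)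

instance (γ : X) (P Q : Finset ℕ) : FiniteDimensional (ZMod 2) (Sd γ P Q) :=
  Submodule.finiteDimensional_of_le (S₂ := Rd γ P Q) inf_le_left

theorem fm8_eq (r s u v : ℤ) (j : Fin 8) : fm8 r s u v j = al8 r s j * u + be8 r s j * v := by
  fin_cases j <;> simp [fm8, al8, be8]
  ring

theorem minor8 (r s : ℤ) {i j : Fin 8} (hij : i ≠ j) :
    be8 r s i * al8 r s j - be8 r s j * al8 r s i = dz8 r s i j := by
  fin_cases i <;> fin_cases j <;> first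
    | exact absurd rfl hij
    | (simp [be8, al8, dz8, mn, cz8, Fin.prod_univ_seven, Nat.testBit] <;> ring)

theorem cn_zero (r s : ℤ) : cn r s 0 = ep := cl_neg_one

theorem cz8_ne {r s : ℤ} {P Q : Finset ℕ} (hF : Fam8 r s P Q) (t : Fin 7) : cz8 r s t ≠ 0 := by
  have h1 := hF.s0
  have h2 := hF.sr
  fin_cases t <;> simp [cz8] <;> first | omega | positivity

theorem cz8_dvd (r s : ℤ) (t : Fin 7) : cz8 r s t ∣ H8 r s := by
  fin_cases t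
  · exact neg_dvd.2 (one_dvd _)
  · exact ⟨r * s * (r + s) * (r - s) * (r ^ 2 + s ^ 2), by simp [cz8, H8]; ring⟩
  · exact ⟨2 * s * (r + s) * (r - s) * (r ^ 2 + s ^ 2), by simp [cz8, H8]; ring⟩
  · exact ⟨2 * r * (r + s) * (r - s) * (r ^ 2 + s ^ 2), by simp [cz8, H8]; ring⟩
  · exact ⟨2 * r * s * (r - s) * (r ^ 2 + s ^ 2), by simp [cz8, H8]; ring⟩
  · exact ⟨2 * r * s * (r + s) * (r ^ 2 + s ^ 2), by simp [cz8, H8]; ring⟩
  · exact ⟨2 * r * s * (r + s) * (r - s), by simp [cz8, H8]; ring⟩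

theorem dz8_ne {r s : ℤ} {P Q : Finset ℕ} (hF : Fam8 r s P Q) (i j : Fin 8) : dz8 r s i j ≠ 0 :=
  prod_ne_zero_iff.2 fun t _ => by
    split_ifs
    exacts [cz8_ne hF t, one_ne_zero]

theorem cl_dz8 {r s : ℤ} {P Q : Finset ℕ} (hF : Fam8 r s P Q) (i j : Fin 8) :
    cl (dz8 r s i j) = dl8 (cn r s) i j := by
  rw [dz8, cl_prod _ _ fun t _ => by
    split_ifs
    exacts [cz8_ne hF t, one_ne_zero]]
  refine sum_congr rfl fun t _ => ?_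
  split_ifs
  exacts [rfl, cl_one]

theorem dz8_prime {r s : ℤ} {p : ℕ} (hp : p.Prime) (h : ¬(p : ℤ) ∣ H8 r s) (i j : Fin 8) :
    ¬(p : ℤ) ∣ dz8 r s i j := fun hd => by
  obtain ⟨t, -, ht⟩ := (Prime.dvd_finsetProd_iff (Nat.prime_iff_prime_int.1 hp) _).1 hd
  split_ifs at ht
  exacts [h (ht.trans (cz8_dvd r s t)), (Nat.prime_iff_prime_int.1 hp).not_dvd_one ht]

end Pool.Agent.Lib.MP_7d3fda_nt.R5
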