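import Pool.Agent.Lib.MP_7d3fda_nt.R5.ZDefs

open Finset Module
open scoped NumberTheorySymbols

noncomputable section

namespace Pool.Agent.Lib.MP_7d3fda_nt.R5

open Pool.Agent.Lib.MP_788af2_nt Pool.Agent.Lib.MP_7d3fda_nt.R2 Pool.Agent.Lib.MP_7d3fda_nt.R3

/-- the linear algebra of a move; `N i l j k` is the symbol of the prime `(i, l)` at `(j, k)` -/
theorem diag8 (N : Fin 8 → Fin 8 → Fin 8 → Fin 8 → ZMod 2) (σ : Fin 8 → Fin 8 → ZMod 2)
    (h0 : ∀ j k, N j k j k = 0) (hs : ∀ i l j k, N i l j k = N j k i l)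
    (hth : ∀ j k l, N j l j k = N 0 l 0 k)
    (hq : ∀ i j, i ≠ j → ∀ k l, k ≠ 7 → l ≠ 7 →
      N i l j k = if k = l then ∑ m, N 0 m 0 k else N 0 l 0 k)
    (hσ : ∀ j k, k ≠ 7 → σ j k = if j = 7 then 0 else 1)
    (hr : ∀ i j k, i ≠ j →
      ∑ l, N i l j k = (if i = k then 1 else 0) + (if j = k then 1 else 0) + σ j k)
    (c : Fin 8 → ZMod 2) (z : Fin 8 → Fin 8 → ZMod 2)
    (hE : ∀ j k, c k + ∑ i, ∑ l, N i l j k * z i l = z j k * (1 + ∑ i, ∑ l, N i l j k)) :
    (∀ k, ∑ j, z j k = ∑ j, z j 0) ∧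
      (∑ j, z j 0 = 0 → ∑ k, c k = 0 ∧ ∀ j k, z j k = c j) := by
  have h2 : ∀ x : ZMod 2, x + x = 0 := CharTwo.add_self_eq_zero
  have two : (2 : ZMod 2) = 0 := rfl
  obtain ⟨Θ, hΘ⟩ : ∃ Θ : Fin 8 → ZMod 2, ∀ k, ∑ m, N 0 m 0 k = Θ k := ⟨_, fun _ => rfl⟩
  have hR : ∀ i j k, ∑ l, N i l j k = (if i = k then 1 else 0) + (if j = k then 1 else 0) + σ j k
      + (if i = j then Θ k + σ j k else 0) := by
    intro i j k
    by_cases hij : i = j
    · subst hij
      rw [if_pos rfl, h2, Finset.sum_congr rfl fun l _ => hth i k l, hΘ]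
      linear_combination (-σ i k) * two
    · rw [if_neg hij, add_zero, hr i j k hij]
  have hW : ∀ (w : Fin 8 → ZMod 2) j k, ∑ i, w i = 0 →
      ∑ i, w i * ∑ l, N i l j k = w k + w j * (Θ k + σ j k) := by
    intro w j k hw
    have e : ∀ i, w i * ∑ l, N i l j k = (if i = k then w i else 0)
        + w i * ((if j = k then 1 else 0) + σ j k)
        + (if i = j then w i * (Θ k + σ j k) else 0) := by
      intro i
      rw [hR]
      split_ifs <;> ring
    rw [Finset.sum_congr rfl fun i _ => e i, Finset.sum_add_distrib, Finset.sum_add_distrib,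
      ← Finset.sum_mul, hw, Finset.sum_ite_eq', Finset.sum_ite_eq']
    simp
  have hE' : ∀ j k, c k + ∑ i, ∑ l, N i l j k * z i l = z j k * (Θ k + σ j k) := by
    intro j k
    have h1 := hW (fun _ => 1) j k (by decide)
    simp only [one_mul] at h1
    rw [hE, h1, ← add_assoc, h2, zero_add]
  have hA : ∀ j, ∑ i, z i j = ∑ k, c k + ∑ i, (z i i + ∑ l, z i l * σ i l) := by
    intro j
    have h1 : ∑ k, (c k + ∑ i, ∑ l, N i l j k * z i l) = ∑ k, z j k * (Θ k + σ j k) :=
      Finset.sum_congr rfl fun k _ => hE' j k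
    have h3 : ∑ k, ∑ i, ∑ l, N i l j k * z i l = ∑ i, ∑ l, z i l * ∑ k, N j k i l := by
      rw [Finset.sum_comm]
      refine Finset.sum_congr rfl fun i _ => ?_
      rw [Finset.sum_comm]
      refine Finset.sum_congr rfl fun l _ => ?_
      rw [Finset.mul_sum]
      exact Finset.sum_congr rfl fun k _ => by rw [hs i l j k, mul_comm]
    have h4 : ∀ i, ∑ l, z i l * ∑ k, N j k i l = z i j + (z i i + ∑ l, z i l * σ i l)
        + (if j = i then ∑ l, z i l * (Θ l + σ i l) else 0) := by
      intro i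
      have e : ∀ l, z i l * ∑ k, N j k i l = (if j = l then z i l else 0)
          + ((if i = l then z i l else 0) + z i l * σ i l)
          + (if j = i then z i l * (Θ l + σ i l) else 0) := by
        intro l
        rw [hR]
        split_ifs <;> ring
      rw [Finset.sum_congr rfl fun l _ => e l, Finset.sum_add_distrib, Finset.sum_add_distrib,
        Finset.sum_add_distrib, Finset.sum_ite_eq, Finset.sum_ite_eq]
      by_cases hji : j = i <;> simp [hji]
    rw [Finset.sum_add_distrib, h3, Finset.sum_congr rfl fun i _ => h4 i, Finset.sum_add_distrib,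
      Finset.sum_add_distrib, Finset.sum_ite_eq, if_pos (Finset.mem_univ _)] at h1
    linear_combination h1 - (∑ k, c k + ∑ i, (z i i + ∑ l, z i l * σ i l)) * two
  refine ⟨fun k => by rw [hA k, hA 0], fun hz => ?_⟩
  have hτ : ∀ k, ∑ j, z j k = 0 := fun k => by rw [hA k, ← hA 0, hz]
  obtain ⟨y, hy⟩ : ∃ y : Fin 8 → Fin 8 → ZMod 2, ∀ j k, y j k = z j k + z j 7 :=
    ⟨_, fun _ _ => rfl⟩
  have hy0 : ∀ k, ∑ j, y j k = 0 := fun k => by
    rw [Finset.sum_congr rfl fun j _ => hy j k, Finset.sum_add_distrib, hτ, hτ, add_zero]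
  have hy7 : ∀ j, y j 7 = 0 := fun j => by rw [hy, h2]
  have hC : ∀ j k, c k + z k 7 + ∑ i, ∑ l, N i l j k * y i l = y j k * (Θ k + σ j k) := by
    intro j k
    have h1 := hW (fun i => z i 7) j k (hτ 7)
    have h3 : ∑ i, ∑ l, N i l j k * y i l
        = ∑ i, ∑ l, N i l j k * z i l + ∑ i, z i 7 * ∑ l, N i l j k := by
      rw [← Finset.sum_add_distrib]
      refine Finset.sum_congr rfl fun i _ => ?_
      rw [Finset.mul_sum, ← Finset.sum_add_distrib]
      exact Finset.sum_congr rfl fun l _ => by rw [hy]; ring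
    rw [h3, h1, hy]
    linear_combination hE' j k + z k 7 * two
  have hD : ∀ j k, k ≠ 7 → ∑ i, ∑ l, N i l j k * y i l = y j k * Θ k := by
    intro j k hk
    have h1 : ∀ l, ∑ i, N i l j k * y i l = if k = l then y j l * Θ k else 0 := by
      intro l
      by_cases hl : l = 7
      · subst hl
        simp [hy7]
      have e : ∀ i, N i l j k * y i l = (if k = l then Θ k else N 0 l 0 k) * y i l
          + (if i = j then y i l * (N 0 l 0 k + if k = l then Θ k else N 0 l 0 k) else 0) := by
        intro i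
        by_cases hij : i = j
        · subst hij
          rw [if_pos rfl, hth]
          linear_combination (-(if k = l then Θ k else N 0 l 0 k) * y i l) * two
        · rw [if_neg hij, add_zero, hq i j hij k l hk hl, hΘ]
      rw [Finset.sum_congr rfl fun i _ => e i, Finset.sum_add_distrib, ← Finset.mul_sum, hy0,
        mul_zero, zero_add, Finset.sum_ite_eq', if_pos (Finset.mem_univ _)]
      by_cases hkl : k = l
      · subst hkl
        rw [if_pos rfl, if_pos rfl, h0, zero_add]
      · rw [if_neg hkl, if_neg hkl, h2, mul_zero]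
    rw [Finset.sum_comm, Finset.sum_congr rfl fun l _ => h1 l, Finset.sum_ite_eq,
      if_pos (Finset.mem_univ _)]
  have hF : ∀ j k, k ≠ 7 → c k + z k 7 = y j k * σ j k := by
    intro j k hk
    have := hC j k
    rw [hD j k hk] at this
    linear_combination this
  have hc : ∀ k, k ≠ 7 → c k + z k 7 = 0 := fun k hk => by
    rw [hF 7 k hk, hσ 7 k hk, if_pos rfl, mul_zero]
  have hy1 : ∀ j k, j ≠ 7 → y j k = 0 := by
    intro j k hj
    by_cases hk : k = 7
    · rw [hk, hy7]
    · have := hF j k hk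
      rw [hc k hk, hσ j k hk, if_neg hj, mul_one] at this
      exact this.symm
  have hy2 : ∀ j k, y j k = 0 := by
    intro j k
    by_cases hj : j = 7
    · have := hy0 k
      rw [Finset.sum_eq_single 7 (fun i _ hi => hy1 i k hi) (by simp)] at this
      rw [hj, this]
    · exact hy1 j k hj
  have hc2 : ∀ k, z k 7 = c k := by
    intro k
    have := hC 7 k
    simp only [hy2, mul_zero, zero_mul, Finset.sum_const_zero, add_zero] at this
    linear_combination this - c k * two
  refine ⟨by rw [← hτ 7]; exact Finset.sum_congr rfl fun k _ => (hc2 k).symm, fun j k => ?_⟩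
  have := hy j k
  rw [hy2, hc2] at this
  linear_combination -this - c j * two

end Pool.Agent.Lib.MP_7d3fda_nt.R5
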