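import Pool.Agent.Lib.MP_7d3fda_nt.R5.ZDefs

open Finset Module
open scoped NumberTheorySymbols

noncomputable section

namespace Pool.Agent.Lib.MP_7d3fda_nt.R5

open Pool.Agent.Lib.MP_788af2_nt Pool.Agent.Lib.MP_7d3fda_nt.R2 Pool.Agent.Lib.MP_7d3fda_nt.R3

namespace ZFerAux

theorem descent : ∀ (N : ℕ) (x y z : ℤ), x.natAbs < N → IsCoprime x y →
    x ^ 4 - y ^ 4 = z ^ 2 → y = 0 ∨ z = 0 := by
  intro N
  induction N with
  | zero => intro x y z h; omega
  | succ N ih =>
    intro x y z hN hc h
    have lt : ∀ c : ℤ, c ^ 2 < x ^ 2 → c.natAbs < N := fun c hc => by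
      have := Int.natAbs_lt_iff_sq_lt.2 hc
      omega
    by_contra hne
    obtain ⟨hy, hz⟩ := not_or.1 hne
    have ht : PythagoreanTriple (y ^ 2) z (x ^ 2) := by
      unfold PythagoreanTriple
      linear_combination -h
    have hg : Int.gcd (y ^ 2) z = 1 := by
      rw [← Int.isCoprime_iff_gcd_eq_one]
      have h1 : IsCoprime (y ^ 2) (x ^ 4) := hc.symm.pow
      have h2 : IsCoprime (y ^ 2) (z ^ 2) := by
        have := h1.add_mul_left_right (-y ^ 2)
        rwa [show x ^ 4 + y ^ 2 * -y ^ 2 = z ^ 2 by linear_combination h] at this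
      exact (IsCoprime.pow_right_iff two_pos).1 h2
    obtain ⟨m, n, h1, h2, h3, -⟩ := PythagoreanTriple.coprime_classification.1 ⟨ht, hg⟩
    have hmn : IsCoprime m n := Int.isCoprime_iff_gcd_eq_one.2 h3
    have hx : x ^ 2 = m ^ 2 + n ^ 2 := by
      rcases h2 with h2 | h2
      · exact h2
      · nlinarith [sq_nonneg x, sq_nonneg m, sq_nonneg n]
    rcases h1 with ⟨a1, a2⟩ | ⟨a1, a2⟩
    · have hn : n ≠ 0 := by
        rintro rfl
        exact hz (by simpa using a2)
      have hn2 : 0 < n ^ 2 := by positivity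
      rcases ih m n (x * y) (lt m (by linarith)) hmn (by rw [mul_pow, hx, a1]; ring) with e | e
      · exact hn e
      · rcases mul_eq_zero.1 e with e | e
        · rw [e] at hx
          nlinarith [sq_nonneg m]
        · exact hy e
    · have ht' : PythagoreanTriple m n x := by
        unfold PythagoreanTriple
        linear_combination -hx
      obtain ⟨a, b, b1, b2, b3, -⟩ := PythagoreanTriple.coprime_classification.1 ⟨ht', h3⟩
      have hab : IsCoprime a b := Int.isCoprime_iff_gcd_eq_one.2 b3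
      have e1 : y ^ 2 = 4 * (a * b * (a ^ 2 - b ^ 2)) := by
        rcases b1 with ⟨rfl, rfl⟩ | ⟨rfl, rfl⟩ <;> linear_combination a1
      have e2 : x ^ 2 = (a ^ 2 + b ^ 2) ^ 2 := by
        rcases b2 with b2 | b2 <;> rw [b2]
        ring
      obtain ⟨w, rfl⟩ : (2 : ℤ) ∣ y := Int.prime_two.dvd_of_dvd_pow (n := 2)
        ⟨2 * (a * b * (a ^ 2 - b ^ 2)), by linear_combination e1⟩
      have e3 : a * b * (a ^ 2 - b ^ 2) = w ^ 2 := by linarith
      have hw : w ≠ 0 := by
        rintro rfl
        exact hy (by simp)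
      have e4 : a * b * (a ^ 2 - b ^ 2) ≠ 0 := e3 ▸ pow_ne_zero 2 hw
      have ha : a ≠ 0 := left_ne_zero_of_mul (left_ne_zero_of_mul e4)
      have hb : b ≠ 0 := right_ne_zero_of_mul (left_ne_zero_of_mul e4)
      have hd : a ^ 2 - b ^ 2 ≠ 0 := right_ne_zero_of_mul e4
      have c1 : IsCoprime a (a ^ 2 - b ^ 2) := by
        have := (hab.pow_right (n := 2)).neg_right.add_mul_left_right a
        rwa [show -b ^ 2 + a * a = a ^ 2 - b ^ 2 by ring] at this
      have c2 : IsCoprime b (a ^ 2 - b ^ 2) := by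
        have := (hab.symm.pow_right (n := 2)).add_mul_left_right (-b)
        rwa [show a ^ 2 + b * -b = a ^ 2 - b ^ 2 by ring] at this
      obtain ⟨c, hc'⟩ := Int.sq_of_isCoprime (hab.mul_right c1) (c := w) (by linear_combination e3)
      obtain ⟨d, hd'⟩ := Int.sq_of_isCoprime (hab.symm.mul_right c2) (c := w)
        (by linear_combination e3)
      obtain ⟨e, he'⟩ := Int.sq_of_isCoprime (c1.mul_left c2).symm (c := w)
        (by linear_combination e3)
      have f1 : a ^ 2 = c ^ 4 := by rcases hc' with rfl | rfl <;> ring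
      have f2 : b ^ 2 = d ^ 4 := by rcases hd' with rfl | rfl <;> ring
      have hcd : IsCoprime c d := by
        have : IsCoprime (c ^ 4) (d ^ 4) := f1 ▸ f2 ▸ hab.pow
        exact (IsCoprime.pow_iff (by norm_num) (by norm_num)).1 this
      have hc0 : c ≠ 0 := by
        rintro rfl
        exact ha (by simpa using f1)
      have hd0 : d ≠ 0 := by
        rintro rfl
        exact hb (by simpa using f2)
      have he0 : e ≠ 0 := by
        rintro rfl
        exact hd (by simpa using he')
      have g1 : 1 ≤ c ^ 2 := by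
        have : 0 < c ^ 2 := by positivity
        omega
      have g2 : 1 ≤ d ^ 2 := by
        have : 0 < d ^ 2 := by positivity
        omega
      have g3 : c ^ 2 + d ^ 2 ≤ a ^ 2 + b ^ 2 := by nlinarith
      have g4 : c ^ 2 + d ^ 2 ≤ x ^ 2 := by nlinarith
      rcases he' with he' | he'
      · exact (ih c d e (lt c (by linarith)) hcd (by linarith)).elim hd0 he0
      · exact (ih d c e (lt d (by linarith)) hcd.symm (by linarith)).elim hc0 he0

end ZFerAux

/-- a difference of two fourth powers is not a square -/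
theorem fermat_sub {x y z : ℤ} (hc : IsCoprime x y) (h : x ^ 4 - y ^ 4 = z ^ 2) :
    y = 0 ∨ z = 0 :=
  ZFerAux.descent _ x y z (Nat.lt_succ_self _) hc h

end Pool.Agent.Lib.MP_7d3fda_nt.R5
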