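import Pool.Agent.Lib.MP_7d3fda_nt.R5.ZIsog
import Pool.Agent.Lib.MP_7d3fda_nt.R5.ZFer

open Finset Module
open scoped NumberTheorySymbols

noncomputable section

namespace Pool.Agent.Lib.MP_7d3fda_nt.R5

open Pool.Agent.Lib.MP_788af2_nt Pool.Agent.Lib.MP_7d3fda_nt.R2 Pool.Agent.Lib.MP_7d3fda_nt.R3

open Pool.Agent.Lib.MP_7d3fda_nt.R4

namespace ZFinalAux

open YFinalAux

theorem base (hC : Core8) {r s : ℤ} {P Q : Finset ℕ} (hF : Fam8 r s P Q) {e₁ e₂ e₃ δ : ℚ}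
    (δ0 : δ ≠ 0) (h1 : e₂ - e₁ = δ * r ^ 2) (h2 : e₃ - e₁ = δ * s ^ 2) : G3 e₁ e₂ e₃ := by
  have q0 : (δ.den : ℤ) ≠ 0 := by exact_mod_cast δ.den_ne_zero
  have N0 : δ.num * δ.den ≠ 0 := mul_ne_zero (Rat.num_ne_zero.2 δ0) q0
  obtain ⟨d₀, d0, h⟩ := hC r s _ P Q hF N0
  obtain ⟨d₂, t, hd, t0, e⟩ := exists_sqfree (mul_ne_zero N0 d0)
  have key : ∀ k g : ℤ, k ≠ 0 → Module.rank ℤ (cv ((k ^ 2 * d₂ * g : ℤ) * -(e₁ + e₂ + e₃))
      ((k ^ 2 * d₂ * g : ℤ) ^ 2 * (e₁ * e₂ + e₁ * e₃ + e₂ * e₃))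
      ((k ^ 2 * d₂ * g : ℤ) ^ 3 * -(e₁ * e₂ * e₃))).Point =
      Module.rank ℤ (cvE ![0, d₀ * g * r ^ 2, d₀ * g * s ^ 2]).Point := fun k g k0 => by
    have a1 : (k : ℚ) ≠ 0 := by exact_mod_cast k0
    have a2 : (t : ℚ) ≠ 0 := by exact_mod_cast t0
    have a3 : (d₂ : ℚ) ≠ 0 := by exact_mod_cast hd.ne_zero
    have a4 : (d₀ : ℚ) ≠ 0 := by exact_mod_cast d0
    have a5 : (δ.den : ℚ) ≠ 0 := by exact_mod_cast δ.den_ne_zero
    have a6 : δ * δ.den * δ.den * d₀ = t ^ 2 * d₂ := by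
      rw [Rat.mul_den_eq_num]
      exact_mod_cast e
    have a7 : d₂ * δ = (t * d₂ / (δ.den * d₀)) ^ 2 * d₀ := by
      field_simp
      linear_combination a6
    refine XFinalAux.iso (u := k * (t * d₂ / (δ.den * d₀))) (by positivity) ?_ ?_
    · push_cast
      linear_combination k ^ 2 * d₂ * g * h1 + k ^ 2 * g * r ^ 2 * a7
    · push_cast
      linear_combination k ^ 2 * d₂ * g * h2 + k ^ 2 * g * s ^ 2 * a7
  have dv : d₂ ∣ δ.num * δ.den * d₀ := e ▸ Dvd.intro_left _ rfl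
  have m4 : ∀ g : ℤ, g % 4 = 1 → d₂ * g % 4 = d₂ % 4 := fun g hg => by
    rw [Int.mul_emod, hg, mul_one, Int.emod_emod_of_dvd _ dvd_rfl]
  by_cases h4 : d₂ % 4 = 1
  · refine ⟨8, h (1 ^ 2 * d₂) (by simpa using hd.ne_zero) _ fun g g4 sq rk =>
      ⟨Or.inl ?_, (key 1 g one_ne_zero).trans rk⟩⟩
    rw [one_pow, one_mul]
    exact ⟨(m4 g g4).trans h4, sq _ hd dv⟩
  · refine ⟨8, h (2 ^ 2 * d₂) (by simpa using hd.ne_zero) _ fun g g4 sq rk =>
      ⟨Or.inr ⟨d₂ * g, by ring, ?_, sq _ hd dv⟩, (key 2 g two_ne_zero).trans rk⟩⟩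
    have a : ¬(2 * 2 : ℤ) ∣ d₂ := fun k => Int.prime_two.not_isUnit (hd 2 k)
    rw [m4 g g4]
    omega

/-- coprime positive factors of a square -/
theorem sq_split {a b : ℤ} (ha : 0 < a) (hb : 0 < b) (hc : IsCoprime a b) (h : IsSquare (a * b)) :
    (∃ x, a = x ^ 2) ∧ ∃ y, b = y ^ 2 := by
  obtain ⟨c, hc'⟩ := h
  rw [← sq] at hc'
  obtain ⟨x, hx⟩ := Int.sq_of_isCoprime hc hc'
  obtain ⟨y, hy⟩ := Int.sq_of_isCoprime hc.symm ((mul_comm _ _).trans hc')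
  exact ⟨⟨x, hx.resolve_right fun k => by nlinarith [sq_nonneg x]⟩,
    ⟨y, hy.resolve_right fun k => by nlinarith [sq_nonneg y]⟩⟩

theorem cop_two {a : ℤ} (h : a % 2 = 1) : IsCoprime a 2 := ⟨1, -(a / 2), by omega⟩

theorem cop_ab {r s : ℤ} (hc : IsCoprime r s) (par : (r + s) % 2 = 1) :
    IsCoprime (r + s) (r - s) := by
  have h1 : IsCoprime (r + s) s := by simpa using hc.add_mul_left_left 1
  have h2 := ((cop_two par).mul_right h1).neg_right.add_mul_left_right 1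
  rwa [show -(2 * s) + (r + s) * 1 = r - s by ring] at h2

theorem sq8 {x : ℤ} (h : x ^ 2 % 2 = 1) : x ^ 2 % 4 = 1 := by
  rcases Int.even_or_odd' x with ⟨k, rfl | rfl⟩
  · have e : (2 * k) ^ 2 = 2 * (2 * k ^ 2) := by ring
    omega
  · have e : (2 * k + 1) ^ 2 = 4 * (k ^ 2 + k) + 1 := by ring
    omega

theorem sq3 {x : ℤ} (h : ¬(3 : ℤ) ∣ x) : x ^ 2 % 3 = 1 := by
  obtain ⟨k, rfl | rfl⟩ : ∃ k, x = 3 * k + 1 ∨ x = 3 * k + 2 := ⟨x / 3, by omega⟩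
  · have e : (3 * k + 1) ^ 2 = 3 * (3 * k ^ 2 + 2 * k) + 1 := by ring
    omega
  · have e : (3 * k + 2) ^ 2 = 3 * (3 * k ^ 2 + 4 * k + 1) + 1 := by ring
    omega

theorem prime_dvd {n : ℤ} (h : 2 ≤ n) : ∃ p : ℕ, p.Prime ∧ (p : ℤ) ∣ n := by
  obtain ⟨p, hp, hd⟩ := Nat.exists_prime_and_dvd (n := n.natAbs) (by omega)
  exact ⟨p, hp, Int.natCast_dvd.2 hd⟩

theorem exists_fam {r s : ℤ} (s0 : 0 < s) (sr : s < r) (hc : IsCoprime r s)
    (par : (r + s) % 2 = 1) (nsq : ¬IsSquare (r * s)) : ∃ P Q, Fam8 r s P Q := by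
  by_cases h : IsSquare ((r + s) * (r - s))
  swap
  · exact ⟨∅, ∅, s0, sr, hc, par, nsq, Or.inl ⟨rfl, rfl, h⟩⟩
  have cab := cop_ab hc par
  obtain ⟨⟨x, hx⟩, y, hy⟩ := sq_split (by omega) (by omega) cab h
  have x4 := sq8 (x := x) (by omega)
  have y4 := sq8 (x := y) (by omega)
  obtain ⟨p, hp, pr⟩ := prime_dvd (n := r) (by omega)
  obtain ⟨q, hq, qr⟩ := prime_dvd (n := r + s) (by omega)
  refine ⟨{p}, {q}, s0, sr, hc, par, nsq, Or.inr ⟨p, q, rfl, rfl, hp, hq, ?_, pr, qr,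
    ⟨x, by rw [hx, sq]⟩, ⟨y, by rw [hy, sq]⟩, ?_⟩⟩
  · by_contra h5
    have h2 := hp.two_le
    have h3 : p = 2 ∨ p = 3 ∨ p = 4 := by omega
    rcases h3 with rfl | rfl | rfl
    · omega
    · have r3 : (3 : ℤ) ∣ r := pr
      have s3 : ¬(3 : ℤ) ∣ s := fun k => Int.prime_three.not_isUnit (hc.isUnit_of_dvd' r3 k)
      have k1 := sq3 (x := x) fun k => by
        have := k.trans (dvd_pow_self x two_ne_zero)
        omega
      have k2 := sq3 (x := y) fun k => by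
        have := k.trans (dvd_pow_self y two_ne_zero)
        omega
      omega
    · exact absurd hp (by norm_num)
  · rintro ⟨m, hm⟩
    have e : r ^ 4 - s ^ 4 = (x * y * m) ^ 2 := by
      linear_combination (r - s) * (r ^ 2 + s ^ 2) * hx + x ^ 2 * (r ^ 2 + s ^ 2) * hy
        + x ^ 2 * y ^ 2 * hm
    rcases fermat_sub hc e with k | k
    · omega
    · rw [k] at e
      have := pow_lt_pow_left₀ sr s0.le (n := 4) (by norm_num)
      omega

theorem shift {e₁ e₂ e₃ : ℚ} (h : G3 0 (e₂ - e₁) (e₃ - e₁)) : G3 e₁ e₂ e₃ := by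
  unfold G3 at h ⊢
  refine goal_shift e₁ ?_
  convert h using 1 <;> ring

theorem isog {e₁ e₂ e₃ δ r s : ℚ} (δ0 : δ ≠ 0) (r0 : r ≠ 0) (s0 : s ≠ 0) (a0 : r + s ≠ 0)
    (b0 : r - s ≠ 0) (h1 : e₂ - e₁ = δ * r ^ 2) (h2 : e₃ - e₁ = δ * s ^ 2)
    (h : G3 0 (-δ * (r + s) ^ 2) (-δ * (r - s) ^ 2)) : G3 e₁ e₂ e₃ := by
  refine shift ?_
  rw [h1, h2]
  unfold G3 at h ⊢
  have := goal_isog (a := -(δ * (r ^ 2 + s ^ 2))) (b := (δ * r * s) ^ 2) (by positivity)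
    (by rw [show (-(δ * (r ^ 2 + s ^ 2))) ^ 2 - 4 * (δ * r * s) ^ 2
      = (δ * (r + s) * (r - s)) ^ 2 by ring]; positivity) (by convert h using 1 <;> ring)
  convert this using 1 <;> ring

variable (hC : Core8) {r s : ℤ} {e₁ e₂ e₃ δ : ℚ} (s0 : 0 < s) (sr : s < r) (hc : IsCoprime r s)
  (δ0 : δ ≠ 0) (h1 : e₂ - e₁ = δ * r ^ 2) (h2 : e₃ - e₁ = δ * s ^ 2)

include s0 sr δ0 h1 h2 in
theorem isog' (h : G3 0 (-δ * (r + s) ^ 2) (-δ * (r - s) ^ 2)) : G3 e₁ e₂ e₃ :=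
  isog δ0 (by exact_mod_cast (by omega : r ≠ 0)) (by exact_mod_cast s0.ne')
    (by exact_mod_cast (by omega : r + s ≠ 0)) (by exact_mod_cast (by omega : r - s ≠ 0)) h1 h2 h

include hC s0 sr hc δ0 h1 h2

theorem main1 (par : (r + s) % 2 = 1) : G3 e₁ e₂ e₃ := by
  by_cases nsq : IsSquare (r * s)
  swap
  · obtain ⟨P, Q, hF⟩ := exists_fam s0 sr hc par nsq
    exact base hC hF δ0 h1 h2
  obtain ⟨w, hw, w0⟩ : ∃ w, r * s = w ^ 2 ∧ 0 < w := by
    obtain ⟨w, hw⟩ := nsq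
    refine ⟨|w|, by rw [sq_abs, sq, hw], abs_pos.2 ?_⟩
    rintro rfl
    exact (mul_pos (s0.trans sr) s0).ne' (by simpa using hw)
  have c1 : IsCoprime (r + s) s := by simpa using hc.add_mul_left_left 1
  have c2 : IsCoprime (r + s) r := by simpa [add_comm] using hc.symm.add_mul_left_left 1
  have c3 : IsCoprime (r + s) (2 * w) :=
    (cop_two par).mul_right ((IsCoprime.pow_right_iff two_pos).1 (hw ▸ c2.mul_right c1))
  have e : (r + s) ^ 2 - (2 * w) ^ 2 = (r - s) ^ 2 := by linear_combination 4 * hw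
  have lt : 2 * w < r + s := by
    have := pow_pos (sub_pos.2 sr) 2
    exact lt_of_pow_lt_pow_left₀ 2 (by omega) (by omega)
  obtain ⟨P, Q, hF⟩ := exists_fam (by omega) lt c3 (by omega) fun k => by
    obtain ⟨⟨x, hx⟩, y, hy⟩ := sq_split (by omega) (by omega) c3 k
    rw [hx, hy] at c3 e
    rcases fermat_sub (z := r - s) ((IsCoprime.pow_iff two_pos two_pos).1 c3)
      (by linear_combination e) with k | k
    · rw [k] at hy
      omega
    · omega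
  have hw' : (r : ℚ) * s = w ^ 2 := by exact_mod_cast hw
  exact isog' s0 sr δ0 h1 h2 (sw12 (base hC hF δ0 (by push_cast; ring)
    (by push_cast; linear_combination 4 * δ * hw')))

theorem main2 : G3 e₁ e₂ e₃ := by
  by_cases par : (r + s) % 2 = 1
  · exact main1 hC s0 sr hc δ0 h1 h2 par
  obtain ⟨a, ha⟩ : ∃ a, r + s = 2 * a := ⟨(r + s) / 2, by omega⟩
  obtain ⟨b, hb⟩ : ∃ b, r - s = 2 * b := ⟨(r - s) / 2, by omega⟩
  obtain rfl : r = a + b := by omega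
  obtain rfl : s = a - b := by omega
  obtain ⟨u, v, huv⟩ := id hc
  have o : (a + b) % 2 = 1 := by
    by_contra k
    exact Int.prime_two.not_isUnit (hc.isUnit_of_dvd' (by omega) (by omega))
  exact isog' s0 sr δ0 h1 h2 (main1 hC (r := a) (s := b) (δ := -4 * δ) (by omega) (by omega)
    ⟨u + v, u - v, by linear_combination huv⟩ (by simpa using δ0) (by push_cast; ring)
    (by push_cast; ring) o)

omit s0 sr hc δ0 h1 h2

theorem main3 (d12 : e₁ ≠ e₂) (d13 : e₁ ≠ e₃) (d23 : e₂ ≠ e₃)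
    (k : IsSquare (4 * ((e₁ - e₂) * (e₁ - e₃)))) : G3 e₁ e₂ e₃ := by
  obtain ⟨y, hy⟩ := k
  have n0 : e₃ - e₁ ≠ 0 := sub_ne_zero.2 d13.symm
  obtain ⟨t, ht⟩ : ∃ t : ℚ, t = |y / (2 * (e₃ - e₁))| := ⟨_, rfl⟩
  have t1 : t ^ 2 * (e₃ - e₁) = e₂ - e₁ := by
    rw [ht, sq_abs]
    field_simp
    linear_combination -hy
  have t0 : 0 < t.num := by
    refine Rat.num_pos.2 ((ht ▸ abs_nonneg _ : 0 ≤ t).lt_of_ne' ?_)
    rintro rfl
    exact d12 (by linear_combination t1)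
  have q0 : (t.den : ℚ) ≠ 0 := by exact_mod_cast t.den_ne_zero
  have q1 : (t.num : ℚ) = t * t.den := (Rat.mul_den_eq_num t).symm
  obtain ⟨δ, hδ⟩ : ∃ δ : ℚ, δ = (e₃ - e₁) / t.den ^ 2 := ⟨_, rfl⟩
  have h2 : e₃ - e₁ = δ * ((t.den : ℤ) : ℚ) ^ 2 := by
    rw [hδ]
    push_cast
    field_simp
  have h1 : e₂ - e₁ = δ * (t.num : ℚ) ^ 2 := by
    push_cast at h2
    rw [q1]
    linear_combination t ^ 2 * h2 - t1
  have c : IsCoprime t.num (t.den : ℤ) := Int.isCoprime_iff_gcd_eq_one.2 t.reduced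
  have q2 : (0 : ℤ) < t.den := by exact_mod_cast t.den_pos
  have δ0 : δ ≠ 0 := fun h => n0 (by rw [h2, h, zero_mul])
  generalize t.num = r at h1 c t0
  generalize (t.den : ℤ) = s at h2 c q2
  rcases lt_trichotomy s r with h | rfl | h
  · exact main2 hC q2 h c δ0 h1 h2
  · exact absurd (by linear_combination h1 - h2) d23
  · exact sw23 (main2 hC t0 h c.symm δ0 h2 h1)

theorem split (hM : Many5) (d12 : e₁ ≠ e₂) (d13 : e₁ ≠ e₃) (d23 : e₂ ≠ e₃) : G3 e₁ e₂ e₃ := by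
  by_cases k1 : IsSquare (4 * ((e₁ - e₂) * (e₁ - e₃)))
  · exact main3 hC d12 d13 d23 k1
  by_cases k2 : IsSquare (4 * ((e₂ - e₁) * (e₂ - e₃)))
  · exact sw12 (main3 hC d12.symm d23 d13 k2)
  by_cases k3 : IsSquare (4 * ((e₃ - e₁) * (e₃ - e₂)))
  · exact sw13 (main3 hC d23.symm d13.symm d12.symm (by rwa [mul_comm (e₃ - e₂)]))
  exact main4 hM d13 k1 k2 k3

end ZFinalAux

theorem final8 (hC : Core8) (hM : Many5) (W : WeierstrassCurve ℚ) [W.IsElliptic]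
    (h : W.Ψ₂Sq.Splits ∨ ∃ x, W.Ψ₂Sq.IsRoot x ∧ IsSquare (W.Ψ₂Sq.derivative.eval x)) :
    Goal4 (W.b₂ / 4) (W.b₄ / 2) (W.b₆ / 4) := by
  have hd : W.twoTorsionPolynomial.discr ≠ 0 := by
    rw [W.twoTorsionPolynomial_discr]; exact mul_ne_zero (by norm_num) W.isUnit_Δ.ne_zero
  rcases h with h2 | ⟨x, hx, y, hy⟩
  · have a0 : W.twoTorsionPolynomial.a ≠ 0 := by simp [WeierstrassCurve.twoTorsionPolynomial]
    obtain ⟨e₁, e₂, e₃, he⟩ := (Cubic.splits_iff_roots_eq_three (φ := RingHom.id ℚ) a0).1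
      (by rwa [Polynomial.map_id])
    have k1 := Cubic.b_eq_three_roots a0 he
    have k2 := Cubic.c_eq_three_roots a0 he
    have k3 := Cubic.d_eq_three_roots a0 he
    obtain ⟨d12, d13, d23⟩ := (Cubic.discr_ne_zero_iff_roots_ne a0 he).1 hd
    simp only [WeierstrassCurve.twoTorsionPolynomial, RingHom.id_apply] at k1 k2 k3
    have h := ZFinalAux.split hC hM d12 d13 d23
    unfold YFinalAux.G3 at h
    convert h using 1
    · linear_combination k1 / 4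
    · linear_combination k2 / 4
    · linear_combination k3 / 4
  · have ev : 4 * x ^ 3 + W.b₂ * x ^ 2 + 2 * W.b₄ * x + W.b₆ = 0 := by
      simpa [WeierstrassCurve.Ψ₂Sq] using hx
    have dv : W.Ψ₂Sq.derivative.eval x = 12 * x ^ 2 + 2 * W.b₂ * x + 2 * W.b₄ := by
      simp [WeierstrassCurve.Ψ₂Sq]
      ring
    rw [dv] at hy
    obtain ⟨a, ha⟩ : ∃ a, a = W.b₂ / 4 + 3 * x := ⟨_, rfl⟩
    have k1 : W.b₂ = 4 * a - 12 * x := by linear_combination -4 * ha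
    have k2 : W.b₄ = y ^ 2 / 2 - 4 * a * x + 6 * x ^ 2 := by linear_combination hy / 2 - x * k1
    have k3 : W.b₆ = -y ^ 2 * x + 4 * a * x ^ 2 - 4 * x ^ 3 := by
      linear_combination ev - x ^ 2 * k1 - 2 * x * k2
    have e : W.twoTorsionPolynomial.discr = 16 * y ^ 4 * ((a - y) * (a + y)) := by
      simp only [WeierstrassCurve.twoTorsionPolynomial, Cubic.discr]
      rw [k1, k2, k3]
      ring
    rw [e] at hd
    have y0 : y ≠ 0 := fun k => hd (by rw [k]; ring)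
    have n := right_ne_zero_of_mul hd
    have h := ZFinalAux.split hC hM (left_ne_zero_of_mul n).symm (right_ne_zero_of_mul n).symm
      fun k => y0 (by linear_combination -k / 2)
    unfold YFinalAux.G3 at h
    have h' := goal_isog (a := a) (b := y ^ 2 / 4) (by positivity)
      (by rwa [show a ^ 2 - 4 * (y ^ 2 / 4) = (a - y) * (a + y) by ring])
      (by convert h using 1 <;> ring)
    refine goal_shift x ?_
    rw [k1, k2, k3]
    convert h' using 1 <;> ring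

end Pool.Agent.Lib.MP_7d3fda_nt.R5
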