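import Pool.Agent.Lib.MP_7d3fda_nt.R5.ZDefs
import Pool.Agent.Lib.MP_7d3fda_nt.R3.XKum

open Finset Module
open scoped NumberTheorySymbols

noncomputable section

namespace Pool.Agent.Lib.MP_7d3fda_nt.R5

open Pool.Agent.Lib.MP_788af2_nt Pool.Agent.Lib.MP_7d3fda_nt.R2 Pool.Agent.Lib.MP_7d3fda_nt.R3

namespace ZKumAux

open XKumAux

theorem G_unit {q : ℕ} {x : ℤ} (h : ¬(q : ℤ) ∣ x) (h' : qL q x = 0) : G q x = 0 := by
  rw [G, TwistAux.qV_zero h, h']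
  rfl

theorem ne_of_not_dvd {q : ℕ} {x : ℤ} (h : ¬(q : ℤ) ∣ x) : x ≠ 0 := by
  rintro rfl
  exact h (dvd_zero _)

/-- a number congruent to a unit of the form `d k ^ 2 c ^ 2` -/
theorem G_cong {q : ℕ} (hq : q.Prime) {x d k c : ℤ} (hd : ¬(q : ℤ) ∣ d) (hk : ¬(q : ℤ) ∣ k)
    (hc : ¬(q : ℤ) ∣ c) (hL : qL q d = 0) (h : (q : ℤ) ∣ d * k ^ 2 * c ^ 2 - x) : G q x = 0 := by
  have hI := Nat.prime_iff_prime_int.1 hq
  have h1 : ¬(q : ℤ) ∣ d * k ^ 2 * c ^ 2 := fun h1 => by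
    rcases hI.dvd_or_dvd h1 with h1 | h1
    · rcases hI.dvd_or_dvd h1 with h1 | h1
      exacts [hd h1, hk (hI.dvd_of_dvd_pow h1)]
    · exact hc (hI.dvd_of_dvd_pow h1)
  have h2 : ¬(q : ℤ) ∣ x := fun h2 => h1 (by simpa using dvd_add h h2)
  refine G_unit h2 ?_
  rw [← TableAux.qL_congr hq h1 h, LocDAux.qf_mul_sq (isQF_qL hq)
    (mul_ne_zero (ne_of_not_dvd hd) (pow_ne_zero _ (ne_of_not_dvd hk))) (ne_of_not_dvd hc),
    LocDAux.qf_mul_sq (isQF_qL hq) (ne_of_not_dvd hd) (ne_of_not_dvd hk), hL]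

theorem G_eq {q : ℕ} (hq : q.Prime) {x y : ℤ} (hx : ¬(q : ℤ) ∣ x) (h : (q : ℤ) ∣ x - y) :
    G q x = G q y := by
  have hy : ¬(q : ℤ) ∣ y := fun h2 => hx (by simpa using dvd_add h h2)
  rw [G, G, TwistAux.qV_zero hx, TwistAux.qV_zero hy, TableAux.qL_congr hq hx h]

theorem locQ {q : ℕ} (hq : q.Prime) {r s d x y z b c : ℤ} (ha : (q : ℤ) ∣ r + s)
    (hr : ¬(q : ℤ) ∣ r) (hd : ¬(q : ℤ) ∣ d) (hL : qL q d = 0) (hx : x ≠ 0) (hy : y ≠ 0)
    (hz : z ≠ 0) (hb : x * y * z = b ^ 2) (e1 : x - y = d * r ^ 2 * c ^ 2)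
    (e2 : x - z = d * s ^ 2 * c ^ 2) (hc : (q : ℤ) ∣ c → ¬(q : ℤ) ∣ x) : G q x = 0 := by
  by_cases dy : (q : ℤ) ∣ y
  · have nc : ¬(q : ℤ) ∣ c := fun h => hc h (by
      have h1 : (q : ℤ) ∣ x - y := e1 ▸ (dvd_pow h two_ne_zero).mul_left _
      simpa using dvd_add h1 dy)
    refine G_cong hq hd hr nc hL ?_
    rw [← e1, sub_sub_cancel_left]
    exact dvd_neg.2 dy
  · have h1 : (q : ℤ) ∣ y - z := by
      have : y - z = (r + s) * (d * (s - r) * c ^ 2) := by linear_combination e2 - e1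
      rw [this]
      exact ha.mul_right _
    rw [G_third hq hy hz hx (b := b) (by rw [← hb]; ring), G_eq hq dy h1, b2_two]

theorem locP {p : ℕ} (hp : p.Prime) {r s d x y z b c : ℤ} (hr : (p : ℤ) ∣ r)
    (hs : ¬(p : ℤ) ∣ s) (hd : ¬(p : ℤ) ∣ d) (hL : qL p (-d) = 0) (hx : x ≠ 0) (hy : y ≠ 0)
    (hz : z ≠ 0) (hb : x * y * z = b ^ 2) (e1 : x - y = d * r ^ 2 * c ^ 2)
    (e2 : x - z = d * s ^ 2 * c ^ 2) (hc : (p : ℤ) ∣ c → ¬(p : ℤ) ∣ x) (h0 : G p x = 0) :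
    G p y = 0 := by
  by_cases dx : (p : ℤ) ∣ x
  · have h1 : G p z = 0 := by
      refine G_cong hp (d := -d) (by rwa [dvd_neg]) hs (fun h => hc h dx) hL ?_
      have : -d * s ^ 2 * c ^ 2 - z = -x := by linear_combination e2
      rw [this]
      exact dvd_neg.2 dx
    rw [G_third hp hx hz hy (b := b) (by rw [← hb]; ring), h0, h1, add_zero]
  · rw [← G_eq hp dx (e1 ▸ ((dvd_pow hr two_ne_zero).mul_left _).mul_right _), h0]

/-- the local condition at a prime of the twisting parameter -/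
theorem loc_pt {A B C d : ℤ} (hA : A ≠ 0) (hB : B ≠ 0) (hC : C ≠ 0) (hs : A + B = C)
    (hAB : IsCoprime A B) (hd : Squarefree d) {e : Fin 3 → ℤ}
    (e1 : e 1 - e 0 = d * A) (e2 : e 2 - e 0 = d * C) (P : (cvE e).Point) {r : ℕ}
    (hr : r ∈ Sg (cl d)) : ∃ s t : ZMod 2, two (lr r) (kum P) =
      s • two (lr r) (T0 (cl A) (cl C) (cl d)) + t • two (lr r) (T1 (cl A) (cl B) (cl d)) := by
  have d0 : d ≠ 0 := hd.ne_zero
  have he : dsc e ≠ 0 := by rw [dsc_eq hs e1 e2]; positivity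
  obtain ⟨hp, -, hrd⟩ := sg_prime hr
  by_cases hP : ∀ x y h, P = WeierstrassCurve.Affine.Point.some x y h → ∀ m, x ≠ e m
  · obtain ⟨x, b, c, α, hxc, hα, hne, hb, hF⟩ := point_data P hP
    obtain ⟨s, t, hst⟩ := loc hp hA hB hC hs hAB hd hrd (hne 0) (hne 1) (hne 2) hb (c := c)
      (by rw [hα, hα]; linear_combination c ^ 2 * e1)
      (by rw [hα, hα]; linear_combination c ^ 2 * e2) (by
        intro h1 h2
        rw [hα] at h2
        have h3 : (r : ℤ) ∣ e 0 * c ^ 2 := (dvd_pow h1 two_ne_zero).mul_left _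
        exact (Nat.prime_iff_prime_int.1 hp).not_isUnit
          (hxc.isUnit_of_dvd' (by simpa using dvd_add h2 h3) h1))
    refine ⟨s, t, ?_⟩
    rw [kum, cl_ext (hF 0), cl_ext (hF 1), T0, T1, ← cl_neg_one]
    simp only [LinearMap.prodMap_apply, map_add, lr_cl hp hA, lr_cl hp hB, lr_cl hp hC,
      lr_cl hp d0, lr_cl hp (hne 0), lr_cl hp (hne 1), lr_cl hp (show (-1 : ℤ) ≠ 0 by norm_num)]
    exact hst
  · push Not at hP
    obtain ⟨x, y, hxy, rfl, i, rfl⟩ := hP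
    fin_cases i
    · exact ⟨1, 0, by
        rw [one_smul, zero_smul, add_zero]; exact congrArg _ (root0 hA hC d0 he e1 e2 hxy)⟩
    · exact ⟨0, 1, by
        rw [one_smul, zero_smul, zero_add]; exact congrArg _ (root1 hA hB hs d0 he e1 e2 hxy)⟩
    · exact ⟨1, 1, by
        rw [one_smul, one_smul, ← map_add]; exact congrArg _ (root2 hB hC hs d0 he e1 e2 hxy)⟩

/-- a point is a root or has integral coordinates -/
theorem pt_cases {A B C d : ℤ} (hA : A ≠ 0) (hB : B ≠ 0) (hC : C ≠ 0) (hs : A + B = C)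
    (d0 : d ≠ 0) {e : Fin 3 → ℤ} (e1 : e 1 - e 0 = d * A) (e2 : e 2 - e 0 = d * C)
    (P : (cvE e).Point) :
    (∃ x y z b c : ℤ, x ≠ 0 ∧ y ≠ 0 ∧ z ≠ 0 ∧ x * y * z = b ^ 2 ∧ x - y = d * A * c ^ 2 ∧
      x - z = d * C * c ^ 2 ∧ (∀ q : ℕ, q.Prime → (q : ℤ) ∣ c → ¬(q : ℤ) ∣ x) ∧
      kum P = (cl x, cl y)) ∨ kum P = T0 (cl A) (cl C) (cl d) ∨
      kum P = T1 (cl A) (cl B) (cl d) ∨
      kum P = T0 (cl A) (cl C) (cl d) + T1 (cl A) (cl B) (cl d) := by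
  have he : dsc e ≠ 0 := by rw [dsc_eq hs e1 e2]; positivity
  by_cases hP : ∀ x y h, P = WeierstrassCurve.Affine.Point.some x y h → ∀ m, x ≠ e m
  · obtain ⟨x, b, c, α, hxc, hα, hne, hb, hF⟩ := point_data P hP
    refine .inl ⟨α 0, α 1, α 2, b, c, hne 0, hne 1, hne 2, hb,
      by rw [hα, hα]; linear_combination c ^ 2 * e1,
      by rw [hα, hα]; linear_combination c ^ 2 * e2, fun q hq h1 h2 => ?_,
      by rw [kum, cl_ext (hF 0), cl_ext (hF 1)]⟩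
    rw [hα] at h2
    have h3 : (q : ℤ) ∣ e 0 * c ^ 2 := (dvd_pow h1 two_ne_zero).mul_left _
    exact (Nat.prime_iff_prime_int.1 hq).not_isUnit
      (hxc.isUnit_of_dvd' (by simpa using dvd_add h2 h3) h1)
  · push Not at hP
    obtain ⟨x, y, hxy, rfl, i, rfl⟩ := hP
    fin_cases i
    · exact .inr (.inl (root0 hA hC d0 he e1 e2 hxy))
    · exact .inr (.inr (.inl (root1 hA hB hs d0 he e1 e2 hxy)))
    · exact .inr (.inr (.inr (root2 hB hC hs d0 he e1 e2 hxy)))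

theorem Lq_of_lr {γ y : X} {q : ℕ} {t : ZMod 2} (hq : γ q = 1) (h : lr q y = t • lr q γ) :
    Lq γ q y = 0 := by
  have h1 : y q = t * γ q := congrArg Prod.fst h
  have h2 : lin (qL q) y = t * lin (qL q) γ := congrArg Prod.snd h
  rw [Lq_apply, h1, h2, hq, mul_one, mul_comm, CharTwo.add_self_eq_zero]

theorem sq_dvd {q : ℕ} (hq : q.Prime) {d : ℤ} (hd : Squarefree d) (h : (q : ℤ) ∣ d) :
    qV q d = 1 := by
  rw [qV, val_one hq h fun h3 => (Nat.prime_iff_prime_int.1 hq).not_isUnit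
    (hd _ (by rwa [sq] at h3)), Nat.cast_one]

theorem cl_isSquare {n : ℤ} (hn : n ≠ 0) (h : IsSquare n) : cl n = 0 := by
  obtain ⟨k, rfl⟩ := h
  rw [← sq, cl_sq (left_ne_zero_of_mul hn)]

variable {r s u v : ℤ} {P Q : Finset ℕ}

theorem r_ne (hF : Fam8 r s P Q) : r ≠ 0 := cz8_ne hF 2

theorem s_ne (hF : Fam8 r s P Q) : s ≠ 0 := cz8_ne hF 3

theorem a_ne (hF : Fam8 r s P Q) : r + s ≠ 0 := cz8_ne hF 4

theorem b_ne (hF : Fam8 r s P Q) : r - s ≠ 0 := cz8_ne hF 5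

theorem B_eq (r s : ℤ) : s ^ 2 - r ^ 2 = -((r + s) * (r - s)) := by ring

theorem B_ne (hF : Fam8 r s P Q) : s ^ 2 - r ^ 2 ≠ 0 := by
  rw [B_eq]
  exact neg_ne_zero.2 (mul_ne_zero (a_ne hF) (b_ne hF))

theorem hsum (r s : ℤ) : r ^ 2 + (s ^ 2 - r ^ 2) = s ^ 2 := by ring

theorem copAB (hF : Fam8 r s P Q) : IsCoprime (r ^ 2) (s ^ 2 - r ^ 2) := by
  have := (hF.cop.pow (m := 2) (n := 2)).add_mul_left_right (-1)
  rwa [mul_neg_one, ← sub_eq_add_neg] at this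

theorem ee1 (r s d : ℤ) :
    (![0, d * r ^ 2, d * s ^ 2] : Fin 3 → ℤ) 1 - (![0, d * r ^ 2, d * s ^ 2] : Fin 3 → ℤ) 0
      = d * r ^ 2 := sub_zero _

theorem ee2 (r s d : ℤ) :
    (![0, d * r ^ 2, d * s ^ 2] : Fin 3 → ℤ) 2 - (![0, d * r ^ 2, d * s ^ 2] : Fin 3 → ℤ) 0
      = d * s ^ 2 := sub_zero _

theorem T0_eq (hF : Fam8 r s P Q) (δ : X) : T0 (cl (r ^ 2)) (cl (s ^ 2)) δ = (0, ep + δ) := by
  rw [T0, cl_sq (r_ne hF), cl_sq (s_ne hF), add_zero, add_zero]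

theorem T1_eq (hF : Fam8 r s P Q) (δ : X) :
    T1 (cl (r ^ 2)) (cl (s ^ 2 - r ^ 2)) δ = (δ, cn r s 4 + cn r s 5) := by
  rw [T1, cl_sq (r_ne hF), add_zero, add_zero, B_eq, cl_neg (mul_ne_zero (a_ne hF) (b_ne hF)),
    cl_mul (a_ne hF) (b_ne hF), ← add_assoc, add_self, zero_add]
  rfl

theorem dsc_ne' (hF : Fam8 r s P Q) {d : ℤ} (d0 : d ≠ 0) :
    dsc ![0, d * r ^ 2, d * s ^ 2] ≠ 0 := by
  have h1 := r_ne hF
  have h2 := s_ne hF
  have h3 := B_ne hF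
  rw [dsc_eq (hsum r s) (ee1 r s d) (ee2 r s d)]
  positivity

theorem td_ne (hI : Inv8 r s P Q u v) {t d : ℤ} (e : ∏ j, fm8 r s u v j = t ^ 2 * d) :
    t ≠ 0 ∧ d ≠ 0 := by
  have g0 : t ^ 2 * d ≠ 0 := e ▸ prod_ne_zero_iff.2 fun j _ => hI.ne j
  exact ⟨fun h => left_ne_zero_of_mul g0 (by rw [h]; ring), right_ne_zero_of_mul g0⟩

theorem del_eq (hI : Inv8 r s P Q u v) {t d : ℤ} (e : ∏ j, fm8 r s u v j = t ^ 2 * d) :
    ∑ j, kk8 r s u v j = cl d := by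
  obtain ⟨t0, d0⟩ := td_ne hI e
  have h : cl (t ^ 2 * d) = cl d := by rw [cl_mul (pow_ne_zero _ t0) d0, cl_sq t0, zero_add]
  rw [← h, ← e, cl_prod _ _ fun j _ => hI.ne j]
  rfl

theorem memP (hF : Fam8 r s P Q) {p : ℕ} (hp : p ∈ P) :
    p.Prime ∧ p ≠ 2 ∧ (p : ℤ) ∣ r ∧ ¬(p : ℤ) ∣ s := by
  rcases hF.cas with ⟨rfl, -⟩ | ⟨p', q, rfl, -, h1, -, h2, h3, -⟩
  · exact absurd hp (notMem_empty _)
  · obtain rfl := mem_singleton.1 hp
    exact ⟨h1, by omega, h3, fun h =>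
      (Nat.prime_iff_prime_int.1 h1).not_isUnit (hF.cop.isUnit_of_dvd' h3 h)⟩

theorem memQ (hF : Fam8 r s P Q) {q : ℕ} (hq : q ∈ Q) :
    q.Prime ∧ q ≠ 2 ∧ (q : ℤ) ∣ r + s ∧ ¬(q : ℤ) ∣ r := by
  rcases hF.cas with ⟨-, rfl, -⟩ | ⟨p, q', -, rfl, -, h1, -, -, h3, -⟩
  · exact absurd hq (notMem_empty _)
  · obtain rfl := mem_singleton.1 hq
    refine ⟨h1, ?_, h3, fun h => (Nat.prime_iff_prime_int.1 h1).not_isUnit
      (hF.cop.isUnit_of_dvd' h (by simpa using dvd_sub h3 h))⟩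
    rintro rfl
    have := hF.par
    push_cast at h3
    omega

theorem c45 (hF : Fam8 r s P Q) (hP : P ≠ ∅) : cn r s 4 + cn r s 5 = 0 := by
  rcases hF.cas with ⟨h, -⟩ | ⟨p, q, -, -, -, -, -, -, -, h1, h2, -⟩
  · exact absurd h hP
  · have a1 : cn r s 4 = 0 := cl_isSquare (a_ne hF) h1
    have a2 : cn r s 5 = 0 := cl_isSquare (b_ne hF) h2
    rw [a1, a2, add_zero]

theorem atQ (hF : Fam8 r s P Q) (hI : Inv8 r s P Q u v) {t d : ℤ} (hd : Squarefree d)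
    (e : ∏ j, fm8 r s u v j = t ^ 2 * d) (T : (cvE ![0, d * r ^ 2, d * s ^ 2]).Point) {q : ℕ}
    (hq : q ∈ Q) : lr q (kum T).1 = 0 := by
  obtain ⟨h1, -, h2, h3⟩ := memQ hF hq
  have d0 := hd.ne_zero
  have h4 := hI.hQ q hq
  rw [del_eq hI e] at h4
  have h5 := h4
  rw [lr_cl h1 d0, Prod.mk_eq_zero] at h5
  rcases pt_cases (pow_ne_zero 2 (r_ne hF)) (B_ne hF) (pow_ne_zero 2 (s_ne hF)) (hsum r s) d0
    (ee1 r s d) (ee2 r s d) T with ⟨x, y, z, b, c, hx, hy, hz, hb, e1, e2, hc, h⟩ | h | h | h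
  · rw [h, lr_cl h1 hx]
    exact locQ h1 h2 h3 (fun h6 => zero_ne_one (h5.1.symm.trans (sq_dvd h1 hd h6))) h5.2 hx hy hz
      hb e1 e2 (hc q h1)
  · rw [h, T0_eq hF, map_zero]
  · rw [h, T1_eq hF, h4]
  · rw [h, T0_eq hF, T1_eq hF, Prod.mk_add_mk, zero_add, h4]

theorem atP (hF : Fam8 r s P Q) (hI : Inv8 r s P Q u v) {t d : ℤ} (hd : Squarefree d)
    (e : ∏ j, fm8 r s u v j = t ^ 2 * d) (T : (cvE ![0, d * r ^ 2, d * s ^ 2]).Point)
    (h0 : (kum T).1 = 0) {p : ℕ} (hp : p ∈ P) : lr p (kum T).2 = 0 := by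
  obtain ⟨h1, -, h2, h3⟩ := memP hF hp
  have d0 := hd.ne_zero
  have h4 := (hI.hP p hp).1
  rw [del_eq hI e] at h4
  have h5 := h4
  rw [← cl_neg d0, lr_cl h1 (neg_ne_zero.2 d0), Prod.mk_eq_zero] at h5
  have h7 := c45 hF (ne_empty_of_mem hp)
  have hd' : Squarefree (-d) := fun x hx => hd x (dvd_neg.1 hx)
  rcases pt_cases (pow_ne_zero 2 (r_ne hF)) (B_ne hF) (pow_ne_zero 2 (s_ne hF)) (hsum r s) d0
    (ee1 r s d) (ee2 r s d) T with ⟨x, y, z, b, c, hx, hy, hz, hb, e1, e2, hc, h⟩ | h | h | h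
  · rw [h] at h0
    rw [h, lr_cl h1 hy]
    refine locP h1 h2 h3 (fun h6 => zero_ne_one (h5.1.symm.trans
      (sq_dvd h1 hd' (dvd_neg.2 h6)))) h5.2 hx hy hz hb e1 e2 (hc p h1) ?_
    have h8 : cl x = 0 := h0
    rw [G, ← lr_cl h1 hx, h8, map_zero]
  · rw [h, T0_eq hF, h4]
  · rw [h, T1_eq hF, h7, map_zero]
  · rw [h, T0_eq hF, T1_eq hF, Prod.mk_add_mk, h7, add_zero, h4]

theorem bad (hF : Fam8 r s P Q) (hI : Inv8 r s P Q u v) {t d : ℤ} (hd : Squarefree d)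
    (e : ∏ j, fm8 r s u v j = t ^ 2 * d) (T : (cvE ![0, d * r ^ 2, d * s ^ 2]).Point) (m : Fin 3)
    {i : ℕ} (h0 : i ≠ 0) (h2 : i ≠ 2) (hi : i ∉ Sg (cl d)) (hP : i ∉ P) (hQ : i ∉ Q) :
    cl (rep (dl ![0, d * r ^ 2, d * s ^ 2] m T)) i = 0 := by
  by_cases hp : i.Prime
  swap
  · exact cl_other_apply _ h0 hp
  have hI' := Nat.prime_iff_prime_int.1 hp
  rw [cl_prime_apply _ hp]
  refine val_good (dsc_ne' hF hd.ne_zero) T m hp fun h1 => hi (mem_Sg.2 ⟨h0, h2, ?_⟩)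
  rw [dsc_eq (hsum r s) (ee1 r s d) (ee2 r s d)] at h1
  rcases hI'.dvd_or_dvd h1 with h1 | h1
  · rw [cl_prime_apply _ hp, sq_dvd hp hd (hI'.dvd_of_dvd_pow h1)]
  · have h3 : (i : ℤ) ∣ (r * s * (r + s) * (r - s)) ^ 2 :=
      h1.trans ⟨s ^ 2 - r ^ 2, by ring⟩
    rw [← del_eq hI e]
    exact ((hI.sig i hp h2 (hI'.dvd_of_dvd_pow h3)).resolve_left hP).resolve_left hQ

theorem cl7 {d a b x y z w : ℤ} (hd : d ≠ 0) (ha : a ≠ 0) (hb : b ≠ 0) (hx : x ≠ 0) (hy : y ≠ 0)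
    (hz : z ≠ 0) (hw : w ≠ 0) :
    cl (d * a * b * x * y * z * w) = cl d + cl a + cl b + cl x + cl y + cl z + cl w := by
  rw [cl_mul (by positivity) hw, cl_mul (by positivity) hz, cl_mul (by positivity) hy,
    cl_mul (by positivity) hx, cl_mul (by positivity) hb, cl_mul hd ha]

theorem id2 {c : Fin 7 → X} {k : Fin 8 → X} {δ : X} (c0 : c 0 = ep)
    (hδ : k 0 + k 1 + k 2 + k 3 + k 4 + k 5 + k 6 + k 7 = δ) :
    (δ + c 2 + c 3 + k 2 + k 3 + k 6 + k 7, δ + c 2 + c 4 + k 1 + k 4 + k 2 + k 6)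
      = (ka1 c k, ep + δ + ka3 c k) := by
  rw [ka1, ka3, c0]
  congr 1
  · rw [← hδ]
    linear_combination (norm := abel) add_self (k 2) + add_self (k 3) + add_self (k 6) +
      add_self (k 7)
  · linear_combination (norm := abel) -add_self ep

theorem id3 (c : Fin 7 → X) (k : Fin 8 → X) (δ : X) :
    (δ + c 2 + c 3 + k 0 + k 1 + k 4 + k 5, δ + c 2 + c 4 + k 3 + k 6 + k 1 + k 5) +
      (ka1 c k, ep + δ + ka3 c k) + (δ, c 4 + c 5) = (0, ep + c 0 + ka2 c k) := by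
  have h2 : (2 : ZMod 2) = 0 := rfl
  rw [ka1, ka2, ka3, Prod.mk_add_mk, Prod.mk_add_mk]
  congr 1
  · ext i
    simp only [Finsupp.add_apply, Finsupp.zero_apply]
    linear_combination (δ i + c 2 i + c 3 i + k 0 i + k 1 i + k 4 i + k 5 i) * h2
  · ext i
    simp only [Finsupp.add_apply]
    linear_combination (δ i + c 2 i + c 4 i + k 1 i + k 6 i) * h2

end ZKumAux

open XKumAux ZKumAux

variable {r s u v : ℤ} {P Q : Finset ℕ}

theorem ok8 (hF : Fam8 r s P Q) (hI : Inv8 r s P Q u v) : Ok8 (∑ j, kk8 r s u v j) P Q := by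
  have hδ := del_eq hI (t := 1) (d := ∏ j, fm8 r s u v j) (by ring)
  refine ⟨fun q hq => ?_, fun p hp => ⟨(memP hF hp).1, (memP hF hp).2.1⟩,
    fun q hq => ⟨(memQ hF hq).1, (memQ hF hq).2.1⟩, fun p hp => ?_,
    fun q hq => congrArg Prod.fst (hI.hQ q hq),
    disjoint_left.2 fun p hp hq => (memQ hF hq).2.2.2 (memP hF hp).2.2.1, ?_⟩
  · rw [hδ] at hq
    exact ⟨(sg_prime hq).1, (sg_prime hq).2.1⟩
  · have h1 : (ep + ∑ j, kk8 r s u v j) p = 0 := congrArg Prod.fst (hI.hP p hp).1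
    rwa [Finsupp.add_apply, ep, Finsupp.single_eq_of_ne (memP hF hp).1.ne_zero, zero_add] at h1
  · rcases hF.cas with ⟨rfl, rfl, -⟩ | ⟨p, q, rfl, rfl, -⟩
    · rfl
    · rw [card_singleton, card_singleton]

/-- the local conditions satisfied by a rational point -/
theorem kum8 (hF : Fam8 r s P Q) (hI : Inv8 r s P Q u v) {t d : ℤ} (hd : Squarefree d)
    (e : ∏ j, fm8 r s u v j = t ^ 2 * d) (T : (cvE ![0, d * r ^ 2, d * s ^ 2]).Point) :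
    (kum T).1 ∈ Rd (cl d) P Q ∧ ((kum T).1 = 0 → (kum T).2 ∈ Rd (ep + cl d) Q P) ∧
      (P ≠ ∅ → ∀ q ∈ Sg (cl d), Lq (ep + cl d) q (kum T).2 = 0) := by
  have hloc : ∀ q ∈ Sg (cl d), ∃ σ τ : ZMod 2, lr q (kum T).1 = τ • lr q (cl d) ∧
      lr q (kum T).2 = σ • lr q (ep + cl d) + τ • lr q (cn r s 4 + cn r s 5) := fun q hq => by
    obtain ⟨σ, τ, h⟩ := loc_pt (pow_ne_zero 2 (r_ne hF)) (B_ne hF) (pow_ne_zero 2 (s_ne hF))
      (hsum r s) (copAB hF) hd (ee1 r s d) (ee2 r s d) T hq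
    rw [T0_eq hF, T1_eq hF] at h
    refine ⟨σ, τ, ?_, congrArg Prod.snd h⟩
    have h1 : lr q (kum T).1 = σ • lr q 0 + τ • lr q (cl d) := congrArg Prod.fst h
    rwa [map_zero, smul_zero, zero_add] at h1
  have hep : ∀ q ∈ Sg (cl d), (ep + cl d) q = 1 := fun q hq =>
    (mem_Sg.1 ((Sg_ep (cl d)).symm ▸ hq : q ∈ Sg (ep + cl d))).2.2
  refine ⟨mem_Rd.2 ⟨mem_Sup.2 fun i h0 h2 hi => ?_, fun q hq => ?_,
    fun q hq => congrArg Prod.snd (atQ hF hI hd e T hq)⟩,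
    fun h => mem_Rd.2 ⟨mem_Sup.2 fun i h0 h2 hi => ?_, fun q hq => ?_,
      fun p hp => congrArg Prod.snd (atP hF hI hd e T h hp)⟩, fun hP q hq => ?_⟩
  · rw [mem_union, not_or] at hi
    by_cases hQ : i ∈ Q
    · exact congrArg Prod.fst (atQ hF hI hd e T hQ)
    · exact bad hF hI hd e T 0 h0 h2 hi.1 hi.2 hQ
  · obtain ⟨σ, τ, h1, -⟩ := hloc q hq
    exact Lq_of_lr (mem_Sg.1 hq).2.2 h1
  · rw [mem_union, not_or, Sg_ep] at hi
    by_cases hP : i ∈ P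
    · exact congrArg Prod.fst (atP hF hI hd e T h hP)
    · exact bad hF hI hd e T 1 h0 h2 hi.1 hP hi.2
  · rw [Sg_ep] at hq
    obtain ⟨σ, τ, h1, h2⟩ := hloc q hq
    have h3 : (kum T).1 q = τ * cl d q := congrArg Prod.fst h1
    rw [h, (mem_Sg.1 hq).2.2, mul_one] at h3
    have h4 : τ = 0 := h3.symm
    rw [h4, zero_smul, add_zero] at h2
    exact Lq_of_lr (hep q hq) h2
  · obtain ⟨σ, τ, -, h2⟩ := hloc q hq
    rw [c45 hF hP, map_zero, smul_zero, add_zero] at h2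
    exact Lq_of_lr (hep q hq) h2

/-- four rational points -/
theorem pts8 (hF : Fam8 r s P Q) (hI : Inv8 r s P Q u v) {t d : ℤ}
    (e : ∏ j, fm8 r s u v j = t ^ 2 * d) :
    ∃ T : Fin 4 → (cvE ![0, d * r ^ 2, d * s ^ 2]).Point,
      kum (T 0) = (0, ep + cl d) ∧ kum (T 1) = (cl d, cn r s 4 + cn r s 5) ∧
      kum (T 2) = (ka1 (cn r s) (kk8 r s u v), ep + cl d + ka3 (cn r s) (kk8 r s u v)) ∧
      kum (T 3) = (0, ka2 (cn r s) (kk8 r s u v)) := by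
  obtain ⟨t0, d0⟩ := td_ne hI e
  have he := dsc_ne' hF d0
  have r0 := r_ne hF
  have s0 := s_ne hF
  have a0 := a_ne hF
  have hδ := del_eq hI e
  rw [Fin.sum_univ_eight] at hδ
  rw [Fin.prod_univ_eight] at e
  have f0 := hI.ne 0
  have f1 := hI.ne 1
  have f2 := hI.ne 2
  have f3 := hI.ne 3
  have f4 := hI.ne 4
  have f5 := hI.ne 5
  have f6 := hI.ne 6
  have f7 := hI.ne 7
  have g0 : fm8 r s u v 0 = u + v := rfl
  have g1 : fm8 r s u v 1 = v := rfl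
  have g2 : fm8 r s u v 2 = u := rfl
  have g3 : fm8 r s u v 3 = u + 2 * v := rfl
  have g4 : fm8 r s u v 4 = (r + s) * u + 2 * s * v := rfl
  have g5 : fm8 r s u v 5 = (r - s) * u + 2 * r * v := rfl
  have g6 : fm8 r s u v 6 = s * u - (r - s) * v := rfl
  have g7 : fm8 r s u v 7 = r * u + (r + s) * v := rfl
  have c0 : cn r s 0 = ep := cn_zero r s
  have c2 : cn r s 2 = cl r := rfl
  have c3 : cn r s 3 = cl s := rfl
  have c4 : cn r s 4 = cl (r + s) := rfl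
  have hk : ∀ j, cl (fm8 r s u v j) = kk8 r s u v j := fun j => rfl
  obtain ⟨T2, h2⟩ := pt_gen he (mul_ne_zero f2 f6)
    (u₀ := d * r * s * fm8 r s u v 2 * fm8 r s u v 3 * fm8 r s u v 6 * fm8 r s u v 7)
    (u₁ := d * r * (r + s) * fm8 r s u v 1 * fm8 r s u v 4 * fm8 r s u v 2 * fm8 r s u v 6)
    (u₂ := d * s * (r + s) * fm8 r s u v 0 * fm8 r s u v 5 * fm8 r s u v 2 * fm8 r s u v 6)
    (y := d ^ 2 * t * r * s * (r + s) * fm8 r s u v 2 * fm8 r s u v 6) (by positivity)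
    (by positivity) (by rw [ee1, g1, g2, g3, g4, g6, g7]; ring)
    (by rw [ee2, g0, g2, g3, g5, g6, g7]; ring)
    (by
      linear_combination
        d ^ 3 * r ^ 2 * s ^ 2 * (r + s) ^ 2 * fm8 r s u v 2 ^ 2 * fm8 r s u v 6 ^ 2 * e)
  obtain ⟨T', h'⟩ := pt_gen he (mul_ne_zero f1 f5)
    (u₀ := d * r * s * fm8 r s u v 0 * fm8 r s u v 1 * fm8 r s u v 4 * fm8 r s u v 5)
    (u₁ := d * r * (r + s) * fm8 r s u v 3 * fm8 r s u v 6 * fm8 r s u v 1 * fm8 r s u v 5)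
    (u₂ := d * s * (r + s) * fm8 r s u v 2 * fm8 r s u v 7 * fm8 r s u v 1 * fm8 r s u v 5)
    (y := d ^ 2 * t * r * s * (r + s) * fm8 r s u v 1 * fm8 r s u v 5) (by positivity)
    (by positivity) (by rw [ee1, g0, g1, g3, g4, g5, g6]; ring)
    (by rw [ee2, g0, g1, g2, g4, g5, g7]; ring)
    (by
      linear_combination
        d ^ 3 * r ^ 2 * s ^ 2 * (r + s) ^ 2 * fm8 r s u v 1 ^ 2 * fm8 r s u v 5 ^ 2 * e)
  rw [cl7 d0 r0 s0 f2 f3 f6 f7, cl7 d0 r0 a0 f1 f4 f2 f6] at h2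
  rw [cl7 d0 r0 s0 f0 f1 f4 f5, cl7 d0 r0 a0 f3 f6 f1 f5] at h'
  simp only [hk, ← c2, ← c3, ← c4] at h2 h'
  have h0 := root0 (pow_ne_zero 2 r0) (pow_ne_zero 2 s0) d0 he (ee1 r s d) (ee2 r s d)
    (LocDAux.ns_root he 0)
  have h1 := root1 (pow_ne_zero 2 r0) (B_ne hF) (hsum r s) d0 he (ee1 r s d) (ee2 r s d)
    (LocDAux.ns_root he 1)
  rw [T0_eq hF] at h0
  rw [T1_eq hF] at h1
  have hadd : ∀ S T : (cvE ![0, d * r ^ 2, d * s ^ 2]).Point, kum (S + T) = kum S + kum T :=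
    fun S T => map_add (kumHom he) S T
  have k2 := h2.trans (id2 c0 hδ)
  have k3 := id3 (cn r s) (kk8 r s u v) (cl d)
  rw [c0, add_self, zero_add] at k3
  exact ⟨![_, _, T2, T' + T2 + _], h0, h1, k2, ((hadd _ _).trans
    (congrArg₂ (· + ·) ((hadd _ _).trans (congrArg₂ (· + ·) h' k2)) h1)).trans k3⟩

theorem kn8 (hF : Fam8 r s P Q) (hI : Inv8 r s P Q u v) :
    Kn (cn r s) (kk8 r s u v) P Q ∧ (P ≠ ∅ → ∀ q ∈ Sg (∑ j, kk8 r s u v j),
      Lq (ep + ∑ j, kk8 r s u v j) q (ka3 (cn r s) (kk8 r s u v)) = 0) := by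
  obtain ⟨d, t, hd, -, e⟩ := exists_sqfree (prod_ne_zero_iff.2 fun j (_ : j ∈ univ) => hI.ne j)
  obtain ⟨T, h0, h1, h2, h3⟩ := pts8 hF hI e
  have k0 := kum8 hF hI hd e (T 0)
  have k1 := kum8 hF hI hd e (T 1)
  have k2 := kum8 hF hI hd e (T 2)
  have k3 := kum8 hF hI hd e (T 3)
  rw [h0] at k0
  rw [h1] at k1
  rw [h2] at k2
  rw [h3] at k3
  rw [← del_eq hI e] at k0 k1 k2 k3
  refine ⟨⟨k1.1, k2.1, k0.2.1 rfl, k3.2.1 rfl⟩, fun hP q hq => ?_⟩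
  have a0 := k0.2.2 hP q hq
  have a2 := k2.2.2 hP q hq
  rwa [map_add, a0, zero_add] at a2

theorem rank8 (hF : Fam8 r s P Q) (hI : Inv8 r s P Q u v) {t d : ℤ} (hd : Squarefree d)
    (e : ∏ j, fm8 r s u v j = t ^ 2 * d)
    (h1 : ∀ y ∈ Rd (∑ j, kk8 r s u v j) P Q,
      y ∈ K2 (∑ j, kk8 r s u v j) (ka1 (cn r s) (kk8 r s u v)))
    (h2 : ∀ z ∈ Rd (ep + ∑ j, kk8 r s u v j) Q P,
      z ∈ K2 (ep + ∑ j, kk8 r s u v j) (ka2 (cn r s) (kk8 r s u v))) :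
    Module.rank ℤ (cvE ![0, d * r ^ 2, d * s ^ 2]).Point = 2 := by
  have he := dsc_ne' hF hd.ne_zero
  obtain ⟨T, t0, t1, t2, t3⟩ := pts8 hF hI e
  obtain ⟨s0, s1, s2⟩ := hI.star
  rw [del_eq hI e] at h1 h2 s0
  let c : (Fin 4 → ZMod 2) →ₗ[ZMod 2] X × X :=
    Fintype.linearCombination (ZMod 2) fun i => kum (T i)
  have hc : ∀ w : Fin 4 → ZMod 2,
      c w = w 0 • kum (T 0) + w 1 • kum (T 1) + w 2 • kum (T 2) + w 3 • kum (T 3) := fun w => by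
    rw [Fintype.linearCombination_apply, Fin.sum_univ_four]
  have hker : LinearMap.ker c = ⊥ := by
    refine LinearMap.ker_eq_bot'.2 fun w hw => ?_
    rw [hc, t0, t1, t2, t3] at hw
    have a1 := congrArg (fun z : X × X => st z.1) hw
    simp only [Prod.fst_add, Prod.smul_fst, map_add, map_smul, s0, s1, map_zero,
      Prod.fst_zero] at a1
    have b1 : w 1 = 0 ∧ w 2 = 0 := by
      revert a1
      generalize w 0 = x0, w 1 = x1, w 2 = x2, w 3 = x3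
      revert x0 x1 x2 x3
      decide
    rw [b1.1, b1.2, zero_smul, zero_smul, add_zero, add_zero] at hw
    have a2 := congrArg (fun z : X × X => st z.2) hw
    simp only [Prod.snd_add, Prod.smul_snd, map_add, map_smul, s0, s2, map_zero, st_ep,
      Prod.snd_zero] at a2
    have b2 : w 0 = 0 ∧ w 3 = 0 := by
      revert a2
      generalize w 0 = x0, w 3 = x3
      revert x0 x3
      decide
    funext i
    fin_cases i
    exacts [b2.1, b1.1, b1.2, b2.2]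
  obtain ⟨g, hg⟩ := c.exists_leftInverse_of_injective hker
  have hg' : ∀ w, g (c w) = w := fun w => LinearMap.congr_fun hg w
  have hΨ : ∀ S, kumHom he S = kum S := fun S => rfl
  have hsm : ∀ (w : ZMod 2) S, kumHom he (w.val • S) = w • kum S := fun w S => by
    rw [map_nsmul, hΨ, ← Nat.cast_smul_eq_nsmul (ZMod 2), ZMod.natCast_zmod_val]
  let Φ : (cvE ![0, d * r ^ 2, d * s ^ 2]).Point →+ (Fin 4 → ZMod 2) :=
    g.toAddMonoidHom.comp (kumHom he)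
  have hΦ : ∀ S, Φ S = g (kumHom he S) := fun S => rfl
  have hx : ∀ z : X × X, z + z = 0 := fun z => Prod.ext (add_self _) (add_self _)
  have hran : ∀ S : (cvE ![0, d * r ^ 2, d * s ^ 2]).Point, ∃ w, kum S = c w := by
    intro S
    obtain ⟨w1, w2, hw⟩ := mem_K2.1 (h1 _ (kum8 hF hI hd e S).1)
    have a0 : kum (S + w1.val • T 1 + w2.val • T 2)
        = kum S + w1 • kum (T 1) + w2 • kum (T 2) := by
      rw [← hΨ, map_add, map_add, hsm, hsm, hΨ]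
    have a1 : (kum (S + w1.val • T 1 + w2.val • T 2)).1 = 0 := by
      rw [a0, t1, t2, Prod.fst_add, Prod.fst_add, Prod.smul_fst, Prod.smul_fst, add_assoc, hw,
        add_self]
    obtain ⟨w0, w3, hw'⟩ := mem_K2.1 (h2 _ ((kum8 hF hI hd e _).2.1 a1))
    have a2 : kum (S + w1.val • T 1 + w2.val • T 2) = w0 • kum (T 0) + w3 • kum (T 3) := by
      rw [t0, t3]
      exact Prod.ext (by rw [a1]; simp) hw'.symm
    refine ⟨![w0, w1, w2, w3], ?_⟩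
    rw [hc]
    change kum S = w0 • kum (T 0) + w1 • kum (T 1) + w2 • kum (T 2) + w3 • kum (T 3)
    rw [a0] at a2
    linear_combination (norm := abel) a2 - hx (w1 • kum (T 1)) - hx (w2 • kum (T 2))
  have hk : ∀ S, Φ S = 0 → ∃ R, S = 2 • R := by
    intro S hS
    obtain ⟨w, hw⟩ := hran S
    rw [hΦ, hΨ, hw, hg'] at hS
    rw [hS, map_zero] at hw
    have hz : ∀ m : Fin 2, cl (rep (dl ![0, d * r ^ 2, d * s ^ 2] m.castSucc S)) = 0 := by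
      intro m
      fin_cases m
      exacts [congrArg Prod.fst hw, congrArg Prod.snd hw]
    refine half_of_bits he S (fun m => ?_) fun m l hl => ?_
    · rw [← cl_zero_apply, hz]
      rfl
    · rw [← cl_prime_apply _ hl, hz]
      rfl
  refine rank_two (fg_of_finiteIndex (disc_cvE he) (finiteIndex_two Φ hk)) Φ (fun w => ?_) hk
    (card_two_tors he)
  refine ⟨∑ i, (w i).val • T i, ?_⟩
  have hw : kumHom he (∑ i, (w i).val • T i) = c w := by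
    rw [map_sum, Fintype.linearCombination_apply]
    exact sum_congr rfl fun i _ => hsm _ _
  rw [hΦ, hw, hg']

end Pool.Agent.Lib.MP_7d3fda_nt.R5
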