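import Pool.Agent.Lib.MP_7d3fda_nt.R5.ZMove
import Pool.Agent.Lib.MP_7d3fda_nt.R5.ZDiag
import Pool.Agent.Lib.MP_7d3fda_nt.R5.ZKum
import Pool.Agent.Lib.MP_7d3fda_nt.R5.BDefs
import Pool.Agent.Lib.MP_7d3fda_nt.R3.XGeo

open Finset
open scoped NumberTheorySymbols

noncomputable section

namespace Pool.Agent.Lib.MP_7d3fda_nt.R5

open Pool.Agent.Lib.MP_788af2_nt Pool.Agent.Lib.MP_7d3fda_nt.R2 Pool.Agent.Lib.MP_7d3fda_nt.R3

namespace ZGeoAux

theorem norm8 (c₀ : Fin 8 → ℤ) (h : Function.Injective c₀) :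
    ∃ (μ g : ℤ) (c : Fin 8 → ℕ), g ≠ 0 ∧ Pat8 c ∧ ∀ j, c₀ j = μ + g * c j := by
  obtain ⟨j₀, -, hj⟩ := exists_min_image univ c₀ univ_nonempty
  obtain ⟨f, hf, hg⟩ := extract_gcd (s := univ) (fun j => c₀ j - c₀ j₀) univ_nonempty
  obtain ⟨g, hgd⟩ : ∃ g, g = univ.gcd fun j => c₀ j - c₀ j₀ := ⟨_, rfl⟩
  have g1 : 0 ≤ g := by
    rw [hgd, ← Finset.normalize_gcd, ← Int.abs_eq_normalize]
    exact abs_nonneg _
  rw [← hgd] at hf
  have g0 : g ≠ 0 := by
    rintro rfl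
    have a := hf 0 (mem_univ _)
    have b := hf 1 (mem_univ _)
    exact absurd (h (show c₀ 0 = c₀ 1 by linarith)) (by decide)
  have f0 : ∀ j, 0 ≤ f j := fun j => by
    have a := hf j (mem_univ _)
    have b := hj j (mem_univ _)
    exact nonneg_of_mul_nonneg_right (by linarith) (lt_of_le_of_ne g1 g0.symm)
  have e : ∀ j, c₀ j = c₀ j₀ + g * ((f j).toNat : ℤ) := fun j => by
    rw [Int.toNat_of_nonneg (f0 j), ← hf j (mem_univ _)]
    ring
  refine ⟨c₀ j₀, g, fun j => (f j).toNat, g0, ⟨fun i j hij => h ?_, ⟨j₀, ?_⟩, ?_⟩, e⟩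
  · rw [e i, e j, show (f i).toNat = (f j).toNat from hij]
  · have a := e j₀
    have b : g * ((f j₀).toNat : ℤ) = 0 := by linarith
    exact_mod_cast (mul_eq_zero.1 b).resolve_left g0
  · obtain ⟨lam, hl⟩ := gcd_eq_sum_mul univ f
    refine ⟨lam, ?_⟩
    rw [← hg, hl]
    exact sum_congr rfl fun j _ => by rw [Int.toNat_of_nonneg (f0 j), mul_comm]

/-- the characters of a move -/
theorem chi8 {c : Fin 7 → X} {k : Fin 8 → X} {w : Fin 8 → ℕ} (hc : ∀ t j, c t (w j) = 0)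
    (hk : ∀ j i, k i (w j) = if i = j then 1 else 0) {η : X →ₗ[ZMod 2] ZMod 2}
    (hη : ∀ γ ∈ Ga1 c k, η γ = 0) :
    ∃ χ : Fin 8 → X →ₗ[ZMod 2] ZMod 2, ∑ l, χ l = η ∧ (∀ l t, χ l (c t) = 0) ∧
      (∀ l i j, χ l (k i) + χ l (k j) = (if i = l then 1 else 0) + if j = l then 1 else 0) ∧
      (∀ l, χ l (∑ j, k j) = 1) ∧
      ∀ (l : Fin 7) i, χ l.castSucc (k i) = if i = l.castSucc then 1 else 0 := by
  have two := ZMoveAux.two0
  refine ⟨fun l => Finsupp.lapply (w l) + if l = 7 then η + ∑ m, Finsupp.lapply (w m) else 0,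
    ?_, fun l t => ?_, fun l i j => ?_, fun l => ?_, fun l i => ?_⟩
  · rw [sum_add_distrib, sum_ite_eq', if_pos (mem_univ _), add_comm η, ← add_assoc,
      ZMoveAux.add_self', zero_add]
  · by_cases h : l = 7 <;> simp [h, hc, hη _ (ZMoveAux.g_c c k t)]
  · have a := hη _ (ZMoveAux.g_k c k i j)
    rw [map_add] at a
    by_cases h : l = 7
    · simp only [if_pos h, LinearMap.add_apply, LinearMap.sum_apply, Finsupp.lapply_apply, hk,
        sum_ite_eq, mem_univ, if_true]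
      linear_combination a + two
    · simp only [if_neg h, add_zero, Finsupp.lapply_apply, hk]
  · have a := hη _ (ZMoveAux.g_sum c k)
    by_cases h : l = 7
    · simp only [if_pos h, LinearMap.add_apply, a, LinearMap.sum_apply, Finsupp.lapply_apply,
        Finsupp.finsetSum_apply, hk, sum_ite_eq', mem_univ, if_true]
      decide
    · simp [h, hk]
  · have h : l.castSucc ≠ 7 := Fin.castSucc_ne_last l
    simp only [if_neg h, add_zero, Finsupp.lapply_apply, hk]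

/-- the symmetric table of symbols -/
def Th (θ : Fin 8 → Fin 8 → ZMod 2) (k l : Fin 8) : ZMod 2 :=
  if k < l then θ k l else if l < k then θ l k else 0

/-- the prescribed symbols -/
def qq8 (θ : Fin 8 → Fin 8 → ZMod 2) (v w : Fin 7 × Fin 8) : ZMod 2 :=
  if w.1 = v.1 then ∑ m, Th θ w.1.castSucc m else Th θ w.1.castSucc v.1.castSucc

theorem dg8 {N : Fin 8 → Fin 8 → Fin 8 → Fin 8 → ZMod 2} {σ θ : Fin 8 → Fin 8 → ZMod 2}
    (h0 : ∀ j k, N j k j k = 0) (hs : ∀ i l j k, N i l j k = N j k i l)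
    (hθ : ∀ j k l, k < l → N j l j k = θ k l)
    (hq : ∀ v w : Fin 7 × Fin 8, v.2 < w.2 → N v.2 v.1.castSucc w.2 w.1.castSucc = qq8 θ v w)
    (hσ : ∀ v : Fin 7 × Fin 8, σ v.2 v.1.castSucc = if v.2 = 7 then 0 else 1)
    (hr : ∀ i j k, i ≠ j →
      ∑ l, N i l j k = (if i = k then 1 else 0) + (if j = k then 1 else 0) + σ j k) : Dg8 N := by
  have a : ∀ j k l, N j l j k = Th θ k l := fun j k l => by
    rcases lt_trichotomy k l with h | rfl | h
    · rw [Th, if_pos h, hθ j k l h]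
    · rw [Th, if_neg (lt_irrefl _), if_neg (lt_irrefl _), h0]
    · rw [Th, if_neg h.not_gt, if_pos h, hs, hθ j l k h]
  have b : ∀ i j, i < j → ∀ k l, k ≠ 7 → l ≠ 7 →
      N i l j k = if k = l then ∑ m, N 0 m 0 k else N 0 l 0 k := fun i j hij k l hk hl => by
    obtain ⟨k, rfl⟩ := Fin.exists_castSucc_eq.2 hk
    obtain ⟨l, rfl⟩ := Fin.exists_castSucc_eq.2 hl
    simpa only [qq8, a, Fin.castSucc_inj] using hq (l, i) (k, j) hij
  refine diag8 N σ h0 hs (fun j k l => (a j k l).trans (a 0 k l).symm)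
    (fun i j hij k l hk hl => ?_) (fun j k hk => ?_) hr
  · rcases lt_or_gt_of_ne hij with h | h
    · exact b i j h k l hk hl
    · rw [hs, b j i h l k hl hk]
      by_cases e : k = l
      · rw [e]
      · rw [if_neg e, if_neg (Ne.symm e), hs]
  · obtain ⟨k, rfl⟩ := Fin.exists_castSucc_eq.2 hk
    exact hσ (k, j)

theorem H80 {r s : ℤ} {P Q : Finset ℕ} (hF : Fam8 r s P Q) : H8 r s ≠ 0 := by
  have h1 := hF.s0
  have h2 := hF.sr
  have h3 : 0 < r := by omega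
  have h4 : 0 < r - s := by omega
  unfold H8
  positivity

theorem pq_dvd {r s : ℤ} {P Q : Finset ℕ} (hF : Fam8 r s P Q) :
    (∀ p ∈ P, (p : ℤ) ∣ H8 r s) ∧ ∀ q ∈ Q, (q : ℤ) ∣ H8 r s := by
  rcases hF.cas with ⟨rfl, rfl, -⟩ | ⟨p, q, rfl, rfl, -, -, -, h1, h2, -⟩
  · simp
  · simp only [mem_singleton, forall_eq]
    exact ⟨h1.trans (cz8_dvd r s 2), h2.trans (cz8_dvd r s 4)⟩

end ZGeoAux

open ZGeoAux ZMoveAux in
theorem move8 {r s u v N : ℤ} {P Q : Finset ℕ} (hF : Fam8 r s P Q) (hI : Inv8 r s P Q u v)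
    (hJ : Inj8 (cn r s) (kk8 r s u v) P Q) (N0 : N ≠ 0) (η : X →ₗ[ZMod 2] ZMod 2)
    (hη : ∀ γ ∈ Ga1 (cn r s) (kk8 r s u v), η γ = 0) :
    ∃ (c : Fin 8 → ℕ) (W₀ : ℕ) (w : Fin 8 → ℕ)
      (qq : (Fin 8 → Fin 8 → ZMod 2) → Fin 7 × Fin 8 → Fin 7 × Fin 8 → ZMod 2)
      (sg : Fin 7 × Fin 8 → ZMod 2), Pat8 c ∧ 0 < W₀ ∧ (∀ k, (w k).Coprime W₀) ∧
      (∀ k l : Fin 7, w k.castSucc ≡ w l.castSucc [MOD W₀] → k = l) ∧
      ∀ x t, Good8 c W₀ w qq sg x t → ∃ u' v', Inv8 r s P Q u' v' ∧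
        Inj8 (cn r s) (kk8 r s u' v') P Q ∧
        Step8 (Sd (∑ j, kk8 r s u v j) P Q) (Rd (ep + ∑ j, kk8 r s u v j) Q P)
          (Sd (∑ j, kk8 r s u' v' j) P Q) η ∧
        (∀ j, fm8 r s u' v' j = fm8 r s u v j * (x + c j * t)) ∧
        (∏ j, (x + c j * t)) % 4 = 1 ∧ ∀ d : ℤ, Squarefree d → d ∣ N * ∏ j, fm8 r s u v j →
          Squarefree (d * ∏ j, (x + c j * t)) := by
  obtain ⟨w, hw⟩ := hI.wit
  obtain ⟨χ, χe, χc, χ2, χ1, χ7⟩ := chi8 (w := w) (fun t j => by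
    rw [cn, cl_prime_apply _ (hw j).1,
      TwistAux.qV_zero fun h => (hw j).2.1 (h.trans (cz8_dvd r s t))]) (fun j => (hw j).2.2) hη
  have χ0 : ∀ l, χ l ep = 0 := fun l => cn_zero r s ▸ χc l 0
  have hO := ok8 hF hI
  obtain ⟨f, hf⟩ : ∃ f, f = fm8 r s u v := ⟨_, rfl⟩
  have f0 : ∀ j, f j ≠ 0 := hf ▸ hI.ne
  have fe : ∀ j, f j = al8 r s j * u + be8 r s j * v := hf ▸ fm8_eq r s u v
  have kf : ∀ j, kk8 r s u v j = cl (f j) := fun j => by rw [hf]; rfl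
  obtain ⟨G, hG⟩ : ∃ G, G = ∏ j, f j := ⟨_, rfl⟩
  have G0 : G ≠ 0 := hG ▸ prod_ne_zero_iff.2 fun j _ => f0 j
  have U0 : u ≠ 0 := hI.ne 2
  have fG : ∀ j, f j ∣ G := fun j => hG ▸ dvd_prod_of_mem f (mem_univ j)
  have UG : u ∣ G := by
    have := fG 2
    rwa [hf] at this
  obtain ⟨c₀, hc₀⟩ : ∃ c₀ : Fin 8 → ℤ, ∀ j, f j * c₀ j = be8 r s j * G :=
    ⟨fun j => be8 r s j * ∏ i ∈ univ.erase j, f i, fun j => by
      rw [hG, ← mul_prod_erase univ f (mem_univ j)]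
      ring⟩
  have idn : ∀ {i j}, i ≠ j → (c₀ i - c₀ j) * (f i * f j) = G * u * dz8 r s i j := fun {i j} h => by
    rw [← minor8 r s h]
    linear_combination f j * hc₀ i - f i * hc₀ j + be8 r s i * G * fe j - be8 r s j * G * fe i
  obtain ⟨μ, g, c, g0, hpat, hc⟩ := norm8 c₀ fun i j e => by
    by_contra hij
    refine mul_ne_zero (mul_ne_zero G0 U0) (dz8_ne hF i j) ?_
    rw [← idn hij, e, sub_self, zero_mul]
  obtain ⟨M, hM⟩ : ∃ M : ℕ, M = (g * (N * G) * H8 r s).natAbs := ⟨_, rfl⟩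
  have M0 : 0 < M :=
    hM ▸ Int.natAbs_pos.2 (mul_ne_zero (mul_ne_zero g0 (mul_ne_zero N0 G0)) (H80 hF))
  have dM : ∀ {x : ℤ}, x ∣ g * (N * G) * H8 r s → x ∣ M := fun h => hM ▸ Int.dvd_natAbs.2 h
  have gM : g ∣ M := dM (Dvd.intro (N * G * H8 r s) (by ring))
  have NM : N * G ∣ M := dM (Dvd.intro (g * H8 r s) (by ring))
  have GM : G ∣ M := (Dvd.intro_left _ rfl).trans NM
  have HM : H8 r s ∣ M := dM (Dvd.intro_left _ rfl)
  obtain ⟨T, hT⟩ : ∃ T, T = M.primeFactors.erase 2 := ⟨_, rfl⟩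
  have mT : ∀ p : ℕ, p.Prime → p ≠ 2 → (p : ℤ) ∣ M → p ∈ T := fun p hp h2 h => by
    rw [hT, mem_erase, Nat.mem_primeFactors]
    exact ⟨h2, hp, Int.natCast_dvd_natCast.1 h, M0.ne'⟩
  have sT : ∀ {x : ℤ}, x ≠ 0 → x ∣ M → cl x ∈ Sup T :=
    fun h0 h => cl_mem_Sup h0 fun p hp h2 hd => mT p hp h2 (hd.trans h)
  have PT : P ⊆ T := fun p hp =>
    mT p (hO.oP p hp).1 (hO.oP p hp).2 (((pq_dvd hF).1 p hp).trans HM)
  have QT : Q ⊆ T := fun p hp =>
    mT p (hO.oQ p hp).1 (hO.oQ p hp).2 (((pq_dvd hF).2 p hp).trans HM)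
  choose y hy hcl using fun k => class_ex M M0 (χ k)
  rw [← hT] at hcl
  have W0 : 0 < 8 * M := by omega
  have kT : ∀ j, kk8 r s u v j ∈ Sup T := fun j => (kf j).symm ▸ sT (f0 j) ((fG j).trans GM)
  refine ⟨c, 8 * M, y, qq8,
    fun v => (if v.2 = 7 then 0 else 1) + χ v.1.castSucc (cl g + cl G + cl u), hpat, W0, hy,
    fun k l h01 => ?_, ?_⟩
  · obtain ⟨q, -, hq, e⟩ := Nat.forall_exists_prime_gt_and_modEq 0 W0.ne' (hy k.castSucc)
    have a := (hcl _ q hq e _ (kT k.castSucc)).symm.trans (hcl _ q hq (e.trans h01) _ (kT _))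
    rw [χ7, χ7, if_pos rfl] at a
    by_contra hn
    rw [if_neg fun e => hn (Fin.castSucc_inj.1 e)] at a
    exact one_ne_zero a
  rintro x t ⟨θ, ρ, hr, hinj, hn, hθ, hq, hs⟩
  have rp := fun j k => (hr j k).1
  have rI := fun j k => Nat.prime_iff_prime_int.1 (rp j k)
  have r0 : ∀ j k, (ρ j k : ℤ) ≠ 0 := fun j k => (rI j k).ne_zero
  have rW : ∀ j k, ¬ρ j k ∣ 8 * M := fun j k h => by
    have a : (ρ j k).Coprime (8 * M) := by
      rw [Nat.Coprime, (hr j k).2.1.gcd_eq]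
      exact hy k
    exact (rp j k).ne_one (Nat.Coprime.eq_one_of_dvd a h)
  have rM : ∀ j k, ¬(ρ j k : ℤ) ∣ M := fun j k h =>
    rW j k (Dvd.dvd.mul_left (Int.natCast_dvd_natCast.1 h) _)
  have hMv : Mv8 (cn r s) (kk8 r s u v) T ρ χ :=
    { odd := fun p hp => by
        rw [hT, mem_erase] at hp
        exact ⟨Nat.prime_of_mem_primeFactors hp.2, hp.1⟩
      hc := fun t => sT (cz8_ne hF t) ((cz8_dvd r s t).trans HM)
      hk := kT
      pr := fun j k => ⟨rp j k, fun e => rW j k (e ▸ ⟨4 * M, by ring⟩), fun h => by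
        rw [hT, mem_erase] at h
        exact rM j k (Int.natCast_dvd_natCast.2 (Nat.dvd_of_mem_primeFactors h.2))⟩
      inj := hinj
      ep0 := χ0
      chi := fun j k => hcl k _ (rp j k) (hr j k).2.1 }
  have n0 : ∀ j, x + c j * t ≠ 0 := fun j => by
    rw [← hn]
    exact prod_ne_zero_iff.2 fun k _ => r0 j k
  have a8 : ∀ j, ((8 * M : ℕ) : ℤ) ∣ ∏ k, (y k : ℤ) - (x + c j * t) := fun j => by
    have b := (Nat.ModEq.prod (s := univ) fun k _ => (hr j k).2.1).dvd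
    rw [← hn]
    exact_mod_cast b
  obtain ⟨s', hs'⟩ : g ∣ t := by
    obtain ⟨j₀, hj₀⟩ := hpat.zero
    obtain ⟨lam, hl⟩ := hpat.bez
    have b : ∀ j, g ∣ (c j : ℤ) * t := fun j => by
      have b := dvd_sub (a8 j₀) (a8 j)
      rw [hj₀] at b
      refine (gM.trans ⟨8, by push_cast; ring⟩).trans (b.trans (dvd_of_eq ?_))
      push_cast
      ring
    rw [← one_mul t, ← hl, sum_mul]
    exact dvd_sum fun j _ => by rw [mul_assoc]; exact (b j).mul_left _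
  have s0 : t ≠ 0 := fun e => (hr 0 0).2.2 (e ▸ dvd_zero _)
  have hfm : ∀ j, fm8 r s (x * u - s' * μ * u) (x * v + s' * (G - μ * v)) j =
      fm8 r s u v j * (x + c j * t) := fun j => by
    rw [← hf, fm8_eq, hs']
    linear_combination -s' * hc₀ j + s' * f j * hc j - (x - s' * μ) * fe j
  have hkk : kk8 r s (x * u - s' * μ * u) (x * v + s' * (G - μ * v)) = nk8 (kk8 r s u v) ρ := by
    funext j
    rw [kk8, hfm, cl_mul (hI.ne j) (n0 j), ← hn, cl_prod _ _ fun k _ => r0 j k, nk8,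
      sum_congr rfl fun k _ => cl_prime (rp j k)]
    rfl
  have hI' : Inv8 r s P Q (x * u - s' * μ * u) (x * v + s' * (G - μ * v)) := by
    refine ⟨fun j => hfm j ▸ mul_ne_zero (hI.ne j) (n0 j), fun p hp h2 h => ?_, fun p hp => ?_,
      fun p hp => ?_, hkk ▸ star_new hMv hI.star, w, fun j => ⟨(hw j).1, (hw j).2.1, fun i => ?_⟩⟩
    · rw [hkk, dl_other (ne_old hMv (mT p hp h2 (h.trans (Dvd.dvd.trans
        ⟨2 * (r ^ 2 + s ^ 2), by rw [H8]; ring⟩ HM))))]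
      exact hI.sig p hp h2 h
    · rw [hkk, map_add, lr_dl hMv (PT hp), ← map_add]
      exact ⟨(hI.hP p hp).1, (congrArg Prod.fst (lr_ka3 hMv (PT hp))).trans (hI.hP p hp).2⟩
    · rw [hkk, lr_dl hMv (QT hp)]
      exact hI.hQ p hp
    · rw [hkk, nk_other _ fun j' k e => rM j' k ?_, (hw j).2.2 i]
      have a := (hw j).2.2 j
      rw [if_pos rfl, kf, cl_prime_apply _ (hw j).1] at a
      rw [e]
      exact (XKumAux.dvd_of_qV a).trans ((fG j).trans GM)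
  have hD : Dg8 fun i k j k' => qL (ρ j k') (ρ i k) := by
    refine dg8 (σ := fun j k => qL (ρ j k) t + χ k (cl g + cl G + cl u)) (θ := θ)
      (fun j k => TableAux.qL_self (rp j k)) (fun i k j k' => ?_)
      (fun j k l h => XGeoAux.qL_of_J (rp _ _) (hθ j k l h))
      (fun v w h => XGeoAux.qL_of_J (rp _ _) (hq v w h)) (fun v => ?_) fun i j k hij => ?_
    · by_cases e : ρ j k' = ρ i k
      · rw [e]
      · have a := qL_rec (rp j k') (rp i k) (hMv.pr j k').2.1 (hMv.pr i k).2.1 e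
        rw [q4_new hMv, zero_mul] at a
        linear_combination a - qL (ρ i k) (ρ j k') * two0
    · rw [XGeoAux.qL_of_J (rp _ _) (hs v)]
      linear_combination χ v.1.castSucc (cl g + cl G + cl u) * two0
    · have hq := isQF_qL (rp j k)
      have ch : ∀ {z : ℤ}, z ≠ 0 → cl z ∈ Sup T → qL (ρ j k) z = χ k (cl z) := fun h0 h => by
        rw [← hMv.chi j k _ h, lin_cl hq h0]
      have nd : ∀ k', ¬(ρ j k : ℤ) ∣ ρ i k' := fun k' =>
        TableAux.not_dvd_prime (rp j k) (rp i k') fun e => hij (hinj _ _ _ _ e).1.symm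
      have c0 : (c i : ℤ) - c j ≠ 0 := fun e => hij (hpat.inj (by exact_mod_cast sub_eq_zero.1 e))
      have a1 : qL (ρ j k) (x + c i * t) = qL (ρ j k) (((c i : ℤ) - c j) * t) := by
        refine TableAux.qL_congr (rp j k) (fun h => ?_) ?_
        · rw [← hn] at h
          obtain ⟨l, -, hl⟩ := (Prime.dvd_finsetProd_iff (rI j k) _).1 h
          exact nd l hl
        · rw [show x + c i * t - ((c i : ℤ) - c j) * t = x + c j * t by ring, ← hn]
          exact dvd_prod_of_mem (fun k => (ρ j k : ℤ)) (mem_univ k)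
      have a0 : qL (ρ j k) (x + c i * t) = ∑ l, qL (ρ j k) (ρ i l) := by
        rw [← lin_cl hq (n0 i), ← hn, cl_prod _ _ fun l _ => r0 i l, map_sum]
        exact sum_congr rfl fun l _ => lin_cl hq (r0 i l)
      rw [a0, hq _ _ c0 s0] at a1
      have a2 : qL (ρ j k) (g * ((c i : ℤ) - c j) * (f i * f j)) =
          qL (ρ j k) (G * u * dz8 r s i j) := by
        rw [← idn hij, hc i, hc j]
        congr 1
        ring
      have a3 : qL (ρ j k) (dz8 r s i j) = 0 := by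
        rw [← lin_cl hq (dz8_ne hF i j), cl_dz8 hF, dl8, map_sum]
        refine sum_eq_zero fun m _ => ?_
        split_ifs
        exacts [(hMv.chi j k _ (hMv.hc m)).trans (χc k m), map_zero _]
      rw [hq _ _ (mul_ne_zero g0 c0) (mul_ne_zero (f0 i) (f0 j)), hq _ _ g0 c0,
        hq _ _ (f0 i) (f0 j), hq _ _ (mul_ne_zero G0 U0) (dz8_ne hF i j), hq _ _ G0 U0, a3,
        ch g0 (sT g0 gM), ch G0 (sT G0 GM), ch U0 (sT U0 (UG.trans GM)),
        ch (f0 i) (kf i ▸ hMv.hk i), ch (f0 j) (kf j ▸ hMv.hk j), ← kf, ← kf, χ2] at a2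
      simp only [map_add]
      rw [a1]
      generalize ((if i = k then 1 else 0) + if j = k then 1 else 0 : ZMod 2) = b at a2 ⊢
      linear_combination a2 - (χ k (cl g) + b) * two0
  have hK := (kn8 hF hI').1
  rw [hkk] at hK
  obtain ⟨k1, k2⟩ := move_step8 hMv (cn_zero r s) PT QT hO.dPQ hK hJ χ1 hD
  refine ⟨_, _, hI', hkk ▸ k2, hkk ▸ χe ▸ k1, hfm, ?_, fun d hd hdv => ?_⟩
  · obtain ⟨k, hk⟩ : Odd (∏ k, (ρ 0 k : ℤ)) := Finset.prod_induction _ Odd (fun _ _ => Odd.mul)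
      odd_one fun k _ => Int.odd_coe_nat _ |>.2 ((rp 0 k).odd_of_ne_two (hMv.pr 0 k).2.1)
    rw [hn] at hk
    have b : ∀ j, ((x + c j * t : ℤ) : ZMod 4) = ((2 * k + 1 : ℤ) : ZMod 4) := fun j => by
      refine (ZMod.intCast_eq_intCast_iff_dvd_sub _ _ 4).2 ?_
      have b := dvd_sub (a8 j) (a8 0)
      rw [hk] at b
      exact (Dvd.dvd.trans (b := ((8 * M : ℕ) : ℤ)) ⟨2 * M, by push_cast; ring⟩ b).trans
        (dvd_of_eq (by ring))
    refine (ZMod.intCast_eq_intCast_iff' _ 1 4).1 ?_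
    rw [Int.cast_prod, prod_congr rfl fun j _ => b j, prod_const]
    push_cast
    exact (by decide : ∀ k : ZMod 4, (2 * k + 1) ^ 8 = 1) _
  · have e : ∏ j, (x + c j * t) = ∏ z : Fin 8 × Fin 8, (ρ z.1 z.2 : ℤ) := by
      simp only [Fintype.prod_prod_type, hn]
    rw [e, squarefree_mul_iff]
    refine ⟨IsCoprime.isRelPrime (IsCoprime.prod_right fun t _ => ?_), hd, ?_⟩
    · refine ((rI _ _).irreducible.coprime_iff_not_dvd.2 fun h => rM _ _ (h.trans ?_)).symm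
      rw [← hf, ← hG] at hdv
      exact hdv.trans NM
    · refine squarefree_prod_of_pairwise_isCoprime (fun t _ t' _ h => ?_) fun t _ =>
        (rI _ _).squarefree
      exact (Nat.isCoprime_iff_coprime.2 ((Nat.coprime_primes (rp _ _) (rp _ _)).2 fun e =>
        h (Prod.ext (hinj _ _ _ _ e).1 (hinj _ _ _ _ e).2))).isRelPrime

end Pool.Agent.Lib.MP_7d3fda_nt.R5
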