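import Pool.Agent.Lib.MP_7d3fda_nt.R4.YFinal
import Pool.Agent.Lib.MP_f38b71_nt.Isog

open Finset Module
open scoped NumberTheorySymbols

noncomputable section

namespace Pool.Agent.Lib.MP_7d3fda_nt.R5

open Pool.Agent.Lib.MP_788af2_nt Pool.Agent.Lib.MP_7d3fda_nt.R2 Pool.Agent.Lib.MP_7d3fda_nt.R3

open Pool.Agent.Lib.MP_7d3fda_nt.R4

namespace ZIsogAux

theorem rank_fin (G : Type) [AddCommGroup G] [Finite G] : Module.rank ℤ G = 0 :=
  rank_eq_zero_iff.2 fun x => ⟨(Nat.card G : ℤ), by exact_mod_cast Nat.card_pos.ne', by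
    rw [natCast_zsmul, card_nsmul_eq_zero']⟩

theorem rank_le {G H : Type} [AddCommGroup G] [AddCommGroup H] (φ : G →+ H)
    (hk : {P | φ P = 0}.Finite) : Module.rank ℤ G ≤ Module.rank ℤ H := by
  have h1 := LinearMap.rank_range_add_rank_ker φ.toIntLinearMap
  have : Finite (LinearMap.ker φ.toIntLinearMap) := hk
  rw [rank_fin (LinearMap.ker φ.toIntLinearMap), add_zero] at h1
  rw [← h1]
  exact Submodule.rank_le _

theorem inf_of {G : Type} [AddCommGroup G] (h : 2 ≤ Module.rank ℤ G) : Infinite G := by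
  by_contra k
  have : Finite G := not_infinite_iff_finite.1 k
  rw [rank_fin G] at h
  exact absurd h (by norm_num)

theorem step {a b : ℚ} (hb : b ≠ 0) (hab : a ^ 2 - 4 * b ≠ 0)
    (h : 2 ≤ Module.rank ℤ (cv a b 0).Point) :
    Module.rank ℤ (cv a b 0).Point ≤ Module.rank ℤ (cv (-2 * a) (a ^ 2 - 4 * b) 0).Point := by
  have := inf_of h
  have hΔ : (cv (-2 * a) (a ^ 2 - 4 * b) 0 : WeierstrassCurve ℚ).Δ ≠ 0 := by
    have e : (cv (-2 * a) (a ^ 2 - 4 * b) 0 : WeierstrassCurve ℚ).Δ =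
        256 * b * (a ^ 2 - 4 * b) ^ 2 := by
      simp only [WeierstrassCurve.Δ, WeierstrassCurve.b₂, WeierstrassCurve.b₄, WeierstrassCurve.b₆,
        WeierstrassCurve.b₈]
      ring
    rw [e]
    exact mul_ne_zero (mul_ne_zero (by norm_num) hb) (pow_ne_zero _ hab)
  obtain ⟨φ, hφ, -⟩ := @MP_f38b71_nt.exists_twoIsogeny ℚ _ _ a b (cv a b 0)
    (cv (-2 * a) (a ^ 2 - 4 * b) 0) this rfl rfl hΔ
  exact rank_le φ (MP_f38b71_nt.IsRationalMap.finite_ker φ hφ)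

theorem mono {a b c a' b' c' : ℚ}
    (k : ∀ d : ℚ, d ≠ 0 → Module.rank ℤ (cv (d * a') (d ^ 2 * b') (d ^ 3 * c')).Point = 2 →
      Module.rank ℤ (cv (d * a) (d ^ 2 * b) (d ^ 3 * c)).Point = 2) (h : Goal4 a' b' c') :
    Goal4 a b c := by
  obtain ⟨K, κ, hκ, D₀, h⟩ := h
  refine ⟨K, κ, hκ, D₀, fun D hD => (h D hD).trans ?_⟩
  refine Nat.cast_le.2 (Set.ncard_le_ncard ?_ ?_)
  · rintro d ⟨h1, h2, h3⟩
    refine ⟨h1, h2, k d ?_ h3⟩
    have : d ≠ 0 := by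
      rcases h2 with h2 | ⟨m, h2, h4, -⟩ <;> omega
    exact_mod_cast this
  · refine (Set.finite_Icc (-⌈D⌉) ⌈D⌉).subset ?_
    rintro d ⟨h1, -⟩
    have h2 := abs_le.1 (h1.trans (Int.le_ceil D))
    exact ⟨by exact_mod_cast h2.1, by exact_mod_cast h2.2⟩

end ZIsogAux

/-- the rank does not change under the isogeny of degree two -/
theorem rank_isog {a b : ℚ} (hb : b ≠ 0) (hab : a ^ 2 - 4 * b ≠ 0)
    (h : Module.rank ℤ (cv (-2 * a) (a ^ 2 - 4 * b) 0).Point = 2) :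
    Module.rank ℤ (cv a b 0).Point = 2 := by
  have h1 := ZIsogAux.step (a := -2 * a) (b := a ^ 2 - 4 * b) hab
    (by
      have e : (-2 * a) ^ 2 - 4 * (a ^ 2 - 4 * b) = 16 * b := by ring
      rw [e]
      exact mul_ne_zero (by norm_num) hb) h.ge
  have r : Iso.Rel (2 : ℚ) 0 0 0
      (cv (-2 * (-2 * a)) ((-2 * a) ^ 2 - 4 * (a ^ 2 - 4 * b)) 0) (cv a b 0) :=
    ⟨two_ne_zero, by simp, by simp only; ring, by simp, by simp only; ring, by simp⟩
  have h2 := r.equiv.toIntLinearEquiv.rank_eq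
  have h3 : 2 ≤ Module.rank ℤ (cv a b 0).Point := (h.ge.trans h1).trans h2.ge
  exact le_antisymm ((ZIsogAux.step hb hab h3).trans h.le) h3

theorem goal_isog {a b : ℚ} (hb : b ≠ 0) (hab : a ^ 2 - 4 * b ≠ 0)
    (h : Goal4 (-2 * a) (a ^ 2 - 4 * b) 0) : Goal4 a b 0 := by
  refine ZIsogAux.mono (fun d hd k => ?_) h
  have e1 : d * (-2 * a) = -2 * (d * a) := by ring
  have e2 : d ^ 2 * (a ^ 2 - 4 * b) = (d * a) ^ 2 - 4 * (d ^ 2 * b) := by ring
  rw [mul_zero] at k ⊢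
  rw [e1, e2] at k
  refine rank_isog (mul_ne_zero (pow_ne_zero _ hd) hb) ?_ k
  rw [← e2]
  exact mul_ne_zero (pow_ne_zero _ hd) hab

/-- translation of the variable -/
theorem goal_shift {a b c : ℚ} (e : ℚ)
    (h : Goal4 (a + 3 * e) (b + 2 * a * e + 3 * e ^ 2) (c + b * e + a * e ^ 2 + e ^ 3)) :
    Goal4 a b c := by
  refine ZIsogAux.mono (fun d _ k => ?_) h
  have r : Iso.Rel (1 : ℚ) (d * e) 0 0 (cv (d * a) (d ^ 2 * b) (d ^ 3 * c))
      (cv (d * (a + 3 * e)) (d ^ 2 * (b + 2 * a * e + 3 * e ^ 2))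
        (d ^ 3 * (c + b * e + a * e ^ 2 + e ^ 3))) :=
    ⟨one_ne_zero, by simp, by simp only; ring, by simp, by simp only; ring, by simp only; ring⟩
  exact r.equiv.toIntLinearEquiv.rank_eq.symm.trans k

end Pool.Agent.Lib.MP_7d3fda_nt.R5
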