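import Pool.Agent.Lib.MP_7d3fda_nt.R5.ZDefs

open Finset

noncomputable section

namespace Pool.Agent.Lib.MP_7d3fda_nt.R5

open Pool.Agent.Lib.MP_788af2_nt Pool.Agent.Lib.MP_7d3fda_nt.R2 Pool.Agent.Lib.MP_7d3fda_nt.R3

/-- the data of a move -/
structure Mv8 (c : Fin 7 → X) (k : Fin 8 → X) (T : Finset ℕ) (r : Fin 8 → Fin 8 → ℕ)
    (χ : Fin 8 → X →ₗ[ZMod 2] ZMod 2) : Prop where
  odd : OddP T
  hc : ∀ t, c t ∈ Sup T
  hk : ∀ j, k j ∈ Sup T
  pr : ∀ j l, (r j l).Prime ∧ r j l ≠ 2 ∧ r j l ∉ T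
  inj : ∀ i l j m, r i l = r j m → i = j ∧ l = m
  ep0 : ∀ l, χ l ep = 0
  chi : ∀ j l, ∀ z ∈ Sup T, lin (qL (r j l)) z = χ l z

/-- the new classes -/
def nk8 (k : Fin 8 → X) (r : Fin 8 → Fin 8 → ℕ) (j : Fin 8) : X :=
  k j + ∑ l, Finsupp.single (r j l) 1

/-- the property of the symbols between the new primes -/
def Dg8 (N : Fin 8 → Fin 8 → Fin 8 → Fin 8 → ZMod 2) : Prop :=
  ∀ (c : Fin 8 → ZMod 2) (z : Fin 8 → Fin 8 → ZMod 2),
    (∀ j k, c k + ∑ i, ∑ l, N i l j k * z i l = z j k * (1 + ∑ i, ∑ l, N i l j k)) →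
    (∀ k, ∑ j, z j k = ∑ j, z j 0) ∧ (∑ j, z j 0 = 0 → ∑ k, c k = 0 ∧ ∀ j k, z j k = c j)

namespace ZMoveAux

/-- removal of the new primes -/
def rm (r : Fin 8 → Fin 8 → ℕ) : X →ₗ[ZMod 2] X :=
  LinearMap.id + ∑ j, ∑ l, (Finsupp.lapply (r j l)).smulRight (Finsupp.single (r j l) 1)

theorem two0 : (2 : ZMod 2) = 0 := rfl

theorem rm_apply (r : Fin 8 → Fin 8 → ℕ) (x : X) :
    rm r x = x + ∑ j, ∑ l, x (r j l) • Finsupp.single (r j l) (1 : ZMod 2) := by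
  simp only [rm, LinearMap.add_apply, LinearMap.id_apply, LinearMap.sum_apply,
    LinearMap.smulRight_apply, Finsupp.lapply_apply]

theorem add_self' {V : Type} [AddCommGroup V] [Module (ZMod 2) V] (x : V) : x + x = 0 := by
  rw [← two_smul (ZMod 2) x, two0, zero_smul]

theorem Sup_mono {T T' : Finset ℕ} (h : T ⊆ T') {x : X} (hx : x ∈ Sup T) : x ∈ Sup T' :=
  mem_Sup.2 fun i h0 h2 hi => mem_Sup.1 hx i h0 h2 fun h' => hi (h h')

theorem single_mem {T : Finset ℕ} {p : ℕ} (hp : p = 2 ∨ p ∈ T) :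
    Finsupp.single p (1 : ZMod 2) ∈ Sup T :=
  mem_Sup.2 fun i _ h2 hi => Finsupp.single_eq_of_ne (by
    rintro rfl
    exact hp.elim h2 hi)

theorem gam_le {c : Fin 7 → X} {k : Fin 8 → X} {S : Submodule (ZMod 2) X} (hc : ∀ t, c t ∈ S)
    (hk : ∀ i j, k i + k j ∈ S) : Ga1 c k ≤ S := by
  refine sup_le (Submodule.span_le.2 ?_) (Submodule.span_le.2 ?_)
  · rintro x ⟨t, rfl⟩
    exact hc t
  · rintro x ⟨t, rfl⟩
    exact hk _ _

theorem g_c (c : Fin 7 → X) (k : Fin 8 → X) (t : Fin 7) : c t ∈ Ga1 c k :=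
  Submodule.mem_sup_left (Submodule.subset_span ⟨t, rfl⟩)

theorem g_k (c : Fin 7 → X) (k : Fin 8 → X) (i j : Fin 8) : k i + k j ∈ Ga1 c k :=
  Submodule.mem_sup_right (Submodule.subset_span ⟨(i, j), rfl⟩)

theorem g_sum (c : Fin 7 → X) (k : Fin 8 → X) : ∑ j, k j ∈ Ga1 c k := by
  have e : ∑ j, k j = (k 0 + k 1) + (k 2 + k 3) + (k 4 + k 5) + (k 6 + k 7) := by
    rw [Fin.sum_univ_eight]
    abel
  rw [e]
  exact add_mem (add_mem (add_mem (g_k c k _ _) (g_k c k _ _)) (g_k c k _ _)) (g_k c k _ _)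

theorem g_ka2 (c : Fin 7 → X) (k : Fin 8 → X) : ka2 c k ∈ Ga1 c k := by
  have e : ka2 c k = c 4 + c 5 + (k 2 + k 3) + (k 4 + k 5) := by
    rw [ka2]
    abel
  rw [e]
  exact add_mem (add_mem (add_mem (g_c c k _) (g_c c k _)) (g_k c k _ _)) (g_k c k _ _)

section

variable {W : Type} [AddCommGroup W] [Module (ZMod 2) W] (f g : X →ₗ[ZMod 2] W) {c : Fin 7 → X}
  {k k' : Fin 8 → X} (w : W) (hk : ∀ j, f (k' j) = g (k j) + w)

include hk

theorem sh_sum : f (∑ j, k' j) = g (∑ j, k j) := by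
  simp only [map_sum, hk, sum_add_distrib, Fin.sum_univ_eight (f := fun _ => w)]
  rw [add_self' w, zero_add, add_self' w, zero_add, add_self' w, zero_add, add_self' w, add_zero]

theorem sh_two (u : W) (i j : Fin 8) : u + f (k' i) + f (k' j) = u + g (k i) + g (k j) := by
  rw [hk, hk, ← add_zero (u + g (k i) + g (k j)), ← add_self' w]
  abel

theorem sh_ka (hc : ∀ t, f (c t) = g (c t)) : f (ka1 c k') = g (ka1 c k) ∧
    f (ka2 c k') = g (ka2 c k) ∧ f (ka3 c k') = g (ka3 c k) := by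
  simp only [ka1, ka2, ka3, map_add, hc, sh_two f g w hk, and_self]

end

section

variable {c : Fin 7 → X} {k : Fin 8 → X} {T : Finset ℕ} {r : Fin 8 → Fin 8 → ℕ}
  {χ : Fin 8 → X →ₗ[ZMod 2] ZMod 2} (h : Mv8 c k T r χ)

include h

theorem sing (i l j m : Fin 8) :
    (Finsupp.single (r i l) (1 : ZMod 2)) (r j m) = if i = j ∧ l = m then 1 else 0 := by
  rw [Finsupp.single_apply]
  exact if_congr ⟨h.inj i l j m, fun e => by rw [e.1, e.2]⟩ rfl rfl

theorem old_zero {z : X} (hz : z ∈ Sup T) (j l : Fin 8) : z (r j l) = 0 :=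
  mem_Sup.1 hz _ (h.pr j l).1.ne_zero (h.pr j l).2.1 (h.pr j l).2.2

theorem rm_old {z : X} (hz : z ∈ Sup T) : rm r z = z := by
  simp [rm_apply, old_zero h hz]

theorem rm_new (x : X) (j l : Fin 8) : rm r x (r j l) = 0 := by
  simp only [rm_apply, Finsupp.add_apply, Finsupp.finsetSum_apply, Finsupp.smul_apply, sing h,
    smul_eq_mul, mul_ite, mul_one, mul_zero, ite_and, sum_ite_irrel, sum_const_zero, sum_ite_eq',
    mem_univ, if_true]
  exact add_self' _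

omit h in
theorem rm_other (x : X) {i : ℕ} (hi : ∀ j l, r j l ≠ i) : rm r x i = x i := by
  simp [rm_apply, hi]

theorem rm_single (j l : Fin 8) : rm r (Finsupp.single (r j l) 1) = 0 := by
  ext i
  by_cases hi : ∃ j l, r j l = i
  · obtain ⟨j, l, rfl⟩ := hi
    exact rm_new h _ j l
  · push Not at hi
    rw [rm_other _ hi, Finsupp.single_eq_of_ne (hi j l).symm]
    rfl

theorem rm_nk (j : Fin 8) : rm r (nk8 k r j) = k j := by
  simp [nk8, rm_old h (h.hk j), rm_single h]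

theorem nk_new (i j m : Fin 8) : nk8 k r i (r j m) = if i = j then 1 else 0 := by
  simp only [nk8, Finsupp.add_apply, Finsupp.finsetSum_apply, sing h, old_zero h (h.hk i), zero_add,
    ite_and, sum_ite_irrel, sum_const_zero, sum_ite_eq', mem_univ, if_true]

omit h in
theorem nk_other (j : Fin 8) {i : ℕ} (hi : ∀ j l, r j l ≠ i) : nk8 k r j i = k j i := by
  simp [nk8, hi]

theorem dl_new (j m : Fin 8) : (∑ i, nk8 k r i) (r j m) = 1 := by
  simp [Finsupp.finsetSum_apply, nk_new h]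

omit h in
theorem dl_other {i : ℕ} (hi : ∀ j l, r j l ≠ i) : (∑ j, nk8 k r j) i = (∑ j, k j) i := by
  simp [Finsupp.finsetSum_apply, nk_other _ hi]

theorem dl_mem : ∑ j, k j ∈ Sup T := Submodule.sum_mem _ fun j _ => h.hk j

theorem sg_sub : Sg (∑ j, k j) ⊆ T := fun p hp => by
  by_contra hn
  obtain ⟨h0, h2, h1⟩ := mem_Sg.1 hp
  rw [mem_Sup.1 (dl_mem h) p h0 h2 hn] at h1
  exact zero_ne_one h1

theorem ne_old {p : ℕ} (hp : p ∈ T) (j l : Fin 8) : r j l ≠ p :=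
  fun e => (h.pr j l).2.2 (e ▸ hp)

theorem new_mem (j l : Fin 8) : r j l ∈ Sg (∑ i, nk8 k r i) :=
  mem_Sg.2 ⟨(h.pr j l).1.ne_zero, (h.pr j l).2.1, dl_new h j l⟩

theorem sg_eq : Sg (∑ i, nk8 k r i) =
    Sg (∑ j, k j) ∪ univ.image fun t : Fin 8 × Fin 8 => r t.1 t.2 := by
  ext p
  rw [mem_union, mem_image]
  by_cases hi : ∃ j l, r j l = p
  · obtain ⟨j, l, rfl⟩ := hi
    exact ⟨fun _ => Or.inr ⟨(j, l), mem_univ _, rfl⟩, fun _ => new_mem h j l⟩
  · push Not at hi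
    rw [mem_Sg, mem_Sg, dl_other hi]
    exact ⟨Or.inl, fun e => e.resolve_right fun ⟨t, _, e⟩ => hi _ _ e⟩

theorem rm_mem {A : Finset ℕ} {x : X} (hx : x ∈ Sup (Sg (∑ i, nk8 k r i) ∪ A)) :
    rm r x ∈ Sup (Sg (∑ j, k j) ∪ A) := by
  refine mem_Sup.2 fun i h0 h2 hn => ?_
  by_cases hi : ∃ j l, r j l = i
  · obtain ⟨j, l, rfl⟩ := hi
    exact rm_new h _ j l
  · push Not at hi
    rw [rm_other _ hi]
    refine mem_Sup.1 hx i h0 h2 fun e => hn ?_
    rwa [mem_union, mem_Sg, dl_other hi, ← mem_Sg, ← mem_union] at e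

theorem q4_new (j l : Fin 8) : q4 (r j l) = 0 := by
  rw [q4_prime (h.pr j l).1 (h.pr j l).2.1, ← lin_ep (qL (r j l)), h.chi j l _ (ep_mem_Sup T),
    h.ep0]

theorem lr_single {p : ℕ} (hp : p ∈ T) (j l : Fin 8) :
    lr p (Finsupp.single (r j l) 1) = (0, χ l (Finsupp.single p 1)) := by
  obtain ⟨h1, h2⟩ := h.odd p hp
  refine Prod.ext (Finsupp.single_eq_of_ne (ne_old h hp j l).symm) ?_
  have a := qL_rec h1 (h.pr j l).1 h2 (h.pr j l).2.1 (ne_old h hp j l).symm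
  rw [q4_new h, mul_zero] at a
  show lin (qL p) _ = χ l _
  rw [lin_single _ (h.pr j l).1.ne_zero, ← h.chi j l _ (single_mem (Or.inr hp)),
    lin_single _ h1.ne_zero]
  linear_combination a - qL (r j l) p * two0

theorem st_single (j l : Fin 8) :
    st (Finsupp.single (r j l) 1) = (0, 0, 0, χ l (Finsupp.single 2 1)) := by
  refine Prod.ext (Finsupp.single_eq_of_ne (h.pr j l).1.ne_zero.symm) (Prod.ext
    (Finsupp.single_eq_of_ne (h.pr j l).2.1.symm) (Prod.ext ?_ ?_))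
  · show lin q4 _ = 0
    rw [lin_single _ (h.pr j l).1.ne_zero, q4_new h]
  · show lin q8 _ = χ l _
    rw [lin_single _ (h.pr j l).1.ne_zero, ← h.chi j l _ (single_mem (Or.inl rfl)),
      lin_single _ two_ne_zero, q8_prime (h.pr j l).1 (h.pr j l).2.1]
    rfl

omit h in
theorem map_rm {W : Type} [AddCommGroup W] [Module (ZMod 2) W] (f : X →ₗ[ZMod 2] W) (g : Fin 8 → W)
    (hf : ∀ j l, f (Finsupp.single (r j l) 1) = g l) {x : X} (hx : ∀ l, ∑ j, x (r j l) = 0) :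
    f (rm r x) = f x := by
  simp only [rm_apply, map_add, map_sum, map_smul, hf]
  rw [sum_comm]
  simp only [← sum_smul, hx, zero_smul, sum_const_zero, add_zero]

omit h in
theorem map_nk {W : Type} [AddCommGroup W] [Module (ZMod 2) W] (f : X →ₗ[ZMod 2] W) (g : Fin 8 → W)
    (hf : ∀ j l, f (Finsupp.single (r j l) 1) = g l) (j : Fin 8) :
    f (nk8 k r j) = f (k j) + ∑ l, g l := by
  simp only [nk8, map_add, map_sum, hf]

theorem lr_dl {p : ℕ} (hp : p ∈ T) : lr p (∑ i, nk8 k r i) = lr p (∑ j, k j) :=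
  sh_sum (lr p) (lr p) _ (map_nk (k := k) (lr p) _ (lr_single h hp))

theorem lr_ka3 {p : ℕ} (hp : p ∈ T) : lr p (ka3 c (nk8 k r)) = lr p (ka3 c k) :=
  (sh_ka (lr p) (lr p) _ (map_nk (k := k) (lr p) _ (lr_single h hp)) fun _ => rfl).2.2

theorem star_new (hs : Star8 c k) : Star8 c (nk8 k r) := by
  have a := sh_ka (c := c) st st _ (map_nk (k := k) st _ (st_single h)) fun _ => rfl
  exact ⟨(sh_sum st st _ (map_nk (k := k) st _ (st_single h))).trans hs.1, a.1.trans hs.2.1,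
    a.2.1.trans hs.2.2⟩

theorem rm_dl : rm r (∑ i, nk8 k r i) = ∑ i, k i := by simp only [map_sum, rm_nk h]

theorem rm_ka2 : rm r (ka2 c (nk8 k r)) = ka2 c k :=
  (sh_ka (rm r) LinearMap.id 0 (fun j => by rw [rm_nk h, add_zero]; rfl)
    fun t => rm_old h (h.hc t)).2.1

theorem lq_eq {p : ℕ} (hp : p ∈ T) (e : X) :
    Lq (e + ∑ i, nk8 k r i) p = Lq (e + ∑ j, k j) p := by
  have a : lin (qL p) (∑ i, nk8 k r i) = lin (qL p) (∑ j, k j) := congrArg Prod.snd (lr_dl h hp)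
  rw [Lq, Lq, map_add, map_add, a]

theorem lin_new (j m : Fin 8) {x : X} (hx : rm r x ∈ Sup T) : lin (qL (r j m)) x =
    χ m (rm r x) + ∑ i, ∑ l, qL (r j m) (r i l) * x (r i l) := by
  rw [← h.chi j m _ hx]
  simp only [rm_apply, map_add, map_sum, map_smul, lin_single _ (h.pr _ _).1.ne_zero, smul_eq_mul,
    mul_comm (x _)]
  rw [add_assoc, add_self', add_zero]

variable {e : X} (he : e = 0 ∨ e = ep)

include he

omit h in
theorem sg_e (γ : X) : Sg (e + γ) = Sg γ := by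
  rcases he with rfl | rfl
  exacts [by rw [zero_add], Sg_ep γ]

theorem eqs (h1 : ∀ l, χ l (∑ j, k j) = 1) {A B : Finset ℕ} (hA : A ⊆ T) {y : X}
    (hy : y ∈ Rd (e + ∑ i, nk8 k r i) A B) (j m : Fin 8) :
    χ m (rm r y) + ∑ i, ∑ l, qL (r j m) (r i l) * y (r i l) =
      y (r j m) * (1 + ∑ i, ∑ l, qL (r j m) (r i l)) := by
  obtain ⟨a1, a2, -⟩ := mem_Rd.1 hy
  rw [sg_e he] at a1 a2
  have a3 := a2 _ (new_mem h j m)
  have a4 : lin (qL (r j m)) e = 0 := by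
    rcases he with rfl | rfl
    exacts [map_zero _, (h.chi j m _ (ep_mem_Sup T)).trans (h.ep0 m)]
  rw [Lq_apply, map_add, a4, lin_new h j m (Sup_mono (union_subset (sg_sub h) hA) (rm_mem h a1)),
    lin_new h j m (rm_dl h ▸ dl_mem h), rm_dl h, h1] at a3
  simp only [dl_new h, mul_one] at a3
  linear_combination a3 - (1 + ∑ i, ∑ l, qL (r j m) (r i l)) * y (r j m) * two0

theorem rm_rd {A B : Finset ℕ} (hB : B ⊆ T) {y : X} (hy : y ∈ Rd (e + ∑ i, nk8 k r i) A B)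
    (h0 : ∀ l, ∑ j, y (r j l) = 0) : rm r y ∈ Rd (e + ∑ j, k j) A B := by
  obtain ⟨a1, a2, a3⟩ := mem_Rd.1 hy
  rw [sg_e he] at a1 a2
  have b : ∀ p ∈ T, lr p (rm r y) = lr p y := fun p hp => map_rm _ _ (lr_single h hp) h0
  rw [mem_Rd, sg_e he]
  refine ⟨rm_mem h a1, fun q hq => ?_, fun q hq => ?_⟩
  · have b1 : rm r y q = y q := congrArg Prod.fst (b q (sg_sub h hq))
    have b2 : lin (qL q) (rm r y) = lin (qL q) y := congrArg Prod.snd (b q (sg_sub h hq))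
    have b3 := a2 q (sg_eq h ▸ mem_union_left _ hq)
    rw [lq_eq h (sg_sub h hq), Lq_apply] at b3
    rw [Lq_apply, b1, b2, b3]
  · exact (congrArg Prod.snd (b q (hB hq))).trans (a3 q hq)

omit he in
theorem dual {P Q : Finset ℕ} (hP : P ⊆ T) (hQ : Q ⊆ T) (hPQ : Disjoint P Q) {y z : X}
    (hy : y ∈ Sd (∑ i, nk8 k r i) P Q) (hz : z ∈ Rd (ep + ∑ j, k j) Q P) :
    ∑ l, (∑ j, y (r j l)) * χ l z = 0 := by
  obtain ⟨hy1, hy0⟩ := mem_Sd.1 hy
  obtain ⟨a1, a2, a3⟩ := mem_Rd.1 hy1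
  obtain ⟨b1, b2, b3⟩ := mem_Rd.1 hz
  rw [Sg_ep] at b1 b2
  have zT : z ∈ Sup T := Sup_mono (union_subset (sg_sub h) hQ) b1
  have hO : OddP (T ∪ univ.image fun t : Fin 8 × Fin 8 => r t.1 t.2) := fun p hp => by
    rcases mem_union.1 hp with hp | hp
    · exact h.odd p hp
    · obtain ⟨t, -, rfl⟩ := mem_image.1 hp
      exact ⟨(h.pr _ _).1, (h.pr _ _).2.1⟩
  have p1 := prodf hO (x := y) (y := z) (Sup_mono (by
    rw [sg_eq h]
    exact union_subset (union_subset_union (sg_sub h) subset_rfl) (hP.trans subset_union_left)) a1)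
    (Sup_mono subset_union_left zT)
  have hH0 : ∀ w, hH 0 w = 0 := fun w => by simp [hH]
  rw [hy0, hH0, add_zero, sum_union, sum_eq_zero, zero_add,
    sum_image fun t _ t' _ e => Prod.ext (h.inj _ _ _ _ e).1 (h.inj _ _ _ _ e).2,
    Fintype.sum_prod_type, sum_comm] at p1
  · rw [← p1]
    refine sum_congr rfl fun l _ => ?_
    rw [sum_mul]
    refine sum_congr rfl fun j _ => ?_
    show _ = y (r j l) * lin (qL (r j l)) z + z (r j l) * lin (qL (r j l)) y +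
      y (r j l) * z (r j l) * qL (r j l) (-1)
    rw [old_zero h zT, h.chi j l z zT]
    ring
  · intro q hq
    obtain ⟨q1, q2⟩ := h.odd q hq
    show y q * lin (qL q) z + z q * lin (qL q) y + y q * z q * qL q (-1) = 0
    by_cases hs : q ∈ Sg (∑ j, k j)
    · have c1 := a2 q (sg_eq h ▸ mem_union_left _ hs)
      have c2 := b2 q hs
      have c3 := lq_eq h hq 0
      rw [zero_add, zero_add] at c3
      rw [c3, Lq_apply] at c1
      rw [Lq_apply, map_add, lin_ep] at c2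
      linear_combination y q * c2 + z q * c1 - y q * z q * lin (qL q) (∑ j, k j) * two0
    have y0 : q ∉ P → y q = 0 := fun hn => mem_Sup.1 a1 q q1.ne_zero q2 fun hm => by
      rw [mem_union, mem_Sg, dl_other (ne_old h hq), ← mem_Sg] at hm
      exact hm.elim hs hn
    have z0 : q ∉ Q → z q = 0 := fun hn => mem_Sup.1 b1 q q1.ne_zero q2 fun hm =>
      (mem_union.1 hm).elim hs hn
    by_cases h1 : q ∈ P
    · rw [z0 (disjoint_left.1 hPQ h1), b3 q h1]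
      ring
    by_cases h2 : q ∈ Q
    · rw [y0 h1, a3 q h2]
      ring
    · rw [y0 h1, z0 h2]
      ring
  · rw [disjoint_right]
    intro p hp hp'
    obtain ⟨t, -, rfl⟩ := mem_image.1 hp
    exact (h.pr _ _).2.2 hp'

omit he in
theorem tau_gam {γ : X} (hγ : γ ∈ Ga1 c (nk8 k r)) : ∑ j, γ (r j 0) = 0 := by
  have a := gam_le (S := LinearMap.ker (∑ j, Finsupp.lapply (r j 0) : X →ₗ[ZMod 2] ZMod 2))
    (fun t => by simp [old_zero h (h.hc t)])
    (fun i j => by simp [nk_new h, sum_add_distrib, add_self']) hγ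
  simpa using a

omit he in
theorem rm_gam {γ : X} (hγ : γ ∈ Ga1 c (nk8 k r)) : rm r γ ∈ Ga1 c k := by
  refine gam_le (S := (Ga1 c k).comap (rm r)) (fun t => ?_) (fun i j => ?_) hγ
  · rw [Submodule.mem_comap, rm_old h (h.hc t)]
    exact g_c c k t
  · rw [Submodule.mem_comap, map_add, rm_nk h, rm_nk h]
    exact g_k c k i j

theorem low (h1 : ∀ l, χ l (∑ j, k j) = 1) (hD : Dg8 fun i l j m => qL (r j m) (r i l))
    {A B : Finset ℕ} (hA : A ⊆ T) (hB : B ⊆ T) {y : X} (hy : y ∈ Rd (e + ∑ i, nk8 k r i) A B)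
    (h0 : ∑ j, y (r j 0) = 0) : rm r y ∈ Rd (e + ∑ j, k j) A B ∧ st (rm r y) = st y ∧
      ∑ l, χ l (rm r y) = 0 ∧ (rm r y = 0 → y = 0) := by
  obtain ⟨a1, a2⟩ := hD (fun l => χ l (rm r y)) (fun j l => y (r j l)) (eqs h he h1 hA hy)
  obtain ⟨a3, a4⟩ := a2 h0
  have a5 : ∀ l, ∑ j, y (r j l) = 0 := fun l => (a1 l).trans h0
  refine ⟨rm_rd h he hB hy a5, map_rm _ _ (st_single h) a5, a3, fun b => ?_⟩
  have a6 : ∀ j l, y (r j l) = 0 := fun j l => by
    have := a4 j l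
    rwa [b, map_zero] at this
  rw [← b]
  simp [rm_apply, a6]

end

end ZMoveAux

open ZMoveAux in
theorem move_step8 {c : Fin 7 → X} {k : Fin 8 → X} {T P Q : Finset ℕ} {r : Fin 8 → Fin 8 → ℕ}
    {χ : Fin 8 → X →ₗ[ZMod 2] ZMod 2} (h : Mv8 c k T r χ) (c0 : c 0 = ep) (hP : P ⊆ T) (hQ : Q ⊆ T)
    (hPQ : Disjoint P Q) (hK : Kn c (nk8 k r) P Q) (hI : Inj8 c k P Q)
    (h1 : ∀ l, χ l (∑ j, k j) = 1) (hD : Dg8 fun i l j m => qL (r j m) (r i l)) :
    Step8 (Sd (∑ j, k j) P Q) (Rd (ep + ∑ j, k j) Q P) (Sd (∑ i, nk8 k r i) P Q) (∑ l, χ l) ∧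
      Inj8 c (nk8 k r) P Q := by
  have key : ∀ y ∈ Sd (∑ i, nk8 k r i) P Q, ∑ j, y (r j 0) = 0 →
      rm r y ∈ Sd (∑ j, k j) P Q ∧ (∑ l, χ l) (rm r y) = 0 ∧ (rm r y = 0 → y = 0) := by
    intro y hy h0
    obtain ⟨a1, a2⟩ := mem_Sd.1 hy
    obtain ⟨b1, b2, b3, b4⟩ := low h (Or.inl rfl) h1 hD hP hQ (y := y) (by rwa [zero_add]) h0
    rw [zero_add] at b1
    exact ⟨mem_Sd.2 ⟨b1, b2.trans a2⟩, by rwa [LinearMap.sum_apply], b4⟩
  refine ⟨⟨rm r, ∑ j, Finsupp.lapply (r j 0), fun y hy z hz => ?_, fun y hy h0 => key y hy ?_⟩,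
    fun y hy hγ => ?_, fun z hz hγ => ?_⟩
  · have a := dual h hP hQ hPQ hy hz
    have b := (hD (fun l => χ l (rm r y)) (fun j l => y (r j l)) (eqs h (Or.inl rfl) h1 hP
      (B := Q) (y := y) (by rw [zero_add]; exact (mem_Sd.1 hy).1))).1
    simp only [b, ← mul_sum] at a
    simpa only [LinearMap.sum_apply, Finsupp.lapply_apply] using a
  · simpa only [LinearMap.sum_apply, Finsupp.lapply_apply] using h0
  · obtain ⟨a1, -, a3⟩ := key y hy (tau_gam h hγ)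
    exact a3 (hI.i1 _ a1 (rm_gam h hγ))
  · obtain ⟨a1, -⟩ := low h (Or.inr rfl) h1 hD hQ hP hz (tau_gam h hγ)
    obtain ⟨w, w', e⟩ := mem_K2.1 (hI.i2 _ a1 (rm_gam h hγ))
    have b1 : z + (w • (ep + ∑ i, nk8 k r i) + w' • ka2 c (nk8 k r)) ∈
        Rd (ep + ∑ i, nk8 k r i) Q P :=
      add_mem hz (add_mem (Submodule.smul_mem _ _ hK.h2) (Submodule.smul_mem _ _ hK.h3))
    have b2 : z + (w • (ep + ∑ i, nk8 k r i) + w' • ka2 c (nk8 k r)) ∈ Ga1 c (nk8 k r) :=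
      add_mem hγ (add_mem (Submodule.smul_mem _ _ (add_mem (c0 ▸ g_c c _ 0) (g_sum c _)))
        (Submodule.smul_mem _ _ (g_ka2 c _)))
    obtain ⟨-, -, -, b3⟩ := low h (Or.inr rfl) h1 hD hQ hP b1 (tau_gam h b2)
    have b4 := b3 (by
      rw [map_add, map_add, map_smul, map_smul, map_add, rm_old h (ep_mem_Sup T), rm_dl h,
        rm_ka2 h, e, add_self'])
    refine mem_K2.2 ⟨w, w', ?_⟩
    rw [← add_zero (_ + _ : X), ← b4, add_comm z, ← add_assoc, add_self', zero_add]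

end Pool.Agent.Lib.MP_7d3fda_nt.R5
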